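import Pool.Agent.Lib_MP_1df64d_an.Defs

/-! MP_1df64d_an, piece Base: regularity facts for weak solutions. -/

open MeasureTheory Filter Topology Set

namespace Pool.MP_1df64d_an

variable {u ux v : ℝ → ℝ → ℝ}

/-- the primitive of the velocity -/
noncomputable def FF (v : ℝ → ℝ → ℝ) (t x : ℝ) : ℝ := ∫ y in (0:ℝ)..x, v t y

/-- An `L^1`-continuous family. -/
structure L1Fam (w : ℝ → ℝ → ℝ) : Prop where
  meas : Measurable (Function.uncurry w)
  int : ∀ t, IntervalIntegrable (w t) volume 0 1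
  lim : ∀ t₀ : ℝ, Tendsto (fun t => ∫ x in (0:ℝ)..1, |w t x - w t₀ x|) (𝓝 t₀) (𝓝 0)

theorem L1Fam.of_sq {w : ℝ → ℝ → ℝ} (hm : Measurable (Function.uncurry w))
    (hL : ∀ t, MemLp (w t) 2 (volume.restrict (Set.Ioc (0:ℝ) 1))) {D : ℝ → ℝ → ℝ}
    (hD : ∀ t t₀, ∫ x in (0:ℝ)..1, (w t x - w t₀ x) ^ 2 ≤ D t₀ t)
    (hlim : ∀ t₀, Tendsto (D t₀) (𝓝 t₀) (𝓝 0)) : L1Fam w := by
  have hint : ∀ t, IntervalIntegrable (w t) volume 0 1 := by
    intro t
    rw [intervalIntegrable_iff_integrableOn_Ioc_of_le zero_le_one]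
    exact (hL t).integrable one_le_two
  refine ⟨hm, hint, ?_⟩
  intro t₀
  have hdint : ∀ t, IntervalIntegrable (fun x => |w t x - w t₀ x|) volume 0 1 := fun t =>
    ((hint t).sub (hint t₀)).abs
  have hsq : ∀ t, IntervalIntegrable (fun x => (w t x - w t₀ x) ^ 2) volume 0 1 := by
    intro t
    rw [intervalIntegrable_iff_integrableOn_Ioc_of_le zero_le_one]
    exact ((hL t).sub (hL t₀)).integrable_sq
  rw [Metric.tendsto_nhds]
  intro ε hε
  have h1 := (Metric.tendsto_nhds.mp (hlim t₀)) (ε ^ 2) (by positivity)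
  filter_upwards [h1] with t ht
  rw [Real.dist_eq, sub_zero] at ht
  have hD' : D t₀ t < ε ^ 2 := (le_abs_self _).trans_lt ht
  have h0 : 0 ≤ ∫ x in (0:ℝ)..1, |w t x - w t₀ x| :=
    intervalIntegral.integral_nonneg zero_le_one fun x _ => abs_nonneg _
  rw [Real.dist_eq, sub_zero, abs_of_nonneg h0]
  have h2 : (∫ x in (0:ℝ)..1, |w t x - w t₀ x|) ≤
      ∫ x in (0:ℝ)..1, (ε / 2 + 1 / (2 * ε) * (w t x - w t₀ x) ^ 2) := by
    apply intervalIntegral.integral_mono_on zero_le_one (hdint t)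
    · exact intervalIntegrable_const.add ((hsq t).const_mul _)
    · intro x _
      have h3 : |w t x - w t₀ x| ^ 2 = (w t x - w t₀ x) ^ 2 := sq_abs _
      rw [← h3]
      set d := |w t x - w t₀ x|
      have h4 : ε / 2 + 1 / (2 * ε) * d ^ 2 - d = (d - ε) ^ 2 / (2 * ε) := by
        field_simp; ring
      have h5 : 0 ≤ (d - ε) ^ 2 / (2 * ε) := by positivity
      linarith
  have h6 : (∫ x in (0:ℝ)..1, (ε / 2 + 1 / (2 * ε) * (w t x - w t₀ x) ^ 2)) =
      ε / 2 + 1 / (2 * ε) * ∫ x in (0:ℝ)..1, (w t x - w t₀ x) ^ 2 := by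
    rw [intervalIntegral.integral_add intervalIntegrable_const ((hsq t).const_mul _),
      intervalIntegral.integral_const_mul]
    simp
  have h7 : 1 / (2 * ε) * (∫ x in (0:ℝ)..1, (w t x - w t₀ x) ^ 2) < 1 / (2 * ε) * ε ^ 2 :=
    mul_lt_mul_of_pos_left ((hD t t₀).trans_lt hD') (by positivity)
  have h8 : 1 / (2 * ε) * ε ^ 2 = ε / 2 := by field_simp
  linarith

theorem L1Fam.cont_mul {w : ℝ → ℝ → ℝ} (h : L1Fam w) {g : ℝ → ℝ} (hg : Measurable g) {C : ℝ}
    (hC : ∀ x, |g x| ≤ C) : Continuous (fun t => ∫ x in (0:ℝ)..1, w t x * g x) := by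
  have hint : ∀ t, IntervalIntegrable (fun x => w t x * g x) volume 0 1 := by
    intro t
    have h1 := h.int t
    rw [intervalIntegrable_iff_integrableOn_Ioc_of_le zero_le_one] at h1 ⊢
    exact Integrable.mul_bdd h1 hg.aestronglyMeasurable (Eventually.of_forall fun x => hC x)
  have hC0 : 0 ≤ C := (abs_nonneg _).trans (hC 0)
  rw [continuous_iff_continuousAt]
  intro t₀
  unfold ContinuousAt
  rw [tendsto_iff_dist_tendsto_zero]
  have h1 : Tendsto (fun t => C * ∫ x in (0:ℝ)..1, |w t x - w t₀ x|) (𝓝 t₀) (𝓝 0) := by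
    simpa using (h.lim t₀).const_mul C
  refine squeeze_zero (fun t => dist_nonneg) (fun t => ?_) h1
  rw [Real.dist_eq, ← intervalIntegral.integral_sub (hint t) (hint t₀),
    ← intervalIntegral.integral_const_mul]
  refine (intervalIntegral.abs_integral_le_integral_abs zero_le_one).trans ?_
  apply intervalIntegral.integral_mono_on zero_le_one
  · exact ((hint t).sub (hint t₀)).abs
  · exact (((h.int t).sub (h.int t₀)).abs).const_mul C
  · intro x _
    rw [← sub_mul, abs_mul, mul_comm]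
    exact mul_le_mul_of_nonneg_right (hC x) (abs_nonneg _)

theorem L1Fam.cont_prim {w : ℝ → ℝ → ℝ} (h : L1Fam w) :
    ContinuousOn (fun p : ℝ × ℝ => ∫ y in (0:ℝ)..p.2, w p.1 y) (univ ×ˢ Icc (0:ℝ) 1) := by
  rintro ⟨t₀, x₀⟩ ⟨-, hx₀⟩
  simp only at hx₀
  unfold ContinuousWithinAt
  rw [tendsto_iff_dist_tendsto_zero]
  have hsub : ∀ t, ∀ a ∈ Icc (0:ℝ) 1, ∀ b ∈ Icc (0:ℝ) 1, IntervalIntegrable (w t) volume a b := by
    intro t a ha b hb
    refine (h.int t).mono_set ?_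
    rw [uIcc_of_le (zero_le_one : (0:ℝ) ≤ 1)]
    exact uIcc_subset_Icc ha hb
  have h1 : Tendsto (fun p : ℝ × ℝ => ∫ x in (0:ℝ)..1, |w p.1 x - w t₀ x|)
      (𝓝[univ ×ˢ Icc (0:ℝ) 1] (t₀, x₀)) (𝓝 0) := by
    have h2 : Tendsto (fun p : ℝ × ℝ => p.1) (𝓝[univ ×ˢ Icc (0:ℝ) 1] (t₀, x₀)) (𝓝 t₀) :=
      (continuous_fst.tendsto (t₀, x₀)).mono_left nhdsWithin_le_nhds
    exact (h.lim t₀).comp h2
  have h3 : Tendsto (fun p : ℝ × ℝ => dist (∫ y in (0:ℝ)..p.2, w t₀ y) (∫ y in (0:ℝ)..x₀, w t₀ y))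
      (𝓝[univ ×ˢ Icc (0:ℝ) 1] (t₀, x₀)) (𝓝 0) := by
    rw [← tendsto_iff_dist_tendsto_zero]
    have h4 : ContinuousOn (fun x => ∫ y in (0:ℝ)..x, w t₀ y) (uIcc (0:ℝ) 1) := by
      apply intervalIntegral.continuousOn_primitive_interval
      have := h.int t₀
      rw [intervalIntegrable_iff_integrableOn_Icc_of_le zero_le_one] at this
      rw [uIcc_of_le (zero_le_one : (0:ℝ) ≤ 1)]
      exact this
    rw [uIcc_of_le (zero_le_one : (0:ℝ) ≤ 1)] at h4
    have h5 : Tendsto (fun p : ℝ × ℝ => p.2) (𝓝[univ ×ˢ Icc (0:ℝ) 1] (t₀, x₀))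
        (𝓝[Icc (0:ℝ) 1] x₀) := by
      apply tendsto_nhdsWithin_of_tendsto_nhds_of_eventually_within
      · exact (continuous_snd.tendsto (t₀, x₀)).mono_left nhdsWithin_le_nhds
      · filter_upwards [self_mem_nhdsWithin] with p hp
        exact hp.2
    exact (h4 x₀ hx₀).tendsto.comp h5
  have h6 := h1.add h3
  rw [add_zero] at h6
  refine squeeze_zero' (Eventually.of_forall fun p => dist_nonneg) ?_ h6
  filter_upwards [self_mem_nhdsWithin] with p hp
  have hp2 : p.2 ∈ Icc (0:ℝ) 1 := hp.2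
  have hz : (0:ℝ) ∈ Icc (0:ℝ) 1 := ⟨le_rfl, zero_le_one⟩
  refine (dist_triangle _ (∫ y in (0:ℝ)..p.2, w t₀ y) _).trans ?_
  apply add_le_add _ le_rfl
  rw [Real.dist_eq, ← intervalIntegral.integral_sub (hsub _ _ hz _ hp2) (hsub _ _ hz _ hp2)]
  refine (intervalIntegral.abs_integral_le_integral_abs hp2.1).trans ?_
  apply intervalIntegral.integral_mono_interval le_rfl hp2.1 hp2.2
  · exact Eventually.of_forall fun x => abs_nonneg _
  · exact ((h.int _).sub (h.int _)).abs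

theorem L1Fam.integrable {w : ℝ → ℝ → ℝ} (h : L1Fam w) (a b : ℝ) :
    Integrable (Function.uncurry w)
      ((volume.restrict (Ioc a b)).prod (volume.restrict (Ioc (0:ℝ) 1))) := by
  rw [integrable_prod_iff h.meas.aestronglyMeasurable]
  constructor
  · refine Eventually.of_forall fun t => ?_
    have := h.int t
    rw [intervalIntegrable_iff_integrableOn_Ioc_of_le zero_le_one] at this
    exact this
  · have hc : Continuous (fun t => ∫ x in (0:ℝ)..1, |w t x|) := by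
      rw [continuous_iff_continuousAt]
      intro t₀
      unfold ContinuousAt
      rw [tendsto_iff_dist_tendsto_zero]
      refine squeeze_zero (fun t => dist_nonneg) (fun t => ?_) (h.lim t₀)
      rw [Real.dist_eq, ← intervalIntegral.integral_sub (h.int t).abs (h.int t₀).abs]
      refine (intervalIntegral.abs_integral_le_integral_abs zero_le_one).trans ?_
      apply intervalIntegral.integral_mono_on zero_le_one
      · exact ((h.int t).abs.sub (h.int t₀).abs).abs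
      · exact ((h.int t).sub (h.int t₀)).abs
      · intro x _
        exact abs_abs_sub_abs_le_abs_sub _ _
    have h1 : (fun t => ∫ y, ‖Function.uncurry w (t, y)‖ ∂(volume.restrict (Ioc (0:ℝ) 1))) =
        fun t => ∫ x in (0:ℝ)..1, |w t x| := by
      funext t
      rw [intervalIntegral.integral_of_le zero_le_one]
      rfl
    rw [h1]
    exact (hc.integrableOn_Icc (a := a) (b := b)).mono_set Ioc_subset_Icc_self

theorem sol_fam_ux (h : IsSol u ux v) : L1Fam ux := by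
  have hsq : ∀ w : ℝ → ℝ → ℝ, (∀ t, MemLp (w t) 2 (volume.restrict (Set.Ioc (0:ℝ) 1))) →
      ∀ t t₀, IntervalIntegrable (fun x => (w t x - w t₀ x) ^ 2) volume 0 1 := by
    intro w hw t t₀
    rw [intervalIntegrable_iff_integrableOn_Ioc_of_le zero_le_one]
    exact ((hw t).sub (hw t₀)).integrable_sq
  refine L1Fam.of_sq h.mux h.lux
    (D := fun t₀ t => ∫ x in (0:ℝ)..1, ((ux t x - ux t₀ x) ^ 2 + (v t x - v t₀ x) ^ 2))
    (fun t t₀ => ?_) h.cont
  apply intervalIntegral.integral_mono_on zero_le_one (hsq ux h.lux t t₀)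
  · exact (hsq ux h.lux t t₀).add (hsq v h.lv t t₀)
  · intro x _
    have : 0 ≤ (v t x - v t₀ x) ^ 2 := sq_nonneg _
    linarith

theorem sol_fam_v (h : IsSol u ux v) : L1Fam v := by
  have hsq : ∀ w : ℝ → ℝ → ℝ, (∀ t, MemLp (w t) 2 (volume.restrict (Set.Ioc (0:ℝ) 1))) →
      ∀ t t₀, IntervalIntegrable (fun x => (w t x - w t₀ x) ^ 2) volume 0 1 := by
    intro w hw t t₀
    rw [intervalIntegrable_iff_integrableOn_Ioc_of_le zero_le_one]
    exact ((hw t).sub (hw t₀)).integrable_sq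
  refine L1Fam.of_sq h.mv h.lv
    (D := fun t₀ t => ∫ x in (0:ℝ)..1, ((ux t x - ux t₀ x) ^ 2 + (v t x - v t₀ x) ^ 2))
    (fun t t₀ => ?_) h.cont
  apply intervalIntegral.integral_mono_on zero_le_one (hsq v h.lv t t₀)
  · exact (hsq ux h.lux t t₀).add (hsq v h.lv t t₀)
  · intro x _
    have : 0 ≤ (ux t x - ux t₀ x) ^ 2 := sq_nonneg _
    linarith

theorem sol_int_ux (h : IsSol u ux v) (t : ℝ) : IntervalIntegrable (ux t) volume 0 1 :=
  (sol_fam_ux h).int t

theorem sol_int_v (h : IsSol u ux v) (t : ℝ) : IntervalIntegrable (v t) volume 0 1 :=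
  (sol_fam_v h).int t

theorem sol_cont_ux (h : IsSol u ux v) {g : ℝ → ℝ} (hg : Measurable g) {C : ℝ}
    (hC : ∀ x, |g x| ≤ C) : Continuous (fun t => ∫ x in (0:ℝ)..1, ux t x * g x) :=
  (sol_fam_ux h).cont_mul hg hC

theorem sol_cont_v (h : IsSol u ux v) {g : ℝ → ℝ} (hg : Measurable g) {C : ℝ}
    (hC : ∀ x, |g x| ≤ C) : Continuous (fun t => ∫ x in (0:ℝ)..1, v t x * g x) :=
  (sol_fam_v h).cont_mul hg hC

theorem sol_cont_u (h : IsSol u ux v) :
    ContinuousOn (Function.uncurry u) (univ ×ˢ Icc (0:ℝ) 1) := by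
  refine (sol_fam_ux h).cont_prim.congr ?_
  rintro ⟨t, x⟩ ⟨-, hx⟩
  exact h.prim t x hx

theorem sol_cont_FF (h : IsSol u ux v) :
    ContinuousOn (Function.uncurry (FF v)) (univ ×ˢ Icc (0:ℝ) 1) := by
  refine (sol_fam_v h).cont_prim.congr ?_
  rintro ⟨t, x⟩ _
  rfl

theorem sol_integrable_ux (h : IsSol u ux v) (a b : ℝ) :
    Integrable (Function.uncurry ux)
      ((volume.restrict (Ioc a b)).prod (volume.restrict (Ioc (0:ℝ) 1))) :=
  (sol_fam_ux h).integrable a b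

theorem sol_integrable_v (h : IsSol u ux v) (a b : ℝ) :
    Integrable (Function.uncurry v)
      ((volume.restrict (Ioc a b)).prod (volume.restrict (Ioc (0:ℝ) 1))) :=
  (sol_fam_v h).integrable a b

end Pool.MP_1df64d_an
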