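import Pool.Agent.Lib_MP_1df64d_an.Defs

/-! MP_1df64d_an, piece Bin: Newton basis polynomials. -/

open MeasureTheory Filter Topology Set

namespace Pool.MP_1df64d_an

theorem bb_zero (r : ℝ) : bb 0 r = 1 := rfl
theorem bb_succ (m : ℕ) (r : ℝ) : bb (m + 1) r = bb m r * (r - m) / (m + 1) := rfl
theorem db_zero (r : ℝ) : db 0 r = 0 := rfl
theorem db_succ (m : ℕ) (r : ℝ) : db (m + 1) r = (db m r * (r - m) + bb m r) / (m + 1) := rfl

theorem bb_hasDerivAt (m : ℕ) (r : ℝ) : HasDerivAt (bb m) (db m r) r := by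
  induction m with
  | zero =>
    have : bb 0 = fun _ => (1:ℝ) := by
      funext r
      rfl
    rw [this, db_zero]
    exact hasDerivAt_const _ _
  | succ m ih =>
    have h1 : bb (m + 1) = fun r => bb m r * (r - m) / (m + 1) := by
      funext r
      rfl
    rw [h1, db_succ]
    have h2 : HasDerivAt (fun r : ℝ => r - m) 1 r := (hasDerivAt_id r).sub_const _
    have h3 := (ih.mul h2).div_const ((m:ℝ) + 1)
    simpa using h3

theorem bb_continuous (m : ℕ) : Continuous (bb m) :=
  continuous_iff_continuousAt.mpr fun r => (bb_hasDerivAt m r).continuousAt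

theorem db_continuous (m : ℕ) : Continuous (db m) := by
  induction m with
  | zero =>
    have : db 0 = fun _ => (0:ℝ) := by
      funext r
      rfl
    rw [this]
    exact continuous_const
  | succ m ih =>
    have h1 : db (m + 1) = fun r => (db m r * (r - m) + bb m r) / (m + 1) := by
      funext r
      rfl
    rw [h1]
    have := bb_continuous m
    fun_prop

theorem bb_nat (m k : ℕ) : bb m (k:ℝ) = (k.choose m : ℝ) := by
  induction m with
  | zero => simp [bb_zero]
  | succ m ih =>
    rw [bb_succ, ih]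
    rw [div_eq_iff (by positivity)]
    have h1 : k.choose (m + 1) * (m + 1) = k.choose m * (k - m) := Nat.choose_succ_right_eq k m
    rcases le_or_gt m k with h | h
    · have h2 : ((k.choose (m + 1) * (m + 1) : ℕ) : ℝ) = ((k.choose m * (k - m) : ℕ) : ℝ) := by
        rw [h1]
      push_cast [Nat.cast_sub h] at h2
      linarith
    · rw [Nat.choose_eq_zero_of_lt h, Nat.choose_eq_zero_of_lt (by omega)]
      simp

theorem bb_db_le (m : ℕ) {r : ℝ} (hr : r ∈ Icc (0:ℝ) 1) : |bb m r| ≤ 1 ∧ |db m r| ≤ 1 := by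
  induction m with
  | zero => simp [bb_zero, db_zero]
  | succ m ih =>
    obtain ⟨h1, h2⟩ := ih
    have hm : (0:ℝ) < (m:ℝ) + 1 := by positivity
    rcases Nat.eq_zero_or_pos m with h0 | h0
    · subst h0
      simp only [bb_succ, db_succ, bb_zero, db_zero]
      simp only [Nat.cast_zero, sub_zero, one_mul, zero_add, div_one, zero_mul]
      rw [abs_of_nonneg hr.1]
      exact ⟨hr.2, by simp⟩
    · have hm1 : (1:ℝ) ≤ m := by exact_mod_cast h0
      have h3 : |r - m| ≤ m := by
        rw [abs_of_nonpos (by linarith [hr.2])]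
        linarith [hr.1]
      constructor
      · rw [bb_succ, abs_div, abs_of_pos hm, div_le_one hm, abs_mul]
        calc |bb m r| * |r - m| ≤ 1 * m := mul_le_mul h1 h3 (abs_nonneg _) zero_le_one
          _ ≤ m + 1 := by linarith
      · rw [db_succ, abs_div, abs_of_pos hm, div_le_one hm]
        calc |db m r * (r - m) + bb m r| ≤ |db m r * (r - m)| + |bb m r| := abs_add_le _ _
          _ ≤ 1 * m + 1 := by
            rw [abs_mul]
            exact add_le_add (mul_le_mul h2 h3 (abs_nonneg _) zero_le_one) h1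
          _ = m + 1 := by ring

theorem bb_abs_le (m : ℕ) {r : ℝ} (hr : r ∈ Icc (0:ℝ) 1) : |bb m r| ≤ 1 := (bb_db_le m hr).1

theorem db_abs_le (m : ℕ) {r : ℝ} (hr : r ∈ Icc (0:ℝ) 1) : |db m r| ≤ 1 := (bb_db_le m hr).2

theorem beta_abs_le (i m : ℕ) : |beta i m| ≤ 1 := by
  unfold beta
  have h := intervalIntegral.norm_integral_le_of_norm_le_const (a := (0:ℝ)) (b := 1) (C := 1)
    (f := fun r => bb i r * db m r) (by
      intro r hr
      rw [uIoc_of_le zero_le_one] at hr
      have hr' : r ∈ Icc (0:ℝ) 1 := ⟨hr.1.le, hr.2⟩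
      rw [Real.norm_eq_abs, abs_mul]
      exact mul_le_one₀ (bb_abs_le i hr') (abs_nonneg _) (db_abs_le m hr'))
  simpa using h

theorem beta_symm (i m : ℕ) :
    beta i m + beta m i = bb i 1 * bb m 1 - bb i 0 * bb m 0 := by
  unfold beta
  rw [← intervalIntegral.integral_add]
  · have h1 : ∀ r ∈ uIcc (0:ℝ) 1, HasDerivAt (fun r => bb i r * bb m r)
        (bb i r * db m r + bb m r * db i r) r := by
      intro r _
      have := (bb_hasDerivAt i r).mul (bb_hasDerivAt m r)
      exact this.congr_deriv (by ring)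
    rw [intervalIntegral.integral_eq_sub_of_hasDerivAt h1]
    apply Continuous.intervalIntegrable
    have := bb_continuous i
    have := bb_continuous m
    have := db_continuous i
    have := db_continuous m
    fun_prop
  · exact ((bb_continuous i).mul (db_continuous m)).intervalIntegrable _ _
  · exact ((bb_continuous m).mul (db_continuous i)).intervalIntegrable _ _

theorem beta_right_zero (i : ℕ) : beta i 0 = 0 := by
  unfold beta
  simp [db_zero]

theorem bb_at_zero (m : ℕ) (hm : 1 ≤ m) : bb m 0 = 0 := by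
  have := bb_nat m 0
  rw [Nat.cast_zero] at this
  rw [this, Nat.choose_eq_zero_of_lt (by omega)]
  simp

theorem bb_at_one (m : ℕ) (hm : 2 ≤ m) : bb m 1 = 0 := by
  have := bb_nat m 1
  rw [Nat.cast_one] at this
  rw [this, Nat.choose_eq_zero_of_lt (by omega)]
  simp

theorem bb_one_one : bb 1 1 = 1 := by
  have := bb_nat 1 1
  rw [Nat.cast_one] at this
  rw [this]
  simp

theorem beta_zero_one : beta 0 1 = 1 := by
  have := beta_symm 0 1
  rw [beta_right_zero, bb_zero, bb_zero, bb_one_one, bb_at_zero 1 le_rfl] at this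
  linarith

theorem beta_zero_left (m : ℕ) (hm : 2 ≤ m) : beta 0 m = 0 := by
  have := beta_symm 0 m
  rw [beta_right_zero, bb_zero, bb_zero, bb_at_one m hm, bb_at_zero m (by omega)] at this
  linarith

theorem beta_one_one : beta 1 1 = 1 / 2 := by
  have := beta_symm 1 1
  rw [bb_one_one, bb_at_zero 1 le_rfl] at this
  linarith

theorem beta_antisymm (i m : ℕ) (hi : 1 ≤ i) (hm : 1 ≤ m) (him : ¬ (i = 1 ∧ m = 1)) :
    beta i m = -beta m i := by
  have := beta_symm i m
  rw [bb_at_zero i hi, bb_at_zero m hm] at this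
  have h2 : bb i 1 * bb m 1 = 0 := by
    by_cases h : 2 ≤ i
    · rw [bb_at_one i h, zero_mul]
    · have : 2 ≤ m := by omega
      rw [bb_at_one m this, mul_zero]
  rw [h2] at this
  linarith

theorem newton_aux (f : ℝ → ℝ) (k : ℕ) (t : ℝ) :
    ∑ m ∈ Finset.range (k + 1), (k.choose m : ℝ) * dl m f t = f (t + 2 * k) := by
  have h := shift_eq_sum_fwdDiff_iter (2:ℝ) f k t
  have e : t + 2 * (k:ℝ) = t + k • (2:ℝ) := by
    rw [nsmul_eq_mul]; ring
  rw [e, h]
  apply Finset.sum_congr rfl
  intro m _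
  rw [nsmul_eq_mul]
  rfl

/-- Newton's interpolation formula at the nodes `0, ..., n`. -/
theorem newton (f : ℝ → ℝ) (n k : ℕ) (hk : k ≤ n) (t : ℝ) :
    ∑ m ∈ Finset.range (n + 1), bb m (k:ℝ) * dl m f t = f (t + 2 * k) := by
  rw [← newton_aux f k t]
  have h1 : Finset.range (k + 1) ⊆ Finset.range (n + 1) := by
    intro x hx
    rw [Finset.mem_range] at hx ⊢
    omega
  rw [← Finset.sum_subset h1]
  · apply Finset.sum_congr rfl
    intro m _
    rw [bb_nat]
  · intro m _ hm
    rw [Finset.mem_range, not_lt] at hm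
    rw [bb_nat, Nat.choose_eq_zero_of_lt (by omega)]
    simp

theorem cc_nat (U : ℝ → ℝ → ℝ) (n k : ℕ) (hk : k ≤ n) (t x : ℝ) :
    cc U n t x (k:ℝ) = U (t + 2 * k) x :=
  newton (fun τ => U τ x) n k hk t

theorem AA_nat (U : ℝ → ℝ → ℝ) (n k : ℕ) (hk : k ≤ n) (t x : ℝ) :
    AA U n t x (k:ℝ) = U (t + 2 * k) x ^ 3 :=
  newton (fun τ => U τ x ^ 3) n k hk t

end Pool.MP_1df64d_an
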