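import Pool.Agent.Lib_MP_1df64d_an.Defs

/-! MP_1df64d_an, piece Leib: Leibniz rule and factorial bounds for differences of products. -/

open MeasureTheory Filter Topology Set

namespace Pool.MP_1df64d_an

theorem wt_pos (i : ℕ) : 0 < wt i := by
  unfold wt; positivity

theorem wt_zero : wt 0 = 1 := by
  simp [wt]

theorem wt_le_one (i : ℕ) : wt i ≤ 1 := by
  unfold wt
  rw [div_le_one (by positivity)]
  have : (0:ℝ) ≤ i := Nat.cast_nonneg i
  nlinarith

/-- `∑ 1/(m+1)^2 ≤ 2`. -/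
theorem sum_wt_le (n : ℕ) : ∑ m ∈ Finset.range n, wt m ≤ 2 := by
  have key : ∀ n : ℕ, ∑ m ∈ Finset.range (n + 1), wt m ≤ 2 - 1 / ((n:ℝ) + 1) := by
    intro n
    induction n with
    | zero => simp [wt]; norm_num
    | succ n ih =>
      rw [Finset.sum_range_succ]
      have h1 : wt (n + 1) ≤ 1 / ((n:ℝ) + 1) - 1 / (((n + 1 : ℕ) : ℝ) + 1) := by
        unfold wt
        have hn : (0:ℝ) ≤ n := Nat.cast_nonneg n
        push_cast
        rw [div_sub_div _ _ (by positivity) (by positivity), div_le_div_iff₀ (by positivity) (by positivity)]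
        nlinarith
      linarith
  rcases n with _ | n
  · simp
  · have := key n
    have h2 : 0 ≤ 1 / ((n:ℝ) + 1) := by positivity
    linarith

theorem sum_wt_le' (n : ℕ) : ∑ m ∈ Finset.range n, wt m ≤ 7 / 4 := by
  have key : ∀ n : ℕ, ∑ m ∈ Finset.range (n + 2), wt m ≤ 7 / 4 - 1 / ((n:ℝ) + 2) := by
    intro n
    induction n with
    | zero => simp [Finset.sum_range_succ, wt]; norm_num
    | succ n ih =>
      rw [Finset.sum_range_succ]
      have h1 : wt (n + 2) ≤ 1 / ((n:ℝ) + 2) - 1 / (((n + 1 : ℕ) : ℝ) + 2) := by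
        unfold wt
        have hn : (0:ℝ) ≤ n := Nat.cast_nonneg n
        push_cast
        rw [div_sub_div _ _ (by positivity) (by positivity), div_le_div_iff₀ (by positivity) (by positivity)]
        nlinarith
      have h2 : ∑ m ∈ Finset.range (n + 1 + 1), wt m ≤ 7 / 4 - 1 / ((n:ℝ) + 2) := ih
      have h3 : wt (n + 1 + 1) = wt (n + 2) := rfl
      rw [h3]
      linarith
  rcases n with _ | _ | n
  · norm_num
  · simp [wt]; norm_num
  · have := key n
    have h2 : 0 ≤ 1 / ((n:ℝ) + 2) := by positivity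
    linarith

/-- `637 w_m ≤ 2560 (m+1) w_{m+1}`. -/
theorem wt_succ (m : ℕ) : 637 * wt m ≤ 2560 * ((m:ℝ) + 1) * wt (m + 1) := by
  unfold wt
  have hm : (0:ℝ) ≤ m := Nat.cast_nonneg m
  push_cast
  rw [mul_one_div, mul_one_div, div_le_div_iff₀ (by positivity) (by positivity)]
  have h1 : ((m:ℝ) + 1 + 1) ^ 2 ≤ 4 * ((m:ℝ) + 1) ^ 2 := by nlinarith
  have h2 : ((m:ℝ) + 1) ^ 2 ≤ ((m:ℝ) + 1) ^ 3 := by
    have : (1:ℝ) ≤ (m:ℝ) + 1 := by linarith
    calc ((m:ℝ) + 1) ^ 2 = ((m:ℝ) + 1) ^ 2 * 1 := by ring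
      _ ≤ ((m:ℝ) + 1) ^ 2 * ((m:ℝ) + 1) := by gcongr
      _ = _ := by ring
  have h3 : 2560 * ((m:ℝ) + 1) * ((m:ℝ) + 1) ^ 2 = 2560 * ((m:ℝ) + 1) ^ 3 := by ring
  rw [h3]
  nlinarith

/-- Cauchy product of the weights. -/
theorem wt_conv (m : ℕ) : ∑ j ∈ Finset.range (m + 1), wt j * wt (m - j) ≤ 7 * wt m := by
  have hm : (0:ℝ) ≤ m := Nat.cast_nonneg m
  have h1 : ∀ j ∈ Finset.range (m + 1),
      wt j * wt (m - j) ≤ (2 / ((m:ℝ) + 2) ^ 2) * (wt j + wt (m - j)) := by
    intro j hj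
    have hj' : j ≤ m := Nat.lt_succ_iff.1 (Finset.mem_range.1 hj)
    unfold wt
    rw [Nat.cast_sub hj']
    set a : ℝ := (j:ℝ) + 1 with ha
    set b : ℝ := ((m:ℝ) - j) + 1 with hb
    have hj0 : (0:ℝ) ≤ j := Nat.cast_nonneg j
    have hjm : (j:ℝ) ≤ m := by exact_mod_cast hj'
    have hap : 0 < a := by positivity
    have hbp : 0 < b := by rw [hb]; linarith
    have hab : (m:ℝ) + 2 = a + b := by rw [ha, hb]; ring
    rw [hab]
    have e1 : 1 / a ^ 2 * (1 / b ^ 2) = 1 / (a ^ 2 * b ^ 2) := by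
      field_simp
    have e2 : 2 / (a + b) ^ 2 * (1 / a ^ 2 + 1 / b ^ 2) =
        (2 * (a ^ 2 + b ^ 2)) / ((a + b) ^ 2 * (a ^ 2 * b ^ 2)) := by
      field_simp
      ring
    rw [e1, e2, div_le_div_iff₀ (by positivity) (by positivity)]
    have : (a + b) ^ 2 ≤ 2 * (a ^ 2 + b ^ 2) := by nlinarith [sq_nonneg (a - b)]
    have h5 : 0 ≤ a ^ 2 * b ^ 2 := by positivity
    nlinarith [mul_le_mul_of_nonneg_right this h5]
  have h2 : ∑ j ∈ Finset.range (m + 1), wt (m - j) = ∑ j ∈ Finset.range (m + 1), wt j := by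
    have := Finset.sum_range_reflect (fun j => wt j) (m + 1)
    simpa using this
  have h3 := sum_wt_le' (m + 1)
  calc ∑ j ∈ Finset.range (m + 1), wt j * wt (m - j)
      ≤ ∑ j ∈ Finset.range (m + 1), (2 / ((m:ℝ) + 2) ^ 2) * (wt j + wt (m - j)) :=
        Finset.sum_le_sum h1
    _ = (2 / ((m:ℝ) + 2) ^ 2) * (2 * ∑ j ∈ Finset.range (m + 1), wt j) := by
        rw [← Finset.mul_sum, Finset.sum_add_distrib, h2]; ring
    _ ≤ (2 / ((m:ℝ) + 2) ^ 2) * (2 * (7 / 4)) := by gcongr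
    _ = 7 / ((m:ℝ) + 2) ^ 2 := by ring
    _ ≤ 7 / ((m:ℝ) + 1) ^ 2 := by gcongr; norm_num
    _ = 7 * wt m := by unfold wt; ring

theorem dl_mul_anti (f g : ℝ → ℝ) (m : ℕ) : ∀ t : ℝ,
    dl m (fun s => f s * g s) t =
      ∑ ij ∈ Finset.HasAntidiagonal.antidiagonal m,
        (m.choose ij.1 : ℝ) * (dl ij.1 f t * dl ij.2 g (t + 2 * ij.1)) := by
  induction m with
  | zero => intro t; simp [dl_zero]
  | succ m ih =>
    intro t
    rw [dl_succ, ih, ih,
      Finset.sum_antidiagonal_choose_succ_mul (R := ℝ)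
        (fun i j => dl i f t * dl j g (t + 2 * i)) m,
      ← Finset.sum_sub_distrib, ← Finset.sum_add_distrib]
    apply Finset.sum_congr rfl
    rintro ⟨i, j⟩ hij
    have hs : i + j = m := Finset.HasAntidiagonal.mem_antidiagonal.1 hij
    have hc : m.choose j = m.choose i := by
      rw [← hs]; exact (Nat.choose_symm_add).symm
    simp only
    rw [hc, dl_succ i f t, dl_succ j g]
    have e : t + 2 + 2 * (i:ℝ) = t + 2 * ((i + 1 : ℕ) : ℝ) := by push_cast; ring
    have e' : t + 2 * (i:ℝ) + 2 = t + 2 * ((i + 1 : ℕ) : ℝ) := by push_cast; ring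
    rw [e, e']
    ring

/-- Leibniz rule for step 2 differences. -/
theorem dl_mul (f g : ℝ → ℝ) (m : ℕ) (t : ℝ) :
    dl m (fun s => f s * g s) t =
      ∑ j ∈ Finset.range (m + 1), (m.choose j : ℝ) * dl j f t * dl (m - j) g (t + 2 * j) := by
  rw [dl_mul_anti, Finset.Nat.sum_antidiagonal_eq_sum_range_succ
    (fun i j => (m.choose i : ℝ) * (dl i f t * dl j g (t + 2 * i)))]
  apply Finset.sum_congr rfl
  intro j _
  ring

theorem dl_mul_bound {f g : ℝ → ℝ} {t A B lam : ℝ} {n : ℕ} (hA : 0 ≤ A) (hB : 0 ≤ B)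
    (hl : 0 ≤ lam)
    (hf : ∀ j k : ℕ, j + k ≤ n → |dl j f (t + 2 * k)| ≤ j.factorial * wt j * lam ^ j * A)
    (hg : ∀ j k : ℕ, j + k ≤ n → |dl j g (t + 2 * k)| ≤ j.factorial * wt j * lam ^ j * B) :
    ∀ m k : ℕ, m + k ≤ n →
      |dl m (fun s => f s * g s) (t + 2 * k)| ≤ 7 * (m.factorial * wt m * lam ^ m * (A * B)) := by
  intro m k hmk
  rw [dl_mul]
  have h1 : ∀ j ∈ Finset.range (m + 1),
      |(m.choose j : ℝ) * dl j f (t + 2 * k) * dl (m - j) g (t + 2 * k + 2 * j)| ≤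
        (m.factorial * lam ^ m * (A * B)) * (wt j * wt (m - j)) := by
    intro j hj
    have hj' : j ≤ m := Nat.lt_succ_iff.1 (Finset.mem_range.1 hj)
    have hf' := hf j k (by omega)
    have hg' := hg (m - j) (k + j) (by omega)
    have e : t + 2 * ((k + j : ℕ) : ℝ) = t + 2 * k + 2 * j := by push_cast; ring
    rw [e] at hg'
    rw [abs_mul, abs_mul, abs_of_nonneg (by positivity : (0:ℝ) ≤ (m.choose j : ℝ))]
    have hfac : (m.choose j : ℝ) * j.factorial * (m - j).factorial = m.factorial := by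
      exact_mod_cast Nat.choose_mul_factorial_mul_factorial hj'
    have hpow : lam ^ j * lam ^ (m - j) = lam ^ m := by
      rw [← pow_add]; congr 1; omega
    calc (m.choose j : ℝ) * |dl j f (t + 2 * k)| * |dl (m - j) g (t + 2 * k + 2 * j)|
        ≤ (m.choose j : ℝ) * (j.factorial * wt j * lam ^ j * A) *
            ((m - j).factorial * wt (m - j) * lam ^ (m - j) * B) := by
          have := wt_pos j
          have := wt_pos (m - j)
          gcongr
      _ = ((m.choose j : ℝ) * j.factorial * (m - j).factorial) * (lam ^ j * lam ^ (m - j)) *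
            (A * B) * (wt j * wt (m - j)) := by ring
      _ = _ := by rw [hfac, hpow]
  have hnn : 0 ≤ (m.factorial * lam ^ m * (A * B)) := by positivity
  calc |∑ j ∈ Finset.range (m + 1), (m.choose j : ℝ) * dl j f (t + 2 * k) *
          dl (m - j) g (t + 2 * k + 2 * j)|
      ≤ ∑ j ∈ Finset.range (m + 1), |(m.choose j : ℝ) * dl j f (t + 2 * k) *
          dl (m - j) g (t + 2 * k + 2 * j)| := Finset.abs_sum_le_sum_abs _ _
    _ ≤ ∑ j ∈ Finset.range (m + 1), (m.factorial * lam ^ m * (A * B)) * (wt j * wt (m - j)) :=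
        Finset.sum_le_sum h1
    _ = (m.factorial * lam ^ m * (A * B)) * ∑ j ∈ Finset.range (m + 1), wt j * wt (m - j) := by
        rw [Finset.mul_sum]
    _ ≤ (m.factorial * lam ^ m * (A * B)) * (7 * wt m) := by
        exact mul_le_mul_of_nonneg_left (wt_conv m) hnn
    _ = _ := by ring

theorem dl_cube_bound {f : ℝ → ℝ} {t A lam : ℝ} {n : ℕ} (hA : 0 ≤ A) (hl : 0 ≤ lam)
    (hf : ∀ j k : ℕ, j + k ≤ n → |dl j f (t + 2 * k)| ≤ j.factorial * wt j * lam ^ j * A) :
    ∀ m k : ℕ, m + k ≤ n →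
      |dl m (fun s => f s ^ 3) (t + 2 * k)| ≤ 49 * (m.factorial * wt m * lam ^ m * A ^ 3) := by
  have h2 : ∀ j k : ℕ, j + k ≤ n → |dl j (fun s => f s * f s) (t + 2 * k)| ≤
      j.factorial * wt j * lam ^ j * (7 * (A * A)) := by
    intro j k hjk
    have := dl_mul_bound hA hA hl hf hf j k hjk
    linarith
  intro m k hmk
  have h3 := dl_mul_bound (f := fun s => f s * f s) (g := f) (by positivity) hA hl h2 hf m k hmk
  have e : (fun s => f s ^ 3) = fun s => (fun s => f s * f s) s * f s := by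
    funext s; ring
  rw [e]
  refine h3.trans (le_of_eq ?_)
  ring

end Pool.MP_1df64d_an
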