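import Pool.Agent.Lib_MP_1df64d_an.Energy
import Pool.Agent.Lib_MP_1df64d_an.Leib

/-! MP_1df64d_an, piece Bound: factorial bounds for the differences on a window. -/

open MeasureTheory Filter Topology Set

namespace Pool.MP_1df64d_an

variable {U Φ : ℝ → ℝ → ℝ}

/-- the inductive hypothesis for the difference number `j` -/
def HB (U : ℝ → ℝ → ℝ) (t M : ℝ) (n j : ℕ) : Prop :=
  ∀ s : ℝ, t ≤ s → s + 2 * j ≤ t + 2 * n + 2 → ∀ x,
    |del U j s x| ≤ j.factorial * wt j * (2560 * M ^ 2) ^ j * M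

theorem shift_bound {t M : ℝ} {n : ℕ} (hM : 0 < M)
    (m : ℕ) (H : ∀ j, 1 ≤ j → j ≤ m → HB U t M n j) (τ : ℝ) (h1 : t ≤ τ)
    (h2 : τ + 2 * m ≤ t + 2 * n + 2) (x : ℝ) (k : ℕ) (hk : k ≤ m) :
    |U (τ + 2 * k) x - U τ x| ≤ k * ((2560 * M ^ 2) * M) := by
  induction k with
  | zero => simp
  | succ k ih =>
    have ih' := ih (by omega)
    have hm1 : 1 ≤ m := by omega
    have hkm : ((k:ℝ) + 1) ≤ m := by exact_mod_cast hk
    have hk0 : (0:ℝ) ≤ k := Nat.cast_nonneg k
    have h3 := H 1 le_rfl hm1 (τ + 2 * k) (by linarith) (by push_cast; linarith) x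
    have h4 : del U 1 (τ + 2 * k) x = U (τ + 2 * ((k + 1 : ℕ) : ℝ)) x - U (τ + 2 * k) x := by
      have := del_succ U 0 (τ + 2 * k) x
      simp only [del_zero] at this
      have e : τ + 2 * (k:ℝ) + 2 = τ + 2 * ((k + 1 : ℕ) : ℝ) := by
        push_cast
        ring
      rw [e] at this
      exact this
    have h5 : ((1:ℕ).factorial : ℝ) * wt 1 * (2560 * M ^ 2) ^ 1 * M ≤ (2560 * M ^ 2) * M := by
      have := wt_le_one 1
      simp only [Nat.factorial_one, Nat.cast_one, one_mul, pow_one]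
      have h6 : 0 ≤ (2560 * M ^ 2) * M := by positivity
      nlinarith
    have h6 : U (τ + 2 * ((k + 1 : ℕ) : ℝ)) x - U τ x
        = (U (τ + 2 * k) x - U τ x) + del U 1 (τ + 2 * k) x := by
      rw [h4]
      ring
    rw [h6]
    have h7 := abs_add_le (U (τ + 2 * k) x - U τ x) (del U 1 (τ + 2 * k) x)
    push_cast
    linarith

theorem rho_aux {t M : ℝ} {n : ℕ} (hM : 0 < M) (hn : n * (2560 * M ^ 2) ≤ 1)
    (m : ℕ) (hm : m ≤ n) (H : ∀ j, 1 ≤ j → j ≤ m → HB U t M n j) (τ : ℝ) (h1 : t ≤ τ)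
    (h2 : τ + 2 * m ≤ t + 2 * n + 2) (x : ℝ) :
    |rho U m τ x| ≤ 49 * (m.factorial * wt m * (2560 * M ^ 2) ^ m * (|U τ x| + M) ^ 3) := by
  have hA : 0 ≤ |U τ x| + M := by positivity
  have key := dl_cube_bound (f := fun s => U s x) (t := τ) (A := |U τ x| + M)
    (lam := 2560 * M ^ 2) (n := m) hA (by positivity) (by
      intro j k hjk
      rcases Nat.eq_zero_or_pos j with hj | hj
      · subst hj
        have h3 := shift_bound hM m H τ h1 h2 x k (by omega)
        simp only [Nat.factorial_zero, Nat.cast_one, one_mul, pow_zero, wt_zero, dl_zero]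
        have hkn : (k:ℝ) ≤ n := by exact_mod_cast (by omega : k ≤ n)
        have h4 : (k:ℝ) * ((2560 * M ^ 2) * M) ≤ M := by
          have e1 : (k:ℝ) * ((2560 * M ^ 2) * M) ≤ n * ((2560 * M ^ 2) * M) :=
            mul_le_mul_of_nonneg_right hkn (by positivity)
          have e2 : n * ((2560 * M ^ 2) * M) = (n * (2560 * M ^ 2)) * M := by ring
          have e3 : (n * (2560 * M ^ 2)) * M ≤ 1 * M := mul_le_mul_of_nonneg_right hn hM.le
          linarith
        have h5 : U (τ + 2 * k) x = (U (τ + 2 * k) x - U τ x) + U τ x := by ring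
        rw [h5]
        have h6 := abs_add_le (U (τ + 2 * k) x - U τ x) (U τ x)
        linarith
      · have hjm : j ≤ m := by omega
        have hjk' : (j:ℝ) + k ≤ m := by exact_mod_cast hjk
        have hk0 : (0:ℝ) ≤ k := Nat.cast_nonneg k
        have h3 := H j hj hjm (τ + 2 * k) (by linarith) (by linarith) x
        have h4 : (j.factorial : ℝ) * wt j * (2560 * M ^ 2) ^ j * M
            ≤ j.factorial * wt j * (2560 * M ^ 2) ^ j * (|U τ x| + M) := by
          apply mul_le_mul_of_nonneg_left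
          · have := abs_nonneg (U τ x)
            linarith
          · have := wt_pos j
            positivity
        exact h3.trans h4) m 0 (by omega)
  simp only [Nat.cast_zero, mul_zero, add_zero] at key
  exact key

theorem J_aux (h : Chr U Φ) {t M : ℝ} {n : ℕ} (hM : 0 < M) (hn : n * (2560 * M ^ 2) ≤ 1)
    (hW : ∀ τ ∈ Icc t (t + 2 * n), N4 U τ ≤ M ^ 4)
    (m : ℕ) (hm : m ≤ n) (H : ∀ j, 1 ≤ j → j ≤ m → HB U t M n j) (s : ℝ) (h1 : t ≤ s)
    (h2 : s + 2 * m ≤ t + 2 * n) :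
    J U m s ≤ 637 * (m.factorial * wt m * (2560 * M ^ 2) ^ m * M ^ 3) := by
  have hm0 : (0:ℝ) ≤ m := Nat.cast_nonneg m
  have hs : s ∈ Icc t (t + 2 * n) := ⟨h1, by linarith⟩
  have hY := Y3_le h hM (hW s hs)
  set K : ℝ := 49 * (m.factorial * wt m * (2560 * M ^ 2) ^ m) with hK
  have hK0 : 0 ≤ K := by
    have := wt_pos m
    positivity
  have hcY : Continuous (Function.uncurry fun s x : ℝ => (|U s x| + M) ^ 3) := by
    exact ((h.contU.abs).add continuous_const).pow 3
  have hcY' : ∀ τ, Continuous (fun x : ℝ => (|U τ x| + M) ^ 3) := fun τ =>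
    ((U_cont_slice h τ).abs.add continuous_const).pow 3
  have h3 : J U m s ≤ ∫ τ in s..(s + 2), K * ∫ x in (0:ℝ)..1, (|U τ x| + M) ^ 3 := by
    apply intervalIntegral.integral_mono_on (by linarith)
    · exact (jj_continuous h m).intervalIntegrable _ _
    · exact ((par_cont hcY 0 1).const_mul K).intervalIntegrable _ _
    · intro τ hτ
      rw [← intervalIntegral.integral_const_mul]
      apply intervalIntegral.integral_mono_on zero_le_one
      · exact (rho_cont_slice h m τ).abs.intervalIntegrable _ _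
      · exact ((hcY' τ).const_mul K).intervalIntegrable _ _
      · intro x _
        have := rho_aux hM hn m hm H τ (by linarith [hτ.1]) (by linarith [hτ.2]) x
        rw [hK]
        calc _ ≤ _ := this
          _ = _ := by ring
  rw [intervalIntegral.integral_const_mul] at h3
  have h4 : K * (∫ τ in s..(s + 2), ∫ x in (0:ℝ)..1, (|U τ x| + M) ^ 3) ≤ K * (13 * M ^ 3) :=
    mul_le_mul_of_nonneg_left hY hK0
  calc J U m s ≤ _ := h3
    _ ≤ _ := h4
    _ = _ := by
      rw [hK]
      ring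

theorem HB_all (h : Chr U Φ) {t M : ℝ} {n : ℕ} (hM : 0 < M) (hn : n * (2560 * M ^ 2) ≤ 1)
    (hW : ∀ τ ∈ Icc t (t + 2 * n), N4 U τ ≤ M ^ 4) :
    ∀ i, 1 ≤ i → i ≤ n → HB U t M n i := by
  intro i
  induction i using Nat.strong_induction_on with
  | _ i ih =>
    intro hi hin s h1 h2 x
    obtain ⟨k, rfl⟩ : ∃ k, i = k + 1 := ⟨i - 1, by omega⟩
    have h3 := abs_delU_le h k s x
    have h4 := J_aux h hM hn hW k (by omega)
      (fun j hj hjk => ih j (by omega) hj (by omega)) s h1 (by push_cast at h2; linarith)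
    have h5 := wt_succ k
    have h6 : 637 * (k.factorial * wt k * (2560 * M ^ 2) ^ k * M ^ 3)
        ≤ (k + 1).factorial * wt (k + 1) * (2560 * M ^ 2) ^ (k + 1) * M := by
      have e1 : 637 * (k.factorial * wt k * (2560 * M ^ 2) ^ k * M ^ 3)
          = (637 * wt k) * (k.factorial * (2560 * M ^ 2) ^ k * M ^ 3) := by ring
      have e2 : ((k + 1).factorial : ℝ) * wt (k + 1) * (2560 * M ^ 2) ^ (k + 1) * M
          = (2560 * ((k:ℝ) + 1) * wt (k + 1)) * (k.factorial * (2560 * M ^ 2) ^ k * M ^ 3) := by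
        rw [Nat.factorial_succ, pow_succ]
        push_cast
        ring
      rw [e1, e2]
      exact mul_le_mul_of_nonneg_right h5 (by positivity)
    exact h3.trans (h4.trans h6)

/-- strong induction on `i`: for all `s ∈ [t, t + 2n - 2i + 2]`,
`|del U i s x| ≤ i! w_i lam^i M` with `lam = 2560 M^2`. -/
theorem window_bound (h : Chr U Φ) {t M : ℝ} {n : ℕ} (hM : 0 < M) (hn : n * (2560 * M ^ 2) ≤ 1)
    (hW : ∀ τ ∈ Icc t (t + 2 * n), N4 U τ ≤ M ^ 4) :
    (∀ i, 1 ≤ i → i ≤ n → ∀ x, |del U i t x| ≤ i.factorial * wt i * (2560 * M ^ 2) ^ i * M) ∧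
    (∀ m ≤ n, ∀ x, |rho U m t x| ≤
      49 * (m.factorial * wt m * (2560 * M ^ 2) ^ m * (|U t x| + M) ^ 3)) ∧
    (∀ m < n, J U m t ≤ 637 * (m.factorial * wt m * (2560 * M ^ 2) ^ m * M ^ 3)) := by
  have H := HB_all h hM hn hW
  refine ⟨?_, ?_, ?_⟩
  · intro i hi hin x
    have hin' : (i:ℝ) ≤ n := by exact_mod_cast hin
    exact H i hi hin t le_rfl (by linarith) x
  · intro m hm x
    have hmn : (m:ℝ) ≤ n := by exact_mod_cast hm
    exact rho_aux hM hn m hm (fun j hj hjm => H j hj (hjm.trans hm)) t le_rfl (by linarith) x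
  · intro m hm
    have hmn : (m:ℝ) ≤ n := by exact_mod_cast hm.le
    exact J_aux h hM hn hW m hm.le (fun j hj hjm => H j hj (hjm.trans hm.le)) t le_rfl
      (by linarith)

end Pool.MP_1df64d_an
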