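import Pool.Agent.Lib_MP_1df64d_an.Epoch

/-! MP_1df64d_an, piece Concl: the logarithmic lower bound. -/

open MeasureTheory Filter Topology Set

namespace Pool.MP_1df64d_an

theorem concl_cont_vv {U Φ : ℝ → ℝ → ℝ} (h : Chr U Φ) : Continuous (vv U) := by
  have h1 : Continuous (Function.uncurry fun t x : ℝ => U t x ^ 4) := by
    have : (Function.uncurry fun t x : ℝ => U t x ^ 4) = fun p : ℝ × ℝ => Function.uncurry U p ^ 4 := by
      ext p
      rfl
    rw [this]
    exact h.contU.pow 4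
  exact intervalIntegral.continuous_parametric_intervalIntegral_of_continuous' h1 0 1

theorem concl_vv_nonneg (U : ℝ → ℝ → ℝ) (t : ℝ) : 0 ≤ vv U t :=
  intervalIntegral.integral_nonneg zero_le_one fun x _ => by positivity

theorem concl_cont_N4 {U Φ : ℝ → ℝ → ℝ} (h : Chr U Φ) : Continuous (N4 U) := by
  have hv := concl_cont_vv h
  have h1 : Continuous fun t : ℝ => ∫ s in (0:ℝ)..t, vv U s :=
    intervalIntegral.continuous_primitive (fun a b => hv.intervalIntegrable a b) 0
  have h2 : N4 U = fun t => (∫ s in (0:ℝ)..(t + 2), vv U s) - ∫ s in (0:ℝ)..t, vv U s := by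
    funext t
    unfold N4
    rw [intervalIntegral.integral_interval_sub_left (hv.intervalIntegrable _ _)
      (hv.intervalIntegrable _ _)]
  rw [h2]
  exact (h1.comp (continuous_id.add continuous_const)).sub h1

theorem concl_per {U Φ : ℝ → ℝ → ℝ} (h : Chr U Φ) (t x : ℝ) (k : ℤ) :
    U t (x + 2 * k) = U t x := by
  have hp : Function.Periodic (U t) 2 := h.perU t
  have := hp.int_mul k x
  rwa [mul_comm] at this

theorem concl_pos {U Φ : ℝ → ℝ → ℝ} (h : Chr U Φ) (hne : ∃ t x, U t x ≠ 0) :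
    ∃ T, 0 < N4 U T := by
  obtain ⟨t, x, hx⟩ := hne
  refine ⟨t, ?_⟩
  have h1 : ∃ y ∈ Icc (0:ℝ) 1, U t y ≠ 0 := by
    set z : ℝ := x - 2 * round (x / 2) with hz
    have hUz : U t z = U t x := by
      have := concl_per h t x (-round (x / 2))
      rw [← this]
      congr 1
      rw [hz]
      push_cast
      ring
    have hzb : |z| ≤ 1 := by
      have := abs_sub_round (x / 2)
      have h2 : z = 2 * (x / 2 - round (x / 2)) := by rw [hz]; ring
      rw [h2, abs_mul, abs_two]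
      linarith
    rcases le_total 0 z with h0 | h0
    · exact ⟨z, ⟨h0, (le_abs_self z).trans hzb⟩, by rw [hUz]; exact hx⟩
    · refine ⟨-z, ⟨by linarith, (neg_le_abs z).trans hzb⟩, ?_⟩
      rw [h.odd, hUz]
      exact neg_ne_zero.mpr hx
  obtain ⟨y, hy, hUy⟩ := h1
  have hcU : Continuous fun x => U t x ^ 4 :=
    (h.contU.comp (Continuous.prodMk_right t)).pow 4
  have hvt : 0 < vv U t := by
    apply intervalIntegral.integral_pos zero_lt_one hcU.continuousOn
    · intro x _
      positivity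
    · exact ⟨y, hy, by positivity⟩
  apply intervalIntegral.integral_pos (by linarith) (concl_cont_vv h).continuousOn
  · intro x _
    exact concl_vv_nonneg U x
  · exact ⟨t, ⟨le_refl _, by linarith⟩, hvt⟩

theorem chr_lower : ∃ c : ℝ, 0 < c ∧ ∀ U Φ : ℝ → ℝ → ℝ, Chr U Φ →
    (∃ t x, U t x ≠ 0) → ∀ᶠ t in atTop, c / Real.log t ^ 2 ≤ N4 U t := by
  refine ⟨1 / 307200 ^ 2, by norm_num, fun U Φ h hne => ?_⟩
  obtain ⟨T, hT⟩ := concl_pos h hne
  have hN := concl_cont_N4 h
  have hlog : Tendsto Real.log atTop atTop := Real.tendsto_log_atTop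
  have e1 : ∀ᶠ t in atTop, T ≤ t := eventually_ge_atTop T
  have e2 : ∀ᶠ t : ℝ in atTop, 1 / 38400 ^ 2 / Real.log t ^ 2 / 16 < N4 U T := by
    have h1 : Tendsto (fun t : ℝ => Real.log t ^ 2) atTop atTop :=
      (tendsto_pow_atTop two_ne_zero).comp hlog
    have h2 : Tendsto (fun t : ℝ => 1 / 38400 ^ 2 / Real.log t ^ 2 / 16) atTop (𝓝 0) := by
      have := (tendsto_const_nhds (x := (1 / 38400 ^ 2 : ℝ))).div_atTop h1
      simpa using this.div_const 16
    exact h2.eventually_lt_const hT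
  have e3 : ∀ᶠ t : ℝ in atTop, 10 ^ 10 ≤ Real.log t := hlog.eventually_ge_atTop _
  have e4 : ∀ᶠ t : ℝ in atTop, (10 ^ 4 : ℝ) ≤ t := eventually_ge_atTop _
  have e5 : ∀ᶠ t : ℝ in atTop, |T| ≤ t := eventually_ge_atTop _
  filter_upwards [e1, e2, e3, e4, e5] with t h1 h2 h3 h4 h5
  by_contra hcon
  push Not at hcon
  have hlog0 : 0 < Real.log t := by linarith [show (0:ℝ) < 10 ^ 10 by norm_num]
  set M : ℝ := Real.sqrt (1 / (38400 * Real.log t)) with hM
  have hM2 : M ^ 2 = 1 / (38400 * Real.log t) := Real.sq_sqrt (by positivity)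
  have hM0 : 0 < M := Real.sqrt_pos.mpr (by positivity)
  have hM4 : M ^ 4 = 1 / 38400 ^ 2 / Real.log t ^ 2 := by
    have : M ^ 4 = (M ^ 2) ^ 2 := by ring
    rw [this, hM2, div_pow, mul_pow]
    field_simp
  set n : ℕ := ⌊3 * Real.log t⌋₊ with hn
  have hn1 : (n : ℝ) ≤ 3 * Real.log t := Nat.floor_le (by positivity)
  have hn2 : 3 * Real.log t < n + 1 := Nat.lt_floor_add_one _
  have hn12 : 12 ≤ n := by
    have : (12 : ℝ) < n + 1 := by
      have : (12 : ℝ) < 3 * 10 ^ 10 := by norm_num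
      linarith
    have h6 : ((12 : ℕ) : ℝ) < ((n + 1 : ℕ) : ℝ) := by push_cast; exact this
    have h7 : 12 < n + 1 := Nat.cast_lt.mp h6
    omega
  -- the intermediate value
  have hlt : N4 U t < M ^ 4 / 16 := by
    rw [hM4]
    refine hcon.trans_le ?_
    rw [div_div, div_div, div_div]
    apply one_div_le_one_div_of_le (by positivity)
    nlinarith [sq_nonneg (Real.log t)]
  have hgt : M ^ 4 / 16 < N4 U T := by rw [hM4]; exact h2
  obtain ⟨t₀, ht₀, hN0⟩ : ∃ t₀ ∈ Icc T t, N4 U t₀ = M ^ 4 / 16 := by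
    have := intermediate_value_Icc' h1 hN.continuousOn
    exact this ⟨hlt.le, hgt.le⟩
  have hM10 : M ^ 2 ≤ 1 / 10 ^ 10 := by
    rw [hM2]
    apply one_div_le_one_div_of_le (by positivity)
    linarith
  have hn5 : 5 * n * (2560 * M ^ 2) ≤ 1 := by
    rw [hM2]
    have : 5 * (n : ℝ) * (2560 * (1 / (38400 * Real.log t))) = n / (3 * Real.log t) := by
      field_simp
      ring
    rw [this, div_le_one (by positivity)]
    exact hn1
  have hpow : t ^ 3 / 3 ≤ (3 : ℝ) ^ n := by
    have h6 : t ^ 3 ≤ (3 : ℝ) ^ (n + 1) := by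
      have ht0 : 0 < t := by linarith [show (0:ℝ) < 10 ^ 4 by norm_num]
      calc t ^ 3 = Real.exp (3 * Real.log t) := by
            rw [mul_comm, Real.exp_mul, Real.exp_log ht0]
            norm_num
        _ ≤ Real.exp (n + 1 : ℕ) := by
            apply Real.exp_le_exp.mpr
            push_cast
            exact hn2.le
        _ = Real.exp 1 ^ (n + 1) := by rw [← Real.exp_nat_mul, mul_one]
        _ ≤ 3 ^ (n + 1) := pow_le_pow_left₀ (Real.exp_pos _).le Real.exp_one_lt_three.le _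
    have h7 : (3 : ℝ) ^ (n + 1) = 3 ^ n * 3 := pow_succ _ _
    rw [h7] at h6
    linarith
  have hL : t + 2 * n ≤ t₀ + 3 ^ n / 10 ^ 6 := by
    have ht0 : 0 < t := by linarith [show (0:ℝ) < 10 ^ 4 by norm_num]
    have h7 : Real.log t ≤ t := (Real.log_le_sub_one_of_pos ht0).trans (by linarith)
    have h8 : -t ≤ t₀ := by
      have := neg_abs_le T
      linarith [ht₀.1]
    have h9 : 8 * t ≤ t ^ 3 / 3 / 10 ^ 6 := by
      rw [div_div, le_div_iff₀ (by positivity)]
      nlinarith [mul_le_mul h4 h4 (by positivity) ht0.le]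
    have h10 : t ^ 3 / 3 / 10 ^ 6 ≤ 3 ^ n / 10 ^ 6 := by gcongr
    linarith
  have hfin := epoch_lower h hn12 hM0 hM10 hn5 hN0 (le_refl _) t ht₀.2 hL
  have h11 : (1 : ℝ) / 307200 ^ 2 / Real.log t ^ 2 = M ^ 4 / 64 := by
    rw [hM4]
    field_simp
    norm_num
  rw [h11] at hcon
  have : 0 < M ^ 4 := by positivity
  linarith

end Pool.MP_1df64d_an
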