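import Pool.Agent.Lib_MP_1df64d_an.Defs

/-! MP_1df64d_an, piece Dbr: du Bois-Reymond lemmas. -/

open MeasureTheory Filter Topology Set

namespace Pool.MP_1df64d_an

/-- fundamental lemma on an interval. -/
theorem fund_lemma {a b : ℝ} {f : ℝ → ℝ} (hf : IntegrableOn f (Ioc a b))
    (h : ∀ X : ℝ → ℝ, ContDiff ℝ ((⊤ : ℕ∞) : WithTop ℕ∞) X → HasCompactSupport X →
      tsupport X ⊆ Ioo a b → ∫ x in a..b, f x * X x = 0) :
    ∀ᵐ x ∂(volume.restrict (Ioc a b)), f x = 0 := by
  have h1 : LocallyIntegrableOn f (Ioo a b) volume :=
    (hf.mono_set Ioo_subset_Ioc_self).locallyIntegrableOn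
  have h2 := isOpen_Ioo.ae_eq_zero_of_integral_contDiff_smul_eq_zero (μ := volume) h1 (by
    intro X hX hXc hXs
    have h3 := h X hX hXc hXs
    rw [intervalIntegral.integral_eq_integral_of_support_subset] at h3
    · rw [← h3]
      refine integral_congr_ae (Eventually.of_forall fun x => ?_)
      simp only [smul_eq_mul]
      ring
    · intro x hx
      have : x ∈ tsupport X := by
        apply subset_tsupport
        intro h0
        exact hx (by simp [h0])
      exact Ioo_subset_Ioc_self (hXs this))
  rw [← restrict_Ioo_eq_restrict_Ioc, ae_restrict_iff' measurableSet_Ioo]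
  exact h2

/-- du Bois-Reymond: if `∫ f X' = 0` for all test functions then `f` is constant a.e.
Proof: fix a bump `ρ` with integral 1; for a test function `g` the function
`X x = ∫_a^x (g - (∫ g) ρ)` is a test function, so `∫ (f - c) g = 0` with `c = ∫ f ρ`;
use `IsOpen.ae_eq_zero_of_integral_contDiff_smul_eq_zero`. -/
theorem dbr {a b : ℝ} (hab : a < b) {f : ℝ → ℝ} (hf : IntegrableOn f (Ioc a b))
    (h : ∀ X : ℝ → ℝ, ContDiff ℝ ((⊤ : ℕ∞) : WithTop ℕ∞) X → HasCompactSupport X →
      tsupport X ⊆ Ioo a b → ∫ x in a..b, f x * deriv X x = 0) :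
    ∃ c : ℝ, ∀ᵐ x ∂(volume.restrict (Ioc a b)), f x = c := by
  -- the bump function
  let B : ContDiffBump ((a + b) / 2) :=
    { rIn := (b - a) / 8
      rOut := (b - a) / 4
      rIn_pos := by linarith
      rIn_lt_rOut := by linarith }
  set ρ : ℝ → ℝ := B.normed volume with hρ
  have hρs : ContDiff ℝ ((⊤ : ℕ∞) : WithTop ℕ∞) ρ := B.contDiff_normed
  have hρc : HasCompactSupport ρ := B.hasCompactSupport_normed
  have hρt : tsupport ρ = Icc ((a + b) / 2 - (b - a) / 4) ((a + b) / 2 + (b - a) / 4) := by
    rw [hρ, B.tsupport_normed_eq, Real.closedBall_eq_Icc]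
  have hρI : ∫ x, ρ x = 1 := B.integral_normed
  have hρab : tsupport ρ ⊆ Ioo a b := by
    rw [hρt]
    intro x hx
    constructor
    · linarith [hx.1]
    · linarith [hx.2]
  have hii : IntervalIntegrable f volume a b :=
    (intervalIntegrable_iff_integrableOn_Ioc_of_le hab.le).mpr hf
  set c : ℝ := ∫ x in a..b, f x * ρ x with hc
  refine ⟨c, ?_⟩
  have hkey : ∀ᵐ x ∂(volume.restrict (Ioc a b)), f x - c = 0 := by
    apply fund_lemma (f := fun x => f x - c)
    · exact hf.sub (integrableOn_const (by simp))
    intro g hg hgc hgt
    -- primitive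
    set I : ℝ := ∫ x, g x with hI
    set q : ℝ → ℝ := fun x => g x - I * ρ x with hq
    have hqs : ContDiff ℝ ((⊤ : ℕ∞) : WithTop ℕ∞) q := hg.sub (contDiff_const.mul hρs)
    have hqc : Continuous q := hqs.continuous
    set X : ℝ → ℝ := fun x => ∫ y in a..x, q y with hX
    have hXd : ∀ x, HasDerivAt X (q x) x := fun x =>
      intervalIntegral.integral_hasDerivAt_right (hqc.intervalIntegrable _ _)
        (hqc.stronglyMeasurableAtFilter _ _) hqc.continuousAt
    have hXderiv : deriv X = q := funext fun x => (hXd x).deriv
    have hXs : ContDiff ℝ ((⊤ : ℕ∞) : WithTop ℕ∞) X := by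
      rw [contDiff_infty_iff_deriv]
      exact ⟨fun x => (hXd x).differentiableAt, hXderiv ▸ hqs⟩
    -- the supports
    have hKc : IsCompact (tsupport g ∪ tsupport ρ) := hgc.isCompact.union hρc.isCompact
    have hKn : (tsupport g ∪ tsupport ρ).Nonempty := by
      refine ⟨(a + b) / 2, Or.inr ?_⟩
      rw [hρt]
      constructor <;> linarith
    have hKs : tsupport g ∪ tsupport ρ ⊆ Ioo a b := union_subset hgt hρab
    obtain ⟨α, hαK, hα⟩ := hKc.exists_isLeast hKn
    obtain ⟨β, hβK, hβ⟩ := hKc.exists_isGreatest hKn
    have hq0 : ∀ x, x ∉ Icc α β → q x = 0 := by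
      intro x hx
      have h1 : x ∉ tsupport g := fun hxg => hx ⟨hα (Or.inl hxg), hβ (Or.inl hxg)⟩
      have h2 : x ∉ tsupport ρ := fun hxg => hx ⟨hα (Or.inr hxg), hβ (Or.inr hxg)⟩
      have h1' : g x = 0 := image_eq_zero_of_notMem_tsupport h1
      have h2' : ρ x = 0 := image_eq_zero_of_notMem_tsupport h2
      simp [hq, h1', h2']
    have haα : a < α := (hKs hαK).1
    have hβb : β < b := (hKs hβK).2
    have hαβ : α ≤ β := hα hβK
    have hgi : Integrable g := hg.continuous.integrable_of_hasCompactSupport hgc
    have hρi : Integrable ρ := hρs.continuous.integrable_of_hasCompactSupport hρc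
    have hqint : ∫ x, q x = 0 := by
      rw [hq, integral_sub hgi (hρi.const_mul I), integral_const_mul, hρI, ← hI]
      ring
    have hX0 : ∀ x, x < α → X x = 0 := by
      intro x hx
      rw [hX]
      simp only
      apply intervalIntegral.integral_zero_ae
      refine Eventually.of_forall fun y hy => hq0 y ?_
      intro hy'
      rcases le_total a x with h1 | h1
      · rw [uIoc_of_le h1] at hy
        linarith [hy.2, hy'.1]
      · rw [uIoc_of_ge h1] at hy
        linarith [hy.2, hy'.1]
    have hX1 : ∀ x, β < x → X x = 0 := by
      intro x hx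
      have h1 : X x = ∫ y, q y := by
        rw [hX]
        simp only
        apply intervalIntegral.integral_eq_integral_of_support_subset
        intro y hy
        have hy' : y ∈ Icc α β := by
          by_contra hcon
          exact hy (hq0 y hcon)
        exact ⟨by linarith [hy'.1], by linarith [hy'.2]⟩
      rw [h1, hqint]
    have hsupp : Function.support X ⊆ Icc α β := by
      intro x hx
      constructor
      · by_contra hcon
        exact hx (hX0 x (not_le.mp hcon))
      · by_contra hcon
        exact hx (hX1 x (not_le.mp hcon))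
    have htsupp : tsupport X ⊆ Icc α β := closure_minimal hsupp isClosed_Icc
    have hXc : HasCompactSupport X := HasCompactSupport.of_support_subset_isCompact
      isCompact_Icc hsupp
    have hmain := h X hXs hXc (htsupp.trans (fun x hx => ⟨by linarith [hx.1], by linarith [hx.2]⟩))
    rw [hXderiv] at hmain
    have hIab : ∫ x in a..b, g x = I := by
      rw [hI]
      apply intervalIntegral.integral_eq_integral_of_support_subset
      intro x hx
      exact Ioo_subset_Ioc_self (hgt (subset_tsupport _ hx))
    have e1 : IntervalIntegrable (fun x => f x * g x) volume a b :=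
      hii.mul_continuousOn hg.continuous.continuousOn
    have e2 : IntervalIntegrable (fun x => f x * ρ x) volume a b :=
      hii.mul_continuousOn hρs.continuous.continuousOn
    have e3 : ∫ x in a..b, f x * q x = (∫ x in a..b, f x * g x) - I * c := by
      rw [hc, ← intervalIntegral.integral_const_mul, ← intervalIntegral.integral_sub e1
        (e2.const_mul I)]
      refine intervalIntegral.integral_congr fun x _ => ?_
      simp only [hq]
      ring
    have e4 : ∫ x in a..b, (f x - c) * g x = (∫ x in a..b, f x * g x) - c * I := by
      rw [← hIab, ← intervalIntegral.integral_const_mul, ← intervalIntegral.integral_sub e1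
        ((hg.continuous.intervalIntegrable _ _).const_mul c)]
      refine intervalIntegral.integral_congr fun x _ => ?_
      ring
    rw [e4]
    rw [e3] at hmain
    linarith
  filter_upwards [hkey] with x hx
  linarith

/-- time version. Proof: apply `dbr` to `f t - ∫_0^t g` on big intervals (or directly). -/
theorem dbr_time {f g : ℝ → ℝ} (hf : Continuous f) (hg : Continuous g)
    (h : ∀ T : ℝ → ℝ, ContDiff ℝ ((⊤ : ℕ∞) : WithTop ℕ∞) T → HasCompactSupport T →
      ∫ t, (f t * deriv T t + g t * T t) = 0) (s t : ℝ) :
    f t - f s = ∫ τ in s..t, g τ := by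
  set G : ℝ → ℝ := fun t => ∫ τ in (0:ℝ)..t, g τ with hG
  have hGd : ∀ x, HasDerivAt G (g x) x := fun x =>
    intervalIntegral.integral_hasDerivAt_right (hg.intervalIntegrable _ _)
      (hg.stronglyMeasurableAtFilter _ _) hg.continuousAt
  have hGc : Continuous G := continuous_iff_continuousAt.mpr fun x => (hGd x).continuousAt
  set N : ℝ := max |s| |t| + 1 with hN
  have hNpos : 0 < N := by
    have := abs_nonneg s
    have := le_max_left |s| |t|
    linarith
  have hsN : s ∈ Ioo (-N) N := by
    have := abs_le.mp (le_max_left |s| |t|)
    constructor <;> linarith [this.1, this.2]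
  have htN : t ∈ Ioo (-N) N := by
    have := abs_le.mp (le_max_right |s| |t|)
    constructor <;> linarith [this.1, this.2]
  have hF : Continuous (fun x => f x - G x) := hf.sub hGc
  obtain ⟨c, hc⟩ := dbr (a := -N) (b := N) (by linarith) (f := fun x => f x - G x)
    (hF.integrableOn_Ioc) (by
      intro X hX hXc hXt
      have hXcont : Continuous X := hX.continuous
      have hX1 : ContDiff ℝ 1 X := hX.of_le (by exact_mod_cast le_top)
      have hXd : Continuous (deriv X) := hX1.continuous_deriv le_rfl
      have hXdiff : ∀ x, HasDerivAt X (deriv X x) x := fun x =>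
        (hX1.differentiable (by norm_num) x).hasDerivAt
      have hends : X (-N) = 0 ∧ X N = 0 := by
        constructor
        · apply image_eq_zero_of_notMem_tsupport
          intro hcon
          exact lt_irrefl _ (hXt hcon).1
        · apply image_eq_zero_of_notMem_tsupport
          intro hcon
          exact lt_irrefl _ (hXt hcon).2
      -- integration by parts
      have hparts : ∫ x in (-N)..N, G x * deriv X x = -∫ x in (-N)..N, g x * X x := by
        rw [intervalIntegral.integral_mul_deriv_eq_deriv_mul (u := G) (v := X) (u' := g)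
          (v' := deriv X) (fun x _ => hGd x) (fun x _ => hXdiff x)
          (hg.intervalIntegrable _ _) (hXd.intervalIntegrable _ _), hends.1, hends.2]
        ring
      have hfull : ∫ x in (-N)..N, (f x * deriv X x + g x * X x) = 0 := by
        rw [← h X hX hXc]
        apply intervalIntegral.integral_eq_integral_of_support_subset
        intro x hx
        have hx' : x ∈ tsupport X := by
          by_contra hcon
          apply hx
          have h1 : X x = 0 := image_eq_zero_of_notMem_tsupport hcon
          have h2 : deriv X x = 0 := by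
            have h3 : x ∉ tsupport (deriv X) := fun h' => hcon (tsupport_deriv_subset h')
            exact image_eq_zero_of_notMem_tsupport h3
          simp [h1, h2]
        exact Ioo_subset_Ioc_self (hXt hx')
      have i1 : IntervalIntegrable (fun x => f x * deriv X x) volume (-N) N :=
        (hf.mul hXd).intervalIntegrable _ _
      have i2 : IntervalIntegrable (fun x => g x * X x) volume (-N) N :=
        (hg.mul hXcont).intervalIntegrable _ _
      have i3 : IntervalIntegrable (fun x => G x * deriv X x) volume (-N) N :=
        (hGc.mul hXd).intervalIntegrable _ _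
      rw [intervalIntegral.integral_add i1 i2] at hfull
      have : ∫ x in (-N)..N, (f x - G x) * deriv X x
          = (∫ x in (-N)..N, f x * deriv X x) - ∫ x in (-N)..N, G x * deriv X x := by
        rw [← intervalIntegral.integral_sub i1 i3]
        refine intervalIntegral.integral_congr fun x _ => ?_
        ring
      rw [this, hparts]
      linarith)
  have heq : EqOn (fun x => f x - G x) (fun _ => c) (Ioo (-N) N) := by
    apply MeasureTheory.Measure.eqOn_Ioo_of_ae_eq (μ := volume)
    · rw [← restrict_Ioo_eq_restrict_Ioc] at hc
      exact hc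
    · exact hF.continuousOn
    · exact continuousOn_const
  have h1 := heq hsN
  have h2 := heq htN
  simp only at h1 h2
  have h3 : ∫ τ in s..t, g τ = G t - G s := by
    rw [hG]
    simp only
    rw [eq_sub_iff_add_eq, add_comm, intervalIntegral.integral_add_adjacent_intervals
      (hg.intervalIntegrable _ _) (hg.intervalIntegrable _ _)]
  rw [h3]
  linarith

end Pool.MP_1df64d_an
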