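import Mathlib

/-!
MP_1df64d_an: definitions for the adiabatic invariant argument (cubic string).
-/

open MeasureTheory Filter Topology Set

namespace Pool.MP_1df64d_an

/-- Characteristic form of the cubic string equation for the odd 2-periodic extension `U`
and the potential `Φ` (constant along characteristics up to the nonlinear term). -/
structure Chr (U Φ : ℝ → ℝ → ℝ) : Prop where
  contU : Continuous (Function.uncurry U)
  contP : Continuous (Function.uncurry Φ)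
  odd : ∀ t x, U t (-x) = -U t x
  perU : ∀ t x, U t (x + 2) = U t x
  perP : ∀ t y, Φ t (y + 2) = Φ t y
  rel : ∀ t x, U t x = (Φ t (t + x) - Φ t (t - x)) / 2
  evol : ∀ s t y, Φ t y - Φ s y = -∫ τ in s..t, ∫ x in (0:ℝ)..(y - τ), U τ x ^ 3

/-- Iterated difference with step 2. -/
noncomputable def dl (i : ℕ) (f : ℝ → ℝ) : ℝ → ℝ := (fwdDiff (2:ℝ))^[i] f

/-- `i`-th difference in time of a function of time and space. -/
noncomputable def del (F : ℝ → ℝ → ℝ) (i : ℕ) (t x : ℝ) : ℝ := dl i (fun τ => F τ x) t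

/-- `i`-th difference in time of the cube. -/
noncomputable def rho (U : ℝ → ℝ → ℝ) (i : ℕ) (t x : ℝ) : ℝ := del (fun τ z => U τ z ^ 3) i t x

/-- space integral of the fourth power. -/
noncomputable def vv (U : ℝ → ℝ → ℝ) (t : ℝ) : ℝ := ∫ x in (0:ℝ)..1, U t x ^ 4

/-- space-time integral of the fourth power over a time window of length 2. -/
noncomputable def N4 (U : ℝ → ℝ → ℝ) (t : ℝ) : ℝ := ∫ s in t..(t + 2), vv U s

/-- space-time integral of the modulus of the `i`-th difference of the cube. -/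
noncomputable def J (U : ℝ → ℝ → ℝ) (i : ℕ) (t : ℝ) : ℝ :=
  ∫ s in t..(t + 2), ∫ x in (0:ℝ)..1, |rho U i s x|

/-- derivative in `y` of the (m+1)-st difference of the potential. -/
noncomputable def QQ (U : ℝ → ℝ → ℝ) (m : ℕ) (t y : ℝ) : ℝ :=
  -∫ s in t..(t + 2), rho U m s (y - s)

/-- the antisymmetric form of the differences number `i` and `m + 1` of the potential. -/
noncomputable def Om (U Φ : ℝ → ℝ → ℝ) (i m : ℕ) (t : ℝ) : ℝ :=
  (1 / 2) * ∫ y in (0:ℝ)..2, del Φ i t y * QQ U m t y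

/-- Newton basis polynomials (binomial coefficients `r choose m`). -/
noncomputable def bb : ℕ → ℝ → ℝ
  | 0, _ => 1
  | (m + 1), r => bb m r * (r - m) / (m + 1)

/-- their derivatives. -/
noncomputable def db : ℕ → ℝ → ℝ
  | 0, _ => 0
  | (m + 1), r => (db m r * (r - m) + bb m r) / (m + 1)

/-- the coefficients. -/
noncomputable def beta (i m : ℕ) : ℝ := ∫ r in (0:ℝ)..1, bb i r * db m r

/-- weights. -/
noncomputable def wt (i : ℕ) : ℝ := 1 / ((i:ℝ) + 1) ^ 2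

/-- the adiabatic invariant of order `n`. -/
noncomputable def KK (U Φ : ℝ → ℝ → ℝ) (n : ℕ) (t : ℝ) : ℝ :=
  -(1 / 4) * N4 U t - (1 / 2) * Om U Φ 0 0 t
    - (1 / 2) * ∑ i ∈ Finset.range n, ∑ m ∈ Finset.range n,
        beta (i + 1) (m + 1) * Om U Φ (i + 1) m t

/-- interpolating polynomial of `U (t + 2 r) x`. -/
noncomputable def cc (U : ℝ → ℝ → ℝ) (n : ℕ) (t x r : ℝ) : ℝ :=
  ∑ m ∈ Finset.range (n + 1), bb m r * del U m t x

/-- its derivative in `r`. -/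
noncomputable def cd (U : ℝ → ℝ → ℝ) (n : ℕ) (t x r : ℝ) : ℝ :=
  ∑ m ∈ Finset.range (n + 1), db m r * del U m t x

/-- interpolating polynomial of the cube. -/
noncomputable def AA (U : ℝ → ℝ → ℝ) (n : ℕ) (t x r : ℝ) : ℝ :=
  ∑ m ∈ Finset.range (n + 1), bb m r * rho U m t x

/-- the derivative of the invariant. -/
noncomputable def KD (U : ℝ → ℝ → ℝ) (n : ℕ) (t : ℝ) : ℝ :=
  ∫ x in (0:ℝ)..1, ∫ r in (0:ℝ)..1, (cc U n t x r ^ 3 - AA U n t x r) * cd U n t x r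

theorem dl_zero (f : ℝ → ℝ) : dl 0 f = f := rfl

theorem dl_succ (i : ℕ) (f : ℝ → ℝ) (t : ℝ) : dl (i + 1) f t = dl i f (t + 2) - dl i f t := by
  simp only [dl, Function.iterate_succ_apply', fwdDiff]

theorem del_zero (F : ℝ → ℝ → ℝ) (t x : ℝ) : del F 0 t x = F t x := rfl

theorem del_succ (F : ℝ → ℝ → ℝ) (i : ℕ) (t x : ℝ) :
    del F (i + 1) t x = del F i (t + 2) x - del F i t x := dl_succ _ _ _

theorem rho_zero (U : ℝ → ℝ → ℝ) (t x : ℝ) : rho U 0 t x = U t x ^ 3 := rfl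

theorem rho_succ (U : ℝ → ℝ → ℝ) (i : ℕ) (t x : ℝ) :
    rho U (i + 1) t x = rho U i (t + 2) x - rho U i t x := dl_succ _ _ _

/-- Finite-energy weak solution of `u_tt - u_xx + u^3 = 0` on `(0,1)`, exactly as in the frozen
statement: `ux` and `v` are the space and the time derivative. -/
structure IsSol (u ux v : ℝ → ℝ → ℝ) : Prop where
  mux : Measurable (Function.uncurry ux)
  mv : Measurable (Function.uncurry v)
  lux : ∀ t, MemLp (ux t) 2 (volume.restrict (Set.Ioc (0:ℝ) 1))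
  lv : ∀ t, MemLp (v t) 2 (volume.restrict (Set.Ioc (0:ℝ) 1))
  cont : ∀ t₀ : ℝ, Tendsto
    (fun t => ∫ x in (0:ℝ)..1, ((ux t x - ux t₀ x) ^ 2 + (v t x - v t₀ x) ^ 2)) (𝓝 t₀) (𝓝 0)
  prim : ∀ t x : ℝ, x ∈ Set.Icc (0:ℝ) 1 → u t x = ∫ y in (0:ℝ)..x, ux t y
  bd : ∀ t : ℝ, u t 1 = 0
  weak : ∀ φ : ℝ × ℝ → ℝ, ContDiff ℝ ((⊤ : ℕ∞) : WithTop ℕ∞) φ → HasCompactSupport φ →
    tsupport φ ⊆ (Set.univ : Set ℝ) ×ˢ Set.Ioo (0:ℝ) 1 →
    (∫ t, ∫ x in (0:ℝ)..1, (u t x * fderiv ℝ φ (t, x) (1, 0) + v t x * φ (t, x))) = 0 ∧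
    (∫ t, ∫ x in (0:ℝ)..1,
        (-(v t x * fderiv ℝ φ (t, x) (1, 0)) + ux t x * fderiv ℝ φ (t, x) (0, 1)
          + u t x ^ 3 * φ (t, x))) = 0

end Pool.MP_1df64d_an
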