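import Pool.Agent.Lib_MP_1df64d_an.Defs

/-! MP_1df64d_an, piece Diff: the difference formulas and basic bounds. -/

open MeasureTheory Filter Topology Set

namespace Pool.MP_1df64d_an

variable {U Φ : ℝ → ℝ → ℝ}

theorem del_continuous {F : ℝ → ℝ → ℝ} (hF : Continuous (Function.uncurry F)) (i : ℕ) :
    Continuous (Function.uncurry (del F i)) := by
  induction i with
  | zero => exact hF
  | succ i ih =>
    have h1 : Continuous (fun p : ℝ × ℝ => Function.uncurry (del F i) (p.1 + 2, p.2)) :=
      ih.comp (by fun_prop)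
    have h2 : Function.uncurry (del F (i + 1)) = fun p : ℝ × ℝ =>
        Function.uncurry (del F i) (p.1 + 2, p.2) - Function.uncurry (del F i) p := by
      funext p
      simp [Function.uncurry, del_succ]
    rw [h2]
    exact h1.sub ih

theorem rho_continuous (h : Chr U Φ) (i : ℕ) : Continuous (Function.uncurry (rho U i)) := by
  have h1 : Continuous (Function.uncurry (fun τ z : ℝ => U τ z ^ 3)) := by
    have := h.contU.pow 3
    exact this
  exact del_continuous h1 i

theorem rho_odd (h : Chr U Φ) (i : ℕ) (t x : ℝ) : rho U i t (-x) = -rho U i t x := by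
  induction i generalizing t with
  | zero => simp only [rho_zero, h.odd]; ring
  | succ i ih => rw [rho_succ, rho_succ, ih, ih]; ring

theorem rho_per (h : Chr U Φ) (i : ℕ) (t x : ℝ) : rho U i t (x + 2) = rho U i t x := by
  induction i generalizing t with
  | zero => simp only [rho_zero, h.perU]
  | succ i ih => rw [rho_succ, rho_succ, ih, ih]

theorem del_odd (h : Chr U Φ) (i : ℕ) (t x : ℝ) : del U i t (-x) = -del U i t x := by
  induction i generalizing t with
  | zero => simp only [del_zero, h.odd]
  | succ i ih => rw [del_succ, del_succ, ih, ih]; ring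

theorem del_perP (h : Chr U Φ) (i : ℕ) (t y : ℝ) : del Φ i t (y + 2) = del Φ i t y := by
  induction i generalizing t with
  | zero => simp only [del_zero, h.perP]
  | succ i ih => rw [del_succ, del_succ, ih, ih]

theorem del_rel (h : Chr U Φ) (i : ℕ) (t x : ℝ) :
    del U i t x = (del Φ i t (t + x) - del Φ i t (t - x)) / 2 := by
  induction i generalizing t with
  | zero => simp only [del_zero, h.rel]
  | succ i ih =>
    rw [del_succ, del_succ, del_succ, ih, ih]
    have e1 : t + 2 + x = (t + x) + 2 := by ring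
    have e2 : t + 2 - x = (t - x) + 2 := by ring
    rw [e1, e2, del_perP h, del_perP h]
    ring

/-- continuity of a slice -/
theorem rho_cont_slice (h : Chr U Φ) (i : ℕ) (t : ℝ) : Continuous (rho U i t) :=
  (rho_continuous h i).comp (by fun_prop : Continuous fun x : ℝ => (t, x))

/-- zero mean over a period -/
theorem rho_mean (h : Chr U Φ) (i : ℕ) (t a : ℝ) : ∫ z in a..(a + 2), rho U i t z = 0 := by
  have hp : Function.Periodic (rho U i t) 2 := fun x => rho_per h i t x
  have h1 := hp.intervalIntegral_add_eq a (-1)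
  rw [h1]
  have h2 : (∫ z in (-1:ℝ)..(-1 + 2), rho U i t z) = ∫ z in (-1:ℝ)..1, rho U i t z := by norm_num
  rw [h2]
  have h3 : (∫ z in (-1:ℝ)..1, rho U i t (-z)) = ∫ z in (-1:ℝ)..1, rho U i t z := by
    rw [intervalIntegral.integral_comp_neg]; norm_num
  have h4 : (∫ z in (-1:ℝ)..1, rho U i t (-z)) = -∫ z in (-1:ℝ)..1, rho U i t z := by
    rw [← intervalIntegral.integral_neg]
    apply intervalIntegral.integral_congr
    intro z _
    exact rho_odd h i t z
  linarith

/-- primitive of the difference of the cube -/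
noncomputable def GG (U : ℝ → ℝ → ℝ) (i : ℕ) (τ y : ℝ) : ℝ := ∫ x in (0:ℝ)..(y - τ), rho U i τ x

theorem GG_continuous (h : Chr U Φ) (i : ℕ) : Continuous (Function.uncurry (GG U i)) := by
  have h1 : Continuous (fun p : ℝ × ℝ => ∫ x in (0:ℝ)..(p.2 - p.1), rho U i p.1 x) := by
    apply intervalIntegral.continuous_parametric_intervalIntegral_of_continuous
    · have : Continuous (fun q : (ℝ × ℝ) × ℝ => Function.uncurry (rho U i) (q.1.1, q.2)) :=
        (rho_continuous h i).comp (by fun_prop)
      exact this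
    · fun_prop
  exact h1

theorem GG_cont_slice (h : Chr U Φ) (i : ℕ) (y : ℝ) : Continuous (fun τ => GG U i τ y) :=
  (GG_continuous h i).comp (by fun_prop : Continuous fun τ : ℝ => (τ, y))

theorem GG_succ (h : Chr U Φ) (i : ℕ) (τ y : ℝ) :
    GG U (i + 1) τ y = GG U i (τ + 2) y - GG U i τ y := by
  unfold GG
  have h0 : ∀ a b : ℝ, IntervalIntegrable (rho U i (τ + 2)) volume a b := fun a b =>
    (rho_cont_slice h i _).intervalIntegrable a b
  have h0' : ∀ a b : ℝ, IntervalIntegrable (rho U i τ) volume a b := fun a b =>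
    (rho_cont_slice h i _).intervalIntegrable a b
  have h1 : (∫ x in (0:ℝ)..(y - (τ + 2)), rho U i (τ + 2) x)
      = ∫ x in (0:ℝ)..(y - τ), rho U i (τ + 2) x := by
    have h2 := intervalIntegral.integral_add_adjacent_intervals (h0 0 (y - (τ + 2)))
      (h0 (y - (τ + 2)) (y - τ))
    have h3 := rho_mean h i (τ + 2) (y - (τ + 2))
    have e : y - (τ + 2) + 2 = y - τ := by ring
    rw [e] at h3
    rw [← h2, h3, add_zero]
  rw [h1, ← intervalIntegral.integral_sub (h0 _ _) (h0' _ _)]
  apply intervalIntegral.integral_congr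
  intro x _
  exact rho_succ U i τ x

theorem del_evol (h : Chr U Φ) (i : ℕ) (s t y : ℝ) :
    del Φ i t y - del Φ i s y = -∫ τ in s..t, ∫ x in (0:ℝ)..(y - τ), rho U i τ x := by
  induction i generalizing s t with
  | zero => exact h.evol s t y
  | succ i ih =>
    have ih' : ∀ s t : ℝ, del Φ i t y - del Φ i s y = -∫ τ in s..t, GG U i τ y := ih
    have goal' : del Φ (i + 1) t y - del Φ (i + 1) s y = -∫ τ in s..t, GG U (i + 1) τ y := by
      rw [del_succ, del_succ]
      have e1 := ih' (s + 2) (t + 2)
      have e2 := ih' s t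
      have e3 : (∫ τ in (s + 2)..(t + 2), GG U i τ y) = ∫ τ in s..t, GG U i (τ + 2) y := by
        rw [intervalIntegral.integral_comp_add_right (fun τ => GG U i τ y)]
      have e4 : (∫ τ in s..t, GG U (i + 1) τ y)
          = (∫ τ in s..t, GG U i (τ + 2) y) - ∫ τ in s..t, GG U i τ y := by
        rw [← intervalIntegral.integral_sub]
        · apply intervalIntegral.integral_congr
          intro τ _
          exact GG_succ h i τ y
        · exact ((GG_cont_slice h i y).comp (by fun_prop : Continuous fun τ : ℝ => τ + 2)).intervalIntegrable _ _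
        · exact (GG_cont_slice h i y).intervalIntegrable _ _
      rw [e4]
      rw [e3] at e1
      linarith
    exact goal'

theorem del_succ_eq (h : Chr U Φ) (i : ℕ) (t y : ℝ) :
    del Φ (i + 1) t y = -∫ s in t..(t + 2), ∫ z in (0:ℝ)..(y - s), rho U i s z := by
  rw [del_succ]
  exact del_evol h i t (t + 2) y

theorem del_hasDerivAt (h : Chr U Φ) (i : ℕ) (t y : ℝ) :
    HasDerivAt (fun t => del Φ i t y) (-∫ z in (0:ℝ)..(y - t), rho U i t z) t := by
  have h1 : (fun t => del Φ i t y) = fun t => del Φ i 0 y + -∫ τ in (0:ℝ)..t, GG U i τ y := by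
    funext t
    have := del_evol h i 0 t y
    have h2 : (∫ τ in (0:ℝ)..t, ∫ x in (0:ℝ)..(y - τ), rho U i τ x) = ∫ τ in (0:ℝ)..t, GG U i τ y :=
      rfl
    rw [h2] at this
    linarith
  rw [h1]
  have h3 : HasDerivAt (fun t => ∫ τ in (0:ℝ)..t, GG U i τ y) (GG U i t y) t :=
    intervalIntegral.integral_hasDerivAt_right ((GG_cont_slice h i y).intervalIntegrable _ _)
      (GG_cont_slice h i y).aestronglyMeasurable.stronglyMeasurableAtFilter
      (GG_cont_slice h i y).continuousAt
  exact (h3.neg).const_add _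

theorem J_nonneg (U : ℝ → ℝ → ℝ) (i : ℕ) (t : ℝ) : 0 ≤ J U i t := by
  unfold J
  apply intervalIntegral.integral_nonneg (by linarith)
  intro s _
  apply intervalIntegral.integral_nonneg zero_le_one
  intro x _
  exact abs_nonneg _

/-- space integral of the modulus -/
noncomputable def jj (U : ℝ → ℝ → ℝ) (i : ℕ) (s : ℝ) : ℝ := ∫ x in (0:ℝ)..1, |rho U i s x|

theorem jj_continuous (h : Chr U Φ) (i : ℕ) : Continuous (jj U i) := by
  have h1 : Continuous (fun s : ℝ => ∫ x in (0:ℝ)..1, |rho U i s x|) := by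
    apply intervalIntegral.continuous_parametric_intervalIntegral_of_continuous'
    exact (rho_continuous h i).abs
  exact h1

theorem jj_nonneg (U : ℝ → ℝ → ℝ) (i : ℕ) (s : ℝ) : 0 ≤ jj U i s := by
  apply intervalIntegral.integral_nonneg zero_le_one
  intro x _
  exact abs_nonneg _

/-- integral over a part of a period -/
theorem part_le (h : Chr U Φ) (i : ℕ) (s a b : ℝ) (hab : |b - a| ≤ 2) :
    |∫ z in a..b, rho U i s z| ≤ 2 * jj U i s := by
  have hc : Continuous (fun z => |rho U i s z|) := (rho_cont_slice h i s).abs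
  have hp : Function.Periodic (fun z => |rho U i s z|) 2 := fun x => by
    simp only [rho_per h]
  have key : ∀ a b : ℝ, a ≤ b → b ≤ a + 2 → |∫ z in a..b, rho U i s z| ≤ 2 * jj U i s := by
    intro a b h1 h2
    have e1 : |∫ z in a..b, rho U i s z| ≤ ∫ z in a..b, |rho U i s z| :=
      intervalIntegral.abs_integral_le_integral_abs h1
    have e2 : (∫ z in a..b, |rho U i s z|) ≤ ∫ z in a..(a + 2), |rho U i s z| := by
      have e3 := intervalIntegral.integral_add_adjacent_intervals
        (hc.intervalIntegrable a b (μ := volume)) (hc.intervalIntegrable b (a + 2) (μ := volume))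
      have e4 : 0 ≤ ∫ z in b..(a + 2), |rho U i s z| :=
        intervalIntegral.integral_nonneg h2 (fun _ _ => abs_nonneg _)
      linarith
    have e5 : (∫ z in a..(a + 2), |rho U i s z|) = ∫ z in (-1:ℝ)..(-1 + 2), |rho U i s z| :=
      hp.intervalIntegral_add_eq a (-1)
    have e6 : (∫ z in (-1:ℝ)..(-1 + 2), |rho U i s z|) = 2 * jj U i s := by
      have e7 : (-1:ℝ) + 2 = 1 := by norm_num
      rw [e7, ← intervalIntegral.integral_add_adjacent_intervals
        (hc.intervalIntegrable (-1) 0) (hc.intervalIntegrable 0 1)]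
      have e8 : (∫ z in (-1:ℝ)..0, |rho U i s z|) = ∫ z in (0:ℝ)..1, |rho U i s z| := by
        have e9 : (∫ z in (-1:ℝ)..0, |rho U i s (-z)|) = ∫ z in (0:ℝ)..1, |rho U i s z| := by
          rw [intervalIntegral.integral_comp_neg (fun z => |rho U i s z|)]; norm_num
        rw [← e9]
        apply intervalIntegral.integral_congr
        intro z _
        simp only [rho_odd h, abs_neg]
      rw [e8]
      unfold jj
      ring
    linarith
  rcases le_total a b with h1 | h1
  · apply key a b h1
    rw [abs_of_nonneg (by linarith)] at hab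
    linarith
  · rw [intervalIntegral.integral_symm, abs_neg]
    apply key b a h1
    rw [abs_of_nonpos (by linarith)] at hab
    linarith

theorem GG_sub_le (h : Chr U Φ) (i : ℕ) (s y y' : ℝ) (hy : |y - y'| ≤ 2) :
    |GG U i s y - GG U i s y'| ≤ 2 * jj U i s := by
  unfold GG
  have h0 : ∀ a b : ℝ, IntervalIntegrable (rho U i s) volume a b := fun a b =>
    (rho_cont_slice h i _).intervalIntegrable a b
  rw [intervalIntegral.integral_interval_sub_left (h0 _ _) (h0 _ _)]
  apply part_le h
  have : y - s - (y' - s) = y - y' := by ring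
  rw [this]
  exact hy

theorem int_GG_sub_le (h : Chr U Φ) (i : ℕ) (t y y' : ℝ) {a b : ℝ} (hta : t ≤ a) (hab : a ≤ b)
    (hbt : b ≤ t + 2) (hy : |y - y'| ≤ 2) :
    |(∫ s in a..b, GG U i s y) - ∫ s in a..b, GG U i s y'| ≤ 2 * J U i t := by
  have h1 : (∫ s in a..b, GG U i s y) - ∫ s in a..b, GG U i s y'
      = ∫ s in a..b, (GG U i s y - GG U i s y') := by
    rw [intervalIntegral.integral_sub]
    · exact (GG_cont_slice h i y).intervalIntegrable _ _
    · exact (GG_cont_slice h i y').intervalIntegrable _ _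
  rw [h1]
  have hc : Continuous (fun s => 2 * jj U i s) := (jj_continuous h i).const_mul 2 |>.congr
    (fun _ => rfl)
  have hd : Continuous (fun s => |GG U i s y - GG U i s y'|) :=
    ((GG_cont_slice h i y).sub (GG_cont_slice h i y')).abs
  have h2 : |∫ s in a..b, (GG U i s y - GG U i s y')| ≤ ∫ s in a..b, |GG U i s y - GG U i s y'| :=
    intervalIntegral.abs_integral_le_integral_abs hab
  have h3 : (∫ s in a..b, |GG U i s y - GG U i s y'|) ≤ ∫ s in a..b, 2 * jj U i s :=
    intervalIntegral.integral_mono_on hab (hd.intervalIntegrable _ _) (hc.intervalIntegrable _ _)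
      (fun s _ => GG_sub_le h i s y y' hy)
  have h4 : (∫ s in a..b, 2 * jj U i s) ≤ ∫ s in t..(t + 2), 2 * jj U i s := by
    apply intervalIntegral.integral_mono_interval hta hab hbt
    · exact Eventually.of_forall (fun s => by
        have := jj_nonneg U i s
        simp only [Pi.zero_apply]
        positivity)
    · exact hc.intervalIntegrable _ _
  have h5 : (∫ s in t..(t + 2), 2 * jj U i s) = 2 * J U i t := by
    rw [intervalIntegral.integral_const_mul]
    rfl
  linarith

theorem abs_delP_sub_le (h : Chr U Φ) (i : ℕ) (t y y' : ℝ) (hy : |y - y'| ≤ 2) :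
    |del Φ (i + 1) t y - del Φ (i + 1) t y'| ≤ 2 * J U i t := by
  rw [del_succ_eq h, del_succ_eq h]
  have h1 := int_GG_sub_le h i t y y' (a := t) (b := t + 2) le_rfl (by linarith) le_rfl hy
  have h2 : -(∫ s in t..(t + 2), ∫ z in (0:ℝ)..(y - s), rho U i s z)
      - -(∫ s in t..(t + 2), ∫ z in (0:ℝ)..(y' - s), rho U i s z)
      = -((∫ s in t..(t + 2), GG U i s y) - ∫ s in t..(t + 2), GG U i s y') := by
    unfold GG
    ring
  rw [h2, abs_neg]
  exact h1

theorem del_perP_int (h : Chr U Φ) (i : ℕ) (t y : ℝ) (k : ℤ) :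
    del Φ i t (y + 2 * k) = del Φ i t y := by
  have hp : Function.Periodic (del Φ i t) 2 := fun y => del_perP h i t y
  have := hp.int_mul k y
  rw [← this]
  congr 1
  ring

theorem abs_delU_le (h : Chr U Φ) (i : ℕ) (t x : ℝ) : |del U (i + 1) t x| ≤ J U i t := by
  rw [del_rel h]
  have h1 : del Φ (i + 1) t (t + x) = del Φ (i + 1) t (t + x + 2 * ((-round x : ℤ) : ℝ)) :=
    (del_perP_int h (i + 1) t (t + x) (-round x)).symm
  rw [h1]
  have h2 : |(t + x + 2 * ((-round x : ℤ) : ℝ)) - (t - x)| ≤ 2 := by
    have e : (t + x + 2 * ((-round x : ℤ) : ℝ)) - (t - x) = 2 * (x - round x) := by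
      push_cast
      ring
    rw [e, abs_mul]
    have := abs_sub_round x
    rw [abs_of_pos (by norm_num : (0:ℝ) < 2)]
    linarith
  have h3 := abs_delP_sub_le h i t _ _ h2
  rw [abs_div, abs_of_pos (by norm_num : (0:ℝ) < 2)]
  linarith

theorem abs_P_sub_le (h : Chr U Φ) (t s y y' : ℝ) (hs : s ∈ Icc t (t + 2)) (hy : |y - y'| ≤ 2) :
    |(Φ t y - Φ t y') - (Φ s y - Φ s y')| ≤ 2 * J U 0 t := by
  have h1 := int_GG_sub_le h 0 t y y' (a := t) (b := s) le_rfl hs.1 hs.2 hy
  have e1 : Φ s y - Φ t y = -∫ τ in t..s, GG U 0 τ y := h.evol t s y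
  have e2 : Φ s y' - Φ t y' = -∫ τ in t..s, GG U 0 τ y' := h.evol t s y'
  have h2 : (Φ t y - Φ t y') - (Φ s y - Φ s y')
      = (∫ s in t..s, GG U 0 s y) - ∫ s in t..s, GG U 0 s y' := by
    linarith
  rw [h2]
  exact h1

end Pool.MP_1df64d_an
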