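import Pool.Agent.Lib_MP_1df64d_an.Diff

/-! MP_1df64d_an, piece Energy: the space-time fourth power integrals. -/

open MeasureTheory Filter Topology Set

namespace Pool.MP_1df64d_an

variable {U Φ : ℝ → ℝ → ℝ}

theorem U_cont_slice (h : Chr U Φ) (t : ℝ) : Continuous (U t) :=
  h.contU.comp (by fun_prop : Continuous fun x : ℝ => (t, x))

theorem par_cont {F : ℝ → ℝ → ℝ} (hF : Continuous (Function.uncurry F)) (a b : ℝ) :
    Continuous (fun s => ∫ x in a..b, F s x) := by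
  apply intervalIntegral.continuous_parametric_intervalIntegral_of_continuous'
  exact hF

theorem vv_continuous (h : Chr U Φ) : Continuous (vv U) := by
  have h1 : Continuous (Function.uncurry fun t x : ℝ => U t x ^ 4) := by
    exact h.contU.pow 4
  exact par_cont h1 0 1

theorem vv_nonneg (U : ℝ → ℝ → ℝ) (t : ℝ) : 0 ≤ vv U t := by
  apply intervalIntegral.integral_nonneg zero_le_one
  intro x _
  positivity

theorem N4_nonneg (U : ℝ → ℝ → ℝ) (t : ℝ) : 0 ≤ N4 U t := by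
  apply intervalIntegral.integral_nonneg (by linarith)
  intro x _
  exact vv_nonneg U x

theorem window_hasDerivAt {f : ℝ → ℝ} (hf : Continuous f) (t : ℝ) :
    HasDerivAt (fun t => ∫ s in t..(t + 2), f s) (f (t + 2) - f t) t := by
  have h1 : (fun t => ∫ s in t..(t + 2), f s)
      = fun t => (∫ s in (0:ℝ)..(t + 2), f s) - ∫ s in (0:ℝ)..t, f s := by
    funext t
    rw [intervalIntegral.integral_interval_sub_left (hf.intervalIntegrable _ _)
      (hf.intervalIntegrable _ _)]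
  rw [h1]
  have h2 : ∀ b : ℝ, HasDerivAt (fun t => ∫ τ in (0:ℝ)..t, f τ) (f b) b := fun b =>
    intervalIntegral.integral_hasDerivAt_right (hf.intervalIntegrable _ _)
      hf.aestronglyMeasurable.stronglyMeasurableAtFilter hf.continuousAt
  have h3 : HasDerivAt (fun t : ℝ => ∫ τ in (0:ℝ)..(t + 2), f τ) (f (t + 2)) t := by
    have := (h2 (t + 2)).comp_add_const t 2
    exact this
  exact h3.sub (h2 t)

theorem N4_hasDerivAt (h : Chr U Φ) (t : ℝ) :
    HasDerivAt (N4 U) (vv U (t + 2) - vv U t) t :=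
  window_hasDerivAt (vv_continuous h) t

/-- windows: the integral of `vv` over `[a,b]` when all windows starting in `[a,b]` are small. -/
theorem integral_vv_le (h : Chr U Φ) {a b A : ℝ} (hab : a ≤ b)
    (hA : ∀ τ ∈ Icc a b, N4 U τ ≤ A) : ∫ s in a..b, vv U s ≤ ((b - a) / 2 + 1) * A := by
  have hA0 : 0 ≤ A := (N4_nonneg U a).trans (hA a ⟨le_rfl, hab⟩)
  have hc := vv_continuous h
  have key : ∀ n : ℕ, ∀ b : ℝ, a ≤ b → b ≤ a + 2 * n → (∀ τ ∈ Icc a b, N4 U τ ≤ A) →
      ∫ s in a..b, vv U s ≤ ((b - a) / 2 + 1) * A := by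
    intro n
    induction n with
    | zero =>
      intro b h1 h2 _
      have : b = a := by
        push_cast at h2
        linarith
      rw [this, intervalIntegral.integral_same]
      have : ((a - a) / 2 + 1) * A = A := by ring
      rw [this]
      exact hA0
    | succ n ih =>
      intro b h1 h2 h3
      by_cases hb : b ≤ a + 2
      · have e1 : (∫ s in a..b, vv U s) ≤ N4 U a := by
          unfold N4
          apply intervalIntegral.integral_mono_interval le_rfl h1 hb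
          · exact Eventually.of_forall (fun s => vv_nonneg U s)
          · exact hc.intervalIntegrable _ _
        have e2 := h3 a ⟨le_rfl, h1⟩
        have e3 : 0 ≤ (b - a) / 2 * A := by
          apply mul_nonneg _ hA0
          linarith
        have e4 : ((b - a) / 2 + 1) * A = (b - a) / 2 * A + A := by ring
        linarith
      · push Not at hb
        have e1 := ih (b - 2) (by linarith) (by push_cast at h2; linarith)
          (fun τ hτ => h3 τ ⟨hτ.1, by linarith [hτ.2]⟩)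
        have e2 := intervalIntegral.integral_add_adjacent_intervals
          (hc.intervalIntegrable a (b - 2) (μ := volume))
          (hc.intervalIntegrable (b - 2) b (μ := volume))
        have e3 : (∫ s in (b - 2)..b, vv U s) = N4 U (b - 2) := by
          unfold N4
          congr 1
          ring
        have e4 := h3 (b - 2) ⟨by linarith, by linarith⟩
        have e5 : ((b - a) / 2 + 1) * A = ((b - 2 - a) / 2 + 1) * A + A := by ring
        linarith
  obtain ⟨n, hn⟩ := exists_nat_ge ((b - a) / 2)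
  exact key n b hab (by linarith) hA

theorem cube_young {a M : ℝ} (ha : 0 ≤ a) (hM : 0 < M) :
    a ^ 3 ≤ (3 / 4) * a ^ 4 / M + M ^ 3 / 4 := by
  rw [div_add_div _ _ (ne_of_gt hM) (by norm_num), le_div_iff₀ (by positivity)]
  have h1 : 0 ≤ (a - M) ^ 2 * (3 * a ^ 2 + 2 * a * M + M ^ 2) := by positivity
  nlinarith [h1]

theorem cube_sum {a M : ℝ} (ha : 0 ≤ a) (hM : 0 ≤ M) : (a + M) ^ 3 ≤ 4 * (a ^ 3 + M ^ 3) := by
  nlinarith [mul_nonneg (add_nonneg ha hM) (sq_nonneg (a - M))]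

/-- use `(a+b)^3 ≤ 4 (a^3 + b^3)` and `|U|^3 ≤ (3/4) U^4 / M + M^3 / 4`. -/
theorem Y3_le (h : Chr U Φ) {t M : ℝ} (hM : 0 < M) (hN : N4 U t ≤ M ^ 4) :
    ∫ s in t..(t + 2), ∫ x in (0:ℝ)..1, (|U s x| + M) ^ 3 ≤ 13 * M ^ 3 := by
  have hc1 : Continuous (Function.uncurry fun s x : ℝ => (|U s x| + M) ^ 3) :=
    ((h.contU.abs).add continuous_const).pow 3
  have hc3 : Continuous (Function.uncurry fun s x : ℝ => U s x ^ 4) := h.contU.pow 4
  have hpt : ∀ s x : ℝ, (|U s x| + M) ^ 3 ≤ (3 / M) * U s x ^ 4 + 5 * M ^ 3 := by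
    intro s x
    have e1 := cube_sum (abs_nonneg (U s x)) hM.le
    have e2 := cube_young (abs_nonneg (U s x)) hM
    have e3 : |U s x| ^ 4 = U s x ^ 4 := by
      rw [← abs_pow, abs_of_nonneg (by positivity)]
    rw [e3] at e2
    have e4 : (3 / M) * U s x ^ 4 = 4 * ((3 / 4) * U s x ^ 4 / M) := by
      field_simp
    rw [e4]
    linarith
  have h1 : ∀ s : ℝ, (∫ x in (0:ℝ)..1, (|U s x| + M) ^ 3) ≤ (3 / M) * vv U s + 5 * M ^ 3 := by
    intro s
    have e1 : (∫ x in (0:ℝ)..1, (|U s x| + M) ^ 3)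
        ≤ ∫ x in (0:ℝ)..1, ((3 / M) * U s x ^ 4 + 5 * M ^ 3) := by
      apply intervalIntegral.integral_mono_on zero_le_one
      · exact (((U_cont_slice h s).abs.add continuous_const).pow 3).intervalIntegrable _ _
      · exact ((((U_cont_slice h s).pow 4).const_mul (3 / M)).add
          continuous_const).intervalIntegrable _ _
      · intro x _
        exact hpt s x
    have e2 : (∫ x in (0:ℝ)..1, ((3 / M) * U s x ^ 4 + 5 * M ^ 3))
        = (3 / M) * vv U s + 5 * M ^ 3 := by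
      rw [intervalIntegral.integral_add, intervalIntegral.integral_const_mul]
      · simp [vv]
      · exact (((U_cont_slice h s).pow 4).const_mul (3 / M)).intervalIntegrable _ _
      · exact continuous_const.intervalIntegrable _ _
    linarith
  have h2 : (∫ s in t..(t + 2), ∫ x in (0:ℝ)..1, (|U s x| + M) ^ 3)
      ≤ ∫ s in t..(t + 2), ((3 / M) * vv U s + 5 * M ^ 3) := by
    apply intervalIntegral.integral_mono_on (by linarith)
    · exact (par_cont (F := fun s x : ℝ => (|U s x| + M) ^ 3) hc1 0 1).intervalIntegrable _ _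
    · exact (((vv_continuous h).const_mul (3 / M)).add continuous_const).intervalIntegrable _ _
    · intro s _
      exact h1 s
  have h3 : (∫ s in t..(t + 2), ((3 / M) * vv U s + 5 * M ^ 3))
      = (3 / M) * N4 U t + 10 * M ^ 3 := by
    rw [intervalIntegral.integral_add, intervalIntegral.integral_const_mul,
      intervalIntegral.integral_const]
    · simp only [N4, smul_eq_mul]
      ring
    · exact ((vv_continuous h).const_mul (3 / M)).intervalIntegrable _ _
    · exact continuous_const.intervalIntegrable _ _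
  have h4 : (3 / M) * N4 U t ≤ 3 * M ^ 3 := by
    have : (3 / M) * N4 U t ≤ (3 / M) * M ^ 4 :=
      mul_le_mul_of_nonneg_left hN (by positivity)
    have e : (3 / M) * M ^ 4 = 3 * M ^ 3 := by
      field_simp
    linarith
  linarith

theorem J0_le (h : Chr U Φ) {t M : ℝ} (hM : 0 < M) (hN : N4 U t ≤ M ^ 4) :
    J U 0 t ≤ (5 / 4) * M ^ 3 := by
  have hpt : ∀ s x : ℝ, |rho U 0 s x| ≤ (3 / (4 * M)) * U s x ^ 4 + M ^ 3 / 4 := by
    intro s x
    rw [rho_zero, abs_pow]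
    have e2 := cube_young (abs_nonneg (U s x)) hM
    have e3 : |U s x| ^ 4 = U s x ^ 4 := by
      rw [← abs_pow, abs_of_nonneg (by positivity)]
    rw [e3] at e2
    have e4 : (3 / (4 * M)) * U s x ^ 4 = (3 / 4) * U s x ^ 4 / M := by
      field_simp
    rw [e4]
    linarith
  have h1 : ∀ s : ℝ, jj U 0 s ≤ (3 / (4 * M)) * vv U s + M ^ 3 / 4 := by
    intro s
    have e1 : jj U 0 s ≤ ∫ x in (0:ℝ)..1, ((3 / (4 * M)) * U s x ^ 4 + M ^ 3 / 4) := by
      apply intervalIntegral.integral_mono_on zero_le_one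
      · exact (rho_cont_slice h 0 s).abs.intervalIntegrable _ _
      · exact ((((U_cont_slice h s).pow 4).const_mul (3 / (4 * M))).add
          continuous_const).intervalIntegrable _ _
      · intro x _
        exact hpt s x
    have e2 : (∫ x in (0:ℝ)..1, ((3 / (4 * M)) * U s x ^ 4 + M ^ 3 / 4))
        = (3 / (4 * M)) * vv U s + M ^ 3 / 4 := by
      rw [intervalIntegral.integral_add, intervalIntegral.integral_const_mul]
      · simp [vv]
      · exact (((U_cont_slice h s).pow 4).const_mul (3 / (4 * M))).intervalIntegrable _ _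
      · exact continuous_const.intervalIntegrable _ _
    linarith
  have h2 : J U 0 t ≤ ∫ s in t..(t + 2), ((3 / (4 * M)) * vv U s + M ^ 3 / 4) := by
    apply intervalIntegral.integral_mono_on (by linarith)
    · exact (jj_continuous h 0).intervalIntegrable _ _
    · exact (((vv_continuous h).const_mul (3 / (4 * M))).add
        continuous_const).intervalIntegrable _ _
    · intro s _
      exact h1 s
  have h3 : (∫ s in t..(t + 2), ((3 / (4 * M)) * vv U s + M ^ 3 / 4))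
      = (3 / (4 * M)) * N4 U t + M ^ 3 / 2 := by
    rw [intervalIntegral.integral_add, intervalIntegral.integral_const_mul,
      intervalIntegral.integral_const]
    · simp only [N4, smul_eq_mul]
      ring
    · exact ((vv_continuous h).const_mul (3 / (4 * M))).intervalIntegrable _ _
    · exact continuous_const.intervalIntegrable _ _
  have h4 : (3 / (4 * M)) * N4 U t ≤ 3 / 4 * M ^ 3 := by
    have : (3 / (4 * M)) * N4 U t ≤ (3 / (4 * M)) * M ^ 4 :=
      mul_le_mul_of_nonneg_left hN (by positivity)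
    have e : (3 / (4 * M)) * M ^ 4 = 3 / 4 * M ^ 3 := by
      field_simp
    linarith
  linarith

theorem quartic_diff {a d M : ℝ} (hM : 0 < M) (hM1 : M ≤ 1 / 10) (hd : |d| ≤ (5 / 4) * M ^ 3) :
    |(a + d) ^ 4 - a ^ 4| ≤ 5 * M ^ 2 * (a ^ 4 + M ^ 4) := by
  have e1 : (a + d) ^ 4 - a ^ 4 = 4 * a ^ 3 * d + 6 * a ^ 2 * d ^ 2 + 4 * a * d ^ 3 + d ^ 4 := by
    ring
  have hA : 0 ≤ |a| := abs_nonneg a
  have hD : 0 ≤ |d| := abs_nonneg d
  have e2 : |(a + d) ^ 4 - a ^ 4| ≤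
      4 * |a| ^ 3 * |d| + 6 * |a| ^ 2 * |d| ^ 2 + 4 * |a| * |d| ^ 3 + |d| ^ 4 := by
    rw [e1]
    have t1 := abs_add_le (4 * a ^ 3 * d + 6 * a ^ 2 * d ^ 2 + 4 * a * d ^ 3) (d ^ 4)
    have t2 := abs_add_le (4 * a ^ 3 * d + 6 * a ^ 2 * d ^ 2) (4 * a * d ^ 3)
    have t3 := abs_add_le (4 * a ^ 3 * d) (6 * a ^ 2 * d ^ 2)
    have s1 : |4 * a ^ 3 * d| = 4 * |a| ^ 3 * |d| := by
      rw [abs_mul, abs_mul, abs_pow]; norm_num
    have s2 : |6 * a ^ 2 * d ^ 2| = 6 * |a| ^ 2 * |d| ^ 2 := by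
      rw [abs_mul, abs_mul, abs_pow, abs_pow]; norm_num
    have s3 : |4 * a * d ^ 3| = 4 * |a| * |d| ^ 3 := by
      rw [abs_mul, abs_mul, abs_pow]; norm_num
    have s4 : |d ^ 4| = |d| ^ 4 := abs_pow d 4
    rw [s1, s2] at t3
    rw [s3] at t2
    rw [s4] at t1
    linarith
  have e3 : |a| ^ 4 = a ^ 4 := by
    rw [← abs_pow, abs_of_nonneg (by positivity)]
  rw [← e3] at e2 ⊢
  set x := |a| with hx
  set y := |d| with hy
  have hM0 : 0 ≤ M := hM.le
  have y1 : y ≤ (5 / 4) * M ^ 3 := hd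
  have y2 : y ^ 2 ≤ (25 / 16) * M ^ 6 := by
    have := pow_le_pow_left₀ hD y1 2
    calc y ^ 2 ≤ ((5 / 4) * M ^ 3) ^ 2 := this
      _ = (25 / 16) * M ^ 6 := by ring
  have y3 : y ^ 3 ≤ 2 * M ^ 9 := by
    have := pow_le_pow_left₀ hD y1 3
    calc y ^ 3 ≤ ((5 / 4) * M ^ 3) ^ 3 := this
      _ = (125 / 64) * M ^ 9 := by ring
      _ ≤ 2 * M ^ 9 := by nlinarith [pow_nonneg hM0 9]
  have y4 : y ^ 4 ≤ 3 * M ^ 12 := by
    have := pow_le_pow_left₀ hD y1 4
    calc y ^ 4 ≤ ((5 / 4) * M ^ 3) ^ 4 := this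
      _ = (625 / 256) * M ^ 12 := by ring
      _ ≤ 3 * M ^ 12 := by nlinarith [pow_nonneg hM0 12]
  -- Young
  have z1 : x ^ 3 * M ≤ (3 / 4) * x ^ 4 + (1 / 4) * M ^ 4 := by
    have := cube_young hA hM
    have h1 := mul_le_mul_of_nonneg_right this hM0
    have h2 : ((3 / 4) * x ^ 4 / M + M ^ 3 / 4) * M = (3 / 4) * x ^ 4 + (1 / 4) * M ^ 4 := by
      field_simp
    linarith
  have z2 : x ^ 2 * M ^ 2 ≤ (1 / 2) * (x ^ 4 + M ^ 4) := by
    nlinarith [sq_nonneg (x ^ 2 - M ^ 2)]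
  have z3 : x * M ^ 3 ≤ x ^ 4 + M ^ 4 := by
    have h1 : x * M ^ 3 ≤ (1 / 2) * (x ^ 2 * M ^ 2 + M ^ 4) := by
      nlinarith [mul_nonneg (sq_nonneg M) (sq_nonneg (x - M))]
    have h2 : 0 ≤ x ^ 4 := by positivity
    have h3 : 0 ≤ M ^ 4 := by positivity
    nlinarith
  have m2 : M ^ 2 ≤ 1 / 100 := by
    have := pow_le_pow_left₀ hM0 hM1 2
    calc M ^ 2 ≤ (1 / 10) ^ 2 := this
      _ = 1 / 100 := by norm_num
  have hM2 : 0 ≤ M ^ 2 := sq_nonneg M
  have hx4 : 0 ≤ x ^ 4 := by positivity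
  have hm4 : 0 ≤ M ^ 4 := by positivity
  have T1 : 4 * x ^ 3 * y ≤ 5 * M ^ 2 * ((3 / 4) * x ^ 4 + (1 / 4) * M ^ 4) := by
    have a1 : 4 * x ^ 3 * y ≤ 4 * x ^ 3 * ((5 / 4) * M ^ 3) :=
      mul_le_mul_of_nonneg_left y1 (by positivity)
    have a2 : 4 * x ^ 3 * ((5 / 4) * M ^ 3) = 5 * M ^ 2 * (x ^ 3 * M) := by ring
    have a3 : 5 * M ^ 2 * (x ^ 3 * M) ≤ 5 * M ^ 2 * ((3 / 4) * x ^ 4 + (1 / 4) * M ^ 4) :=
      mul_le_mul_of_nonneg_left z1 (by positivity)
    linarith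
  have T2 : 6 * x ^ 2 * y ^ 2 ≤ (1 / 10) * M ^ 2 * (x ^ 4 + M ^ 4) := by
    have a1 : 6 * x ^ 2 * y ^ 2 ≤ 6 * x ^ 2 * ((25 / 16) * M ^ 6) :=
      mul_le_mul_of_nonneg_left y2 (by positivity)
    have a2 : 6 * x ^ 2 * ((25 / 16) * M ^ 6) = (150 / 16) * (M ^ 2 * M ^ 2) * (x ^ 2 * M ^ 2) := by
      ring
    have a3 : (150 / 16) * (M ^ 2 * M ^ 2) * (x ^ 2 * M ^ 2)
        ≤ (150 / 16) * (M ^ 2 * M ^ 2) * ((1 / 2) * (x ^ 4 + M ^ 4)) :=
      mul_le_mul_of_nonneg_left z2 (by positivity)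
    have a4 : M ^ 2 * M ^ 2 ≤ (1 / 100) * M ^ 2 := mul_le_mul_of_nonneg_right m2 hM2
    have a5 : (150 / 16) * (M ^ 2 * M ^ 2) * ((1 / 2) * (x ^ 4 + M ^ 4))
        ≤ (150 / 16) * ((1 / 100) * M ^ 2) * ((1 / 2) * (x ^ 4 + M ^ 4)) := by
      apply mul_le_mul_of_nonneg_right _ (by positivity)
      linarith
    have a6 : 0 ≤ M ^ 2 * (x ^ 4 + M ^ 4) := by positivity
    linarith
  have T3 : 4 * x * y ^ 3 ≤ (1 / 10) * M ^ 2 * (x ^ 4 + M ^ 4) := by
    have a1 : 4 * x * y ^ 3 ≤ 4 * x * (2 * M ^ 9) :=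
      mul_le_mul_of_nonneg_left y3 (by positivity)
    have a2 : 4 * x * (2 * M ^ 9) = 8 * (M ^ 2 * M ^ 4) * (x * M ^ 3) := by ring
    have a3 : 8 * (M ^ 2 * M ^ 4) * (x * M ^ 3) ≤ 8 * (M ^ 2 * M ^ 4) * (x ^ 4 + M ^ 4) :=
      mul_le_mul_of_nonneg_left z3 (by positivity)
    have a4 : M ^ 4 ≤ 1 / 10000 := by
      have : M ^ 4 = M ^ 2 * M ^ 2 := by ring
      rw [this]
      nlinarith
    have a5 : M ^ 2 * M ^ 4 ≤ M ^ 2 * (1 / 10000) := mul_le_mul_of_nonneg_left a4 hM2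
    have a6 : 8 * (M ^ 2 * M ^ 4) * (x ^ 4 + M ^ 4) ≤ 8 * (M ^ 2 * (1 / 10000)) * (x ^ 4 + M ^ 4) := by
      apply mul_le_mul_of_nonneg_right _ (by positivity)
      linarith
    have a7 : 0 ≤ M ^ 2 * (x ^ 4 + M ^ 4) := by positivity
    linarith
  have T4 : y ^ 4 ≤ (1 / 10) * M ^ 2 * (x ^ 4 + M ^ 4) := by
    have a1 : 3 * M ^ 12 = 3 * M ^ 2 * (M ^ 6 * M ^ 4) := by ring
    have a2 : M ^ 6 ≤ 1 / 100 := by
      have e : M ^ 6 = M ^ 2 * (M ^ 2 * M ^ 2) := by ring
      rw [e]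
      nlinarith [mul_nonneg hM2 hM2]
    have a3 : M ^ 6 * M ^ 4 ≤ (1 / 100) * M ^ 4 := mul_le_mul_of_nonneg_right a2 hm4
    have a4 : 3 * M ^ 2 * (M ^ 6 * M ^ 4) ≤ 3 * M ^ 2 * ((1 / 100) * M ^ 4) :=
      mul_le_mul_of_nonneg_left a3 (by positivity)
    have a5 : 0 ≤ M ^ 2 * x ^ 4 := by positivity
    have a6 : 0 ≤ M ^ 2 * M ^ 4 := by positivity
    nlinarith
  have a5 : 0 ≤ M ^ 2 * x ^ 4 := by positivity
  have a6 : 0 ≤ M ^ 2 * M ^ 4 := by positivity
  linarith

/-- from `U (t+2) x = U t x + del U 1 t x`, `|del U 1 t x| ≤ J U 0 t`, `J0_le`. -/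
theorem vv_diff_le (h : Chr U Φ) {t M : ℝ} (hM : 0 < M) (hM1 : M ≤ 1 / 10)
    (hN : N4 U t ≤ M ^ 4) :
    |vv U (t + 2) - vv U t| ≤ 5 * M ^ 2 * (vv U t + M ^ 4) := by
  have hc : ∀ s, Continuous (fun x => U s x ^ 4) := fun s => (U_cont_slice h s).pow 4
  have h1 : vv U (t + 2) - vv U t = ∫ x in (0:ℝ)..1, (U (t + 2) x ^ 4 - U t x ^ 4) := by
    unfold vv
    rw [intervalIntegral.integral_sub]
    · exact (hc _).intervalIntegrable _ _
    · exact (hc _).intervalIntegrable _ _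
  rw [h1]
  have hJ := J0_le h hM hN
  have h2 : |∫ x in (0:ℝ)..1, (U (t + 2) x ^ 4 - U t x ^ 4)|
      ≤ ∫ x in (0:ℝ)..1, |U (t + 2) x ^ 4 - U t x ^ 4| :=
    intervalIntegral.abs_integral_le_integral_abs zero_le_one
  have h3 : (∫ x in (0:ℝ)..1, |U (t + 2) x ^ 4 - U t x ^ 4|)
      ≤ ∫ x in (0:ℝ)..1, 5 * M ^ 2 * (U t x ^ 4 + M ^ 4) := by
    apply intervalIntegral.integral_mono_on zero_le_one
    · exact ((hc _).sub (hc _)).abs.intervalIntegrable _ _
    · exact (((hc t).add continuous_const).const_mul (5 * M ^ 2)).intervalIntegrable _ _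
    · intro x _
      have e1 : U (t + 2) x = U t x + del U 1 t x := by
        have := del_succ U 0 t x
        simp only [del_zero] at this
        have e : del U (0 + 1) t x = del U 1 t x := rfl
        rw [e] at this
        linarith
      rw [e1]
      apply quartic_diff hM hM1
      exact (abs_delU_le h 0 t x).trans hJ
  have h4 : (∫ x in (0:ℝ)..1, 5 * M ^ 2 * (U t x ^ 4 + M ^ 4)) = 5 * M ^ 2 * (vv U t + M ^ 4) := by
    rw [intervalIntegral.integral_const_mul, intervalIntegral.integral_add]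
    · simp [vv]
    · exact (hc t).intervalIntegrable _ _
    · exact continuous_const.intervalIntegrable _ _
  linarith

end Pool.MP_1df64d_an
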