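import Pool.Agent.Lib_MP_1df64d_an.Local

/-! MP_1df64d_an, piece Epoch: the fourth power integral is almost constant for exponentially
long time. -/

open MeasureTheory Filter Topology Set

namespace Pool.MP_1df64d_an

variable {U Φ : ℝ → ℝ → ℝ}

theorem mono_bound {F F' W W' : ℝ → ℝ} {a b : ℝ} (hab : a ≤ b)
    (hF : ∀ t, HasDerivAt F (F' t) t) (hW : ∀ t, HasDerivAt W (W' t) t)
    (hle : ∀ t ∈ Icc a b, |F' t| ≤ W' t) : |F b - F a| ≤ W b - W a := by
  have h1 : AntitoneOn (fun t => F t - W t) (Icc a b) := by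
    apply antitoneOn_of_deriv_nonpos (convex_Icc a b)
    · exact fun x _ => ((hF x).sub (hW x)).continuousAt.continuousWithinAt
    · exact fun x _ => ((hF x).sub (hW x)).differentiableAt.differentiableWithinAt
    · intro x hx
      have e : deriv (fun t => F t - W t) x = F' x - W' x := ((hF x).sub (hW x)).deriv
      rw [e]
      have := (abs_le.1 (hle x (interior_subset hx))).2
      linarith
  have h2 : AntitoneOn (fun t => -F t - W t) (Icc a b) := by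
    apply antitoneOn_of_deriv_nonpos (convex_Icc a b)
    · exact fun x _ => ((hF x).neg.sub (hW x)).continuousAt.continuousWithinAt
    · exact fun x _ => ((hF x).neg.sub (hW x)).differentiableAt.differentiableWithinAt
    · intro x hx
      have e : deriv (fun t => -F t - W t) x = -F' x - W' x := ((hF x).neg.sub (hW x)).deriv
      rw [e]
      have := (abs_le.1 (hle x (interior_subset hx))).1
      linarith
  have h3 := h1 ⟨le_rfl, hab⟩ ⟨hab, le_rfl⟩ hab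
  have h4 := h2 ⟨le_rfl, hab⟩ ⟨hab, le_rfl⟩ hab
  simp only at h3 h4
  rw [abs_le]
  constructor <;> linarith

theorem hasDerivAt_primitive {f : ℝ → ℝ} (hf : Continuous f) (a t : ℝ) :
    HasDerivAt (fun t => ∫ s in a..t, f s) (f t) t :=
  intervalIntegral.integral_hasDerivAt_right (hf.intervalIntegrable _ _)
    hf.aestronglyMeasurable.stronglyMeasurableAtFilter hf.continuousAt

theorem integral_vvM_le (h : Chr U Φ) {a b M : ℝ} (hab : a ≤ b)
    (hA : ∀ τ ∈ Icc a b, N4 U τ ≤ M ^ 4) :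
    ∫ s in a..b, (vv U s + M ^ 4) ≤ ((3 / 2) * (b - a) + 1) * M ^ 4 := by
  have h1 := integral_vv_le h hab hA
  rw [intervalIntegral.integral_add ((vv_continuous h).intervalIntegrable _ _)
    (continuous_const.intervalIntegrable _ _), intervalIntegral.integral_const]
  simp only [smul_eq_mul]
  nlinarith

theorem M_le {M : ℝ} (hM : 0 < M) (hM2 : M ^ 2 ≤ 1 / 10 ^ 10) : M ≤ 1 / 10 := by
  by_contra hc
  push Not at hc
  nlinarith

/-- while the windows stay small the quantity `N4` moves by at most `M^4/100`. -/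
theorem drift (h : Chr U Φ) {a b M : ℝ} {n : ℕ} (hn1 : 12 ≤ n) (hM : 0 < M)
    (hM2 : M ^ 2 ≤ 1 / 10 ^ 10) (hn : 5 * n * (2560 * M ^ 2) ≤ 1) (hab : a ≤ b)
    (hW : ∀ τ ∈ Icc a (b + 2 * n), N4 U τ ≤ M ^ 4) (hL : b - a ≤ 3 ^ n / 10 ^ 6) :
    |N4 U b - N4 U a| ≤ M ^ 4 / 100 := by
  have hn0 : (0:ℝ) ≤ n := Nat.cast_nonneg n
  have hM4 : 0 < M ^ 4 := by positivity
  have hsub : ∀ t ∈ Icc a b, ∀ τ ∈ Icc t (t + 2 * n), N4 U τ ≤ M ^ 4 := by
    intro t ht τ hτ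
    exact hW τ ⟨ht.1.trans hτ.1, hτ.2.trans (by linarith [ht.2])⟩
  have hnear : ∀ t ∈ Icc a b, |KK U Φ n t - (1 / 4) * N4 U t| ≤ 1100000 * M ^ 6 := fun t ht =>
    KK_near h (by omega) hM hn (hsub t ht)
  have hcont : Continuous (fun s => vv U s + M ^ 4) := (vv_continuous h).add continuous_const
  have hK : |KK U Φ n b - KK U Φ n a| ≤
      288 * (1 / 3) ^ n * ∫ s in a..b, (vv U s + M ^ 4) := by
    have := mono_bound (F := KK U Φ n) (F' := KD U n)
      (W := fun t => 288 * (1 / 3) ^ n * ∫ s in a..t, (vv U s + M ^ 4))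
      (W' := fun t => 288 * (1 / 3) ^ n * (vv U t + M ^ 4)) hab
      (fun t => KK_hasDerivAt h (by omega) t)
      (fun t => (hasDerivAt_primitive hcont a t).const_mul _)
      (fun t ht => KD_small h (by omega) hM hn (hsub t ht))
    simpa using this
  have hI := integral_vvM_le h hab (fun τ hτ => hW τ ⟨hτ.1, by linarith [hτ.2]⟩)
  have h3n : (3:ℝ) ^ 12 ≤ 3 ^ n := pow_le_pow_right₀ (by norm_num) hn1
  have h3p : (0:ℝ) < 3 ^ n := by positivity
  have hinv : ((1:ℝ) / 3) ^ n = 1 / 3 ^ n := by rw [div_pow, one_pow]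
  have hK2 : |KK U Φ n b - KK U Φ n a| ≤ M ^ 4 / 1000 := by
    refine hK.trans ?_
    have h5 : 288 * (1 / 3) ^ n * ∫ s in a..b, (vv U s + M ^ 4) ≤
        288 * (1 / 3) ^ n * (((3 / 2) * (b - a) + 1) * M ^ 4) := by
      apply mul_le_mul_of_nonneg_left hI
      positivity
    refine h5.trans ?_
    rw [hinv]
    have h6 : 288 * (1 / (3:ℝ) ^ n) * (3 / 2 * (b - a) + 1) ≤ 1 / 1000 := by
      rw [mul_one_div, div_mul_eq_mul_div, div_le_div_iff₀ h3p (by norm_num)]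
      norm_num at h3n
      nlinarith
    calc 288 * (1 / (3:ℝ) ^ n) * ((3 / 2 * (b - a) + 1) * M ^ 4)
        = (288 * (1 / (3:ℝ) ^ n) * (3 / 2 * (b - a) + 1)) * M ^ 4 := by ring
      _ ≤ 1 / 1000 * M ^ 4 := by gcongr
      _ = M ^ 4 / 1000 := by ring
  have h6 : 1100000 * M ^ 6 ≤ M ^ 4 / 5000 := by
    have : M ^ 6 = M ^ 2 * M ^ 4 := by ring
    rw [this]
    have h7 : M ^ 2 * M ^ 4 ≤ 1 / 10 ^ 10 * M ^ 4 := by gcongr
    norm_num at h7
    linarith
  have ha' := hnear a ⟨le_rfl, hab⟩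
  have hb' := hnear b ⟨hab, le_rfl⟩
  rw [abs_le] at ha' hb' hK2 ⊢
  constructor <;> linarith [ha'.1, ha'.2, hb'.1, hb'.2, hK2.1, hK2.2]

/-- on an interval of length at most `2 n` the quantity `N4` moves by at most `M^4/100`. -/
theorem short_drift (h : Chr U Φ) {a b M : ℝ} {n : ℕ} (hM : 0 < M)
    (hM2 : M ^ 2 ≤ 1 / 10 ^ 10) (hn : 5 * n * (2560 * M ^ 2) ≤ 1) (hab : a ≤ b)
    (hb : b ≤ a + 2 * n) (hW : ∀ τ ∈ Icc a b, N4 U τ ≤ M ^ 4) :
    |N4 U b - N4 U a| ≤ M ^ 4 / 100 := by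
  have hM4 : 0 < M ^ 4 := by positivity
  have hcont : Continuous (fun s => vv U s + M ^ 4) := (vv_continuous h).add continuous_const
  have hK : |N4 U b - N4 U a| ≤ 5 * M ^ 2 * ∫ s in a..b, (vv U s + M ^ 4) := by
    have := mono_bound (F := N4 U) (F' := fun t => vv U (t + 2) - vv U t)
      (W := fun t => 5 * M ^ 2 * ∫ s in a..t, (vv U s + M ^ 4))
      (W' := fun t => 5 * M ^ 2 * (vv U t + M ^ 4)) hab
      (fun t => N4_hasDerivAt h t)
      (fun t => (hasDerivAt_primitive hcont a t).const_mul _)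
      (fun t ht => vv_diff_le h hM (M_le hM hM2) (hW t ht))
    simpa using this
  have hI := integral_vvM_le h hab hW
  refine hK.trans ?_
  have h5 : 5 * M ^ 2 * ∫ s in a..b, (vv U s + M ^ 4) ≤
      5 * M ^ 2 * (((3 / 2) * (b - a) + 1) * M ^ 4) := by
    apply mul_le_mul_of_nonneg_left hI
    positivity
  refine h5.trans ?_
  have h6 : 5 * M ^ 2 * (3 / 2 * (b - a) + 1) ≤ 1 / 100 := by
    have h7 : 5 * M ^ 2 * (3 / 2 * (b - a) + 1) ≤ 5 * M ^ 2 * (3 / 2 * (2 * n) + 1) := by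
      have : b - a ≤ 2 * n := by linarith
      gcongr
    have h8 : 5 * M ^ 2 * (3 / 2 * (2 * n) + 1) = 15 * (n * M ^ 2) + 5 * M ^ 2 := by ring
    rw [h8] at h7
    have h9 : (n:ℝ) * M ^ 2 ≤ 1 / 12800 := by linarith
    norm_num at hM2
    linarith
  calc 5 * M ^ 2 * (((3 / 2) * (b - a) + 1) * M ^ 4)
      = (5 * M ^ 2 * (3 / 2 * (b - a) + 1)) * M ^ 4 := by ring
    _ ≤ 1 / 100 * M ^ 4 := by gcongr
    _ = M ^ 4 / 100 := by ring

/-- `N4 t₀ = η^4 = M^4 / 16`. All windows starting in `[t₀, t₀ + L]` have `N4 < M^4`. -/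
theorem epoch_upper (h : Chr U Φ) {t₀ M L : ℝ} {n : ℕ} (hn1 : 12 ≤ n) (hM : 0 < M)
    (hM2 : M ^ 2 ≤ 1 / 10 ^ 10) (hn : 5 * n * (2560 * M ^ 2) ≤ 1)
    (h0 : N4 U t₀ = M ^ 4 / 16) (hL : L ≤ 3 ^ n / 10 ^ 6) :
    ∀ s ∈ Icc t₀ (t₀ + L), N4 U s < M ^ 4 := by
  by_contra hcon
  push Not at hcon
  obtain ⟨s₀, hs₀, hs₀'⟩ := hcon
  have hM4 : 0 < M ^ 4 := by positivity
  have hcN : Continuous (N4 U) := continuous_iff_continuousAt.2 fun t =>
    (N4_hasDerivAt h t).continuousAt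
  set S : Set ℝ := Icc t₀ s₀ ∩ {s | M ^ 4 ≤ N4 U s} with hS
  have hSc : IsCompact S := isCompact_Icc.inter_right (isClosed_le continuous_const hcN)
  have hSne : S.Nonempty := ⟨s₀, ⟨hs₀.1, le_rfl⟩, hs₀'⟩
  obtain ⟨τ, hτS, hτmin⟩ := hSc.exists_isLeast hSne
  have hτ1 : t₀ ≤ τ := hτS.1.1
  have hτ2 : τ ≤ t₀ + L := hτS.1.2.trans hs₀.2
  have hτ3 : M ^ 4 ≤ N4 U τ := hτS.2
  have hne : t₀ ≠ τ := by
    intro he
    rw [← he, h0] at hτ3
    linarith
  have hlt : t₀ < τ := lt_of_le_of_ne hτ1 hne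
  have hbefore : ∀ s ∈ Ico t₀ τ, N4 U s < M ^ 4 := by
    intro s hs
    by_contra hc
    push Not at hc
    have : τ ≤ s := hτmin ⟨⟨hs.1, hs.2.le.trans hτS.1.2⟩, hc⟩
    linarith [hs.2]
  have hle : ∀ s ∈ Icc t₀ τ, N4 U s ≤ M ^ 4 := by
    have hcl : closure (Ico t₀ τ) = Icc t₀ τ := closure_Ico hne
    intro s hs
    rw [← hcl] at hs
    have hsub : Ico t₀ τ ⊆ {s | N4 U s ≤ M ^ 4} := fun x hx => (hbefore x hx).le
    exact (closure_minimal hsub (isClosed_le hcN continuous_const)) hs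
  -- the intermediate time
  set s' : ℝ := max t₀ (τ - 2 * n) with hs'
  have hn0 : (0:ℝ) ≤ n := Nat.cast_nonneg n
  have hs1 : t₀ ≤ s' := le_max_left _ _
  have hs2 : s' ≤ τ := max_le hτ1 (by linarith)
  have hs3 : τ ≤ s' + 2 * n := by
    have := le_max_right t₀ (τ - 2 * n)
    linarith
  have hA : |N4 U s' - N4 U t₀| ≤ M ^ 4 / 100 := by
    rcases le_total (τ - 2 * n) t₀ with hc | hc
    · have : s' = t₀ := max_eq_left hc
      rw [this]
      simp only [sub_self, abs_zero]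
      positivity
    · have he : s' = τ - 2 * n := max_eq_right hc
      apply drift h hn1 hM hM2 hn hs1
      · intro σ hσ
        exact hle σ ⟨hσ.1, by rw [he] at hσ; linarith [hσ.2]⟩
      · linarith
  have hB : |N4 U τ - N4 U s'| ≤ M ^ 4 / 100 :=
    short_drift h hM hM2 hn hs2 hs3 (fun σ hσ => hle σ ⟨hs1.trans hσ.1, hσ.2⟩)
  rw [abs_le] at hA hB
  rw [h0] at hA
  linarith [hA.2, hB.2]

theorem epoch_lower (h : Chr U Φ) {t₀ M L : ℝ} {n : ℕ} (hn1 : 12 ≤ n) (hM : 0 < M)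
    (hM2 : M ^ 2 ≤ 1 / 10 ^ 10) (hn : 5 * n * (2560 * M ^ 2) ≤ 1)
    (h0 : N4 U t₀ = M ^ 4 / 16) (hL : L ≤ 3 ^ n / 10 ^ 6) :
    ∀ s, t₀ ≤ s → s + 2 * n ≤ t₀ + L → M ^ 4 / 32 ≤ N4 U s := by
  intro s hs1 hs2
  have hM4 : 0 < M ^ 4 := by positivity
  have hn0 : (0:ℝ) ≤ n := Nat.cast_nonneg n
  have hup := epoch_upper h hn1 hM hM2 hn h0 hL
  have hd : |N4 U s - N4 U t₀| ≤ M ^ 4 / 100 := by
    apply drift h hn1 hM hM2 hn hs1
    · intro σ hσ
      exact (hup σ ⟨hσ.1, hσ.2.trans hs2⟩).le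
    · linarith
  rw [abs_le, h0] at hd
  linarith [hd.1]

end Pool.MP_1df64d_an
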