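import Pool.Agent.Lib_MP_1df64d_an.Transp

/-! MP_1df64d_an, piece Ext: odd 2-periodic extension. -/

open MeasureTheory Filter Topology Set

namespace Pool.MP_1df64d_an

/-- folding map onto `[0,1]`. -/
noncomputable def fold (x : ℝ) : ℝ := Real.arccos (Real.cos (Real.pi * x)) / Real.pi

theorem fold_mem (x : ℝ) : fold x ∈ Icc (0:ℝ) 1 := by
  unfold fold
  constructor
  · exact div_nonneg (Real.arccos_nonneg _) Real.pi_pos.le
  · rw [div_le_one Real.pi_pos]; exact Real.arccos_le_pi _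

theorem fold_continuous : Continuous fold := by
  unfold fold
  exact (Real.continuous_arccos.comp (Real.continuous_cos.comp (continuous_const.mul continuous_id))).div_const _

theorem fold_of_mem {x : ℝ} (hx : x ∈ Icc (0:ℝ) 1) : fold x = x := by
  unfold fold
  rw [Real.arccos_cos (mul_nonneg Real.pi_pos.le hx.1)
    (by nlinarith [Real.pi_pos, hx.2])]
  field_simp

theorem fold_neg (x : ℝ) : fold (-x) = fold x := by
  unfold fold
  rw [mul_neg, Real.cos_neg]

theorem fold_add_two (x : ℝ) : fold (x + 2) = fold x := by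
  unfold fold
  have : Real.pi * (x + 2) = Real.pi * x + 2 * Real.pi := by ring
  rw [this, Real.cos_add_two_pi]

theorem fold_of_sin {x : ℝ} (hx : Real.sin (Real.pi * x) = 0) : fold x = 0 ∨ fold x = 1 := by
  have h1 := Real.sin_sq_add_cos_sq (Real.pi * x)
  rw [hx] at h1
  have h2 : (Real.cos (Real.pi * x) - 1) * (Real.cos (Real.pi * x) + 1) = 0 := by nlinarith
  unfold fold
  rcases mul_eq_zero.1 h2 with h | h
  · left
    have : Real.cos (Real.pi * x) = 1 := by linarith
    rw [this, Real.arccos_one, zero_div]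
  · right
    have : Real.cos (Real.pi * x) = -1 := by linarith
    rw [this, Real.arccos_neg_one, div_self Real.pi_ne_zero]

/-- odd 2-periodic extension. -/
noncomputable def oext (u : ℝ → ℝ → ℝ) (t x : ℝ) : ℝ :=
  if 0 ≤ Real.sin (Real.pi * x) then u t (fold x) else -u t (fold x)

/-- even 2-periodic extension. -/
noncomputable def eext (f : ℝ → ℝ → ℝ) (t x : ℝ) : ℝ := f t (fold x)

theorem comp_fold_continuous {u : ℝ → ℝ → ℝ}
    (hu : ContinuousOn (Function.uncurry u) (univ ×ˢ Icc (0:ℝ) 1)) :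
    Continuous (fun p : ℝ × ℝ => u p.1 (fold p.2)) := by
  have h1 : Continuous (fun p : ℝ × ℝ => (p.1, fold p.2)) :=
    continuous_fst.prodMk (fold_continuous.comp continuous_snd)
  exact hu.comp_continuous h1 (fun p => ⟨trivial, fold_mem p.2⟩)

theorem oext_continuous {u : ℝ → ℝ → ℝ}
    (hu : ContinuousOn (Function.uncurry u) (univ ×ˢ Icc (0:ℝ) 1))
    (u0 : ∀ t, u t 0 = 0) (u1 : ∀ t, u t 1 = 0) : Continuous (Function.uncurry (oext u)) := by
  have h1 := comp_fold_continuous hu
  have h2 : Continuous (fun p : ℝ × ℝ => if (0:ℝ) ≤ Real.sin (Real.pi * p.2) then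
      u p.1 (fold p.2) else -u p.1 (fold p.2)) := by
    apply Continuous.if_le h1 h1.neg continuous_const
      (Real.continuous_sin.comp (continuous_const.mul continuous_snd))
    intro p hp
    have h0 : u p.1 (fold p.2) = 0 := by
      rcases fold_of_sin hp.symm with h | h
      · rw [h, u0]
      · rw [h, u1]
    simp only [Pi.neg_apply]
    rw [h0, neg_zero]
  exact h2

theorem oext_of_mem {u : ℝ → ℝ → ℝ} (t : ℝ) {x : ℝ} (hx : x ∈ Icc (0:ℝ) 1) :
    oext u t x = u t x := by
  unfold oext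
  rw [if_pos (Real.sin_nonneg_of_nonneg_of_le_pi (mul_nonneg Real.pi_pos.le hx.1)
    (by nlinarith [Real.pi_pos, hx.2])), fold_of_mem hx]

theorem eext_of_mem {f : ℝ → ℝ → ℝ} (t : ℝ) {x : ℝ} (hx : x ∈ Icc (0:ℝ) 1) :
    eext f t x = f t x := by
  unfold eext
  rw [fold_of_mem hx]

theorem oext_neg {u : ℝ → ℝ → ℝ} (u0 : ∀ t, u t 0 = 0) (u1 : ∀ t, u t 1 = 0) (t x : ℝ) :
    oext u t (-x) = -oext u t x := by
  unfold oext
  rw [fold_neg, mul_neg, Real.sin_neg]
  rcases lt_trichotomy (Real.sin (Real.pi * x)) 0 with h | h | h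
  · rw [if_pos (by linarith), if_neg (by linarith)]; ring
  · have h0 : u t (fold x) = 0 := by
      rcases fold_of_sin h with h' | h'
      · rw [h', u0]
      · rw [h', u1]
    rw [h0]; simp
  · rw [if_neg (by linarith), if_pos h.le]

theorem oext_add_two (u : ℝ → ℝ → ℝ) (t x : ℝ) : oext u t (x + 2) = oext u t x := by
  unfold oext
  have : Real.pi * (x + 2) = Real.pi * x + 2 * Real.pi := by ring
  rw [fold_add_two, this, Real.sin_add_two_pi]

theorem eext_neg (f : ℝ → ℝ → ℝ) (t x : ℝ) : eext f t (-x) = eext f t x := by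
  unfold eext; rw [fold_neg]

theorem eext_add_two (f : ℝ → ℝ → ℝ) (t x : ℝ) : eext f t (x + 2) = eext f t x := by
  unfold eext; rw [fold_add_two]

theorem integral_neg_zero_aux (F : ℝ → ℝ) (b : ℝ) :
    ∫ x in (0:ℝ)..(-b), F x = -∫ x in (0:ℝ)..b, F (-x) := by
  rw [intervalIntegral.integral_comp_neg, neg_zero, intervalIntegral.integral_symm]

/-- the transport defect vanishes for the extension. -/
theorem defect_zero {U V : ℝ → ℝ → ℝ} (hU : Continuous (Function.uncurry U))
    (hV : Continuous (Function.uncurry V)) (Uodd : ∀ t x, U t (-x) = -U t x)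
    (Uper : ∀ t x, U t (x + 2) = U t x) (Veven : ∀ t x, V t (-x) = V t x)
    (Vper : ∀ t x, V t (x + 2) = V t x) (s t : ℝ)
    (I1 : ∀ b ∈ Icc (0:ℝ) 1, ∫ x in (0:ℝ)..b, (U t x - U s x) = ∫ τ in s..t, (V τ b - V τ 0))
    (I2 : ∀ b ∈ Icc (0:ℝ) 1, ∫ x in (0:ℝ)..b, (V t x - V s x) =
        (∫ τ in s..t, (U τ b - U τ 0))
          - ∫ τ in s..t, ∫ x in (0:ℝ)..b, (∫ z in (0:ℝ)..x, U τ z ^ 3)) (a b : ℝ) :
    ∫ x in a..b, ((V t x + U t x) - (V s x + U s x)) =
      (∫ τ in s..t, ((V τ b + U τ b) - (V τ a + U τ a)))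
        - ∫ τ in s..t, ∫ x in a..b, (∫ z in (0:ℝ)..x, U τ z ^ 3) := by
  -- continuity of slices
  have Ux : ∀ t, Continuous (U t) := fun t => hU.comp (by fun_prop : Continuous fun x : ℝ => (t, x))
  have Vx : ∀ t, Continuous (V t) := fun t => hV.comp (by fun_prop : Continuous fun x : ℝ => (t, x))
  have Ut : ∀ x, Continuous (fun τ => U τ x) :=
    fun x => hU.comp (by fun_prop : Continuous fun τ : ℝ => (τ, x))
  have Vt : ∀ x, Continuous (fun τ => V τ x) :=
    fun x => hV.comp (by fun_prop : Continuous fun τ : ℝ => (τ, x))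
  have cV : Continuous (fun x => V t x - V s x) := (Vx t).sub (Vx s)
  have cU : Continuous (fun x => U t x - U s x) := (Ux t).sub (Ux s)
  have cVt : ∀ b, Continuous (fun τ => V τ b - V τ 0) := fun b => (Vt b).sub (Vt 0)
  have cUt : ∀ b, Continuous (fun τ => U τ b - U τ 0) := fun b => (Ut b).sub (Ut 0)
  set G : ℝ → ℝ → ℝ := fun τ x => ∫ z in (0:ℝ)..x, U τ z ^ 3 with hG
  have hGc : Continuous (Function.uncurry G) := by
    have h1 : Continuous (Function.uncurry fun (p : ℝ × ℝ) (z : ℝ) => U p.1 z ^ 3) := by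
      have : Continuous (fun q : (ℝ × ℝ) × ℝ => Function.uncurry U (q.1.1, q.2)) :=
        hU.comp (by fun_prop)
      exact this.pow 3
    have := intervalIntegral.continuous_parametric_intervalIntegral_of_continuous (μ := volume)
      (a₀ := (0:ℝ)) h1 (s := fun p : ℝ × ℝ => p.2) continuous_snd
    exact this
  have Gx : ∀ t, Continuous (G t) := fun t => hGc.comp (by fun_prop : Continuous fun x : ℝ => (t, x))
  have GI : ∀ a b : ℝ, Continuous (fun τ => ∫ x in a..b, G τ x) := fun a b =>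
    intervalIntegral.continuous_parametric_intervalIntegral_of_continuous' hGc a b
  have Godd3 : ∀ τ x, G τ (-x) = G τ x := by
    intro τ x
    simp only [hG]
    rw [integral_neg_zero_aux]
    have : (fun z => U τ (-z) ^ 3) = fun z => -(U τ z ^ 3) := by
      funext z; rw [Uodd]; ring
    rw [show (∫ z in (0:ℝ)..x, U τ (-z) ^ 3) = ∫ z in (0:ℝ)..x, -(U τ z ^ 3) from by rw [this],
      intervalIntegral.integral_neg, neg_neg]
  have U3per : ∀ τ, Function.Periodic (fun z => U τ z ^ 3) 2 := by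
    intro τ z
    simp only [Uper]
  have Gper : ∀ τ x, G τ (x + 2) = G τ x := by
    intro τ x
    have h1 : (∫ z in (0:ℝ)..(x + 2), U τ z ^ 3) =
        (∫ z in (0:ℝ)..x, U τ z ^ 3) + ∫ z in x..(x + 2), U τ z ^ 3 :=
      (intervalIntegral.integral_add_adjacent_intervals (((Ux τ).pow 3).intervalIntegrable _ _)
        (((Ux τ).pow 3).intervalIntegrable _ _)).symm
    have h2 : (∫ z in x..(x + 2), U τ z ^ 3) = ∫ z in (-1:ℝ)..(-1 + 2), U τ z ^ 3 :=
      (U3per τ).intervalIntegral_add_eq x (-1)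
    have h3 : (∫ z in (-1:ℝ)..(-1 + 2), U τ z ^ 3) = 0 := by
      have e : (-1:ℝ) + 2 = 1 := by norm_num
      rw [e]
      have h4 : ∫ z in (-1:ℝ)..1, U τ (-z) ^ 3 = ∫ z in (-1:ℝ)..1, U τ z ^ 3 := by
        have := intervalIntegral.integral_comp_neg (a := (-1:ℝ)) (b := 1) (fun z => U τ z ^ 3)
        simpa using this
      have h5 : ∫ z in (-1:ℝ)..1, U τ (-z) ^ 3 = -∫ z in (-1:ℝ)..1, U τ z ^ 3 := by
        rw [← intervalIntegral.integral_neg]
        congr 1
        funext z
        rw [Uodd]; ring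
      linarith
    simp only [hG]
    rw [h1, h2, h3, add_zero]
  -- the defect
  set D : ℝ → ℝ := fun b => (∫ x in (0:ℝ)..b, ((V t x + U t x) - (V s x + U s x)))
    - (∫ τ in s..t, ((V τ b + U τ b) - (V τ 0 + U τ 0)))
    + ∫ τ in s..t, ∫ x in (0:ℝ)..b, G τ x with hD
  have Sx : Continuous (fun x => (V t x + U t x) - (V s x + U s x)) :=
    ((Vx t).add (Ux t)).sub ((Vx s).add (Ux s))
  have St : ∀ a b : ℝ, Continuous (fun τ => (V τ b + U τ b) - (V τ a + U τ a)) := fun a b =>
    ((Vt b).add (Ut b)).sub ((Vt a).add (Ut a))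
  have Dsub : ∀ a b, D b - D a = (∫ x in a..b, ((V t x + U t x) - (V s x + U s x)))
    - (∫ τ in s..t, ((V τ b + U τ b) - (V τ a + U τ a)))
    + ∫ τ in s..t, ∫ x in a..b, G τ x := by
    intro a b
    simp only [hD]
    have e1 : (∫ x in a..b, ((V t x + U t x) - (V s x + U s x))) =
        (∫ x in (0:ℝ)..b, ((V t x + U t x) - (V s x + U s x)))
        - ∫ x in (0:ℝ)..a, ((V t x + U t x) - (V s x + U s x)) :=
      (intervalIntegral.integral_interval_sub_left (Sx.intervalIntegrable _ _)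
        (Sx.intervalIntegrable _ _)).symm
    have e2 : (∫ τ in s..t, ((V τ b + U τ b) - (V τ a + U τ a))) =
        (∫ τ in s..t, ((V τ b + U τ b) - (V τ 0 + U τ 0)))
        - ∫ τ in s..t, ((V τ a + U τ a) - (V τ 0 + U τ 0)) := by
      rw [← intervalIntegral.integral_sub ((St 0 b).intervalIntegrable _ _)
        ((St 0 a).intervalIntegrable _ _)]
      congr 1
      funext τ
      ring
    have e3 : (∫ τ in s..t, ∫ x in a..b, G τ x) =
        (∫ τ in s..t, ∫ x in (0:ℝ)..b, G τ x) - ∫ τ in s..t, ∫ x in (0:ℝ)..a, G τ x := by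
      rw [← intervalIntegral.integral_sub ((GI 0 b).intervalIntegrable _ _)
        ((GI 0 a).intervalIntegrable _ _)]
      congr 1
      funext τ
      exact (intervalIntegral.integral_interval_sub_left ((Gx τ).intervalIntegrable _ _)
        ((Gx τ).intervalIntegrable _ _)).symm
    rw [e1, e2, e3]
    ring
  have Dpos : ∀ b ∈ Icc (0:ℝ) 1, D b = 0 := by
    intro b hb
    simp only [hD]
    have i1 := I1 b hb
    have i2 := I2 b hb
    have e1 : (∫ x in (0:ℝ)..b, ((V t x + U t x) - (V s x + U s x))) =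
        (∫ x in (0:ℝ)..b, (V t x - V s x)) + ∫ x in (0:ℝ)..b, (U t x - U s x) := by
      rw [← intervalIntegral.integral_add (cV.intervalIntegrable _ _)
        (cU.intervalIntegrable _ _)]
      congr 1
      funext x
      ring
    have e2 : (∫ τ in s..t, ((V τ b + U τ b) - (V τ 0 + U τ 0))) =
        (∫ τ in s..t, (V τ b - V τ 0)) + ∫ τ in s..t, (U τ b - U τ 0) := by
      rw [← intervalIntegral.integral_add ((cVt b).intervalIntegrable _ _)
        ((cUt b).intervalIntegrable _ _)]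
      congr 1
      funext τ
      ring
    rw [e1, e2, i1, i2]
    ring
  have Dneg : ∀ b ∈ Icc (0:ℝ) 1, D (-b) = 0 := by
    intro b hb
    simp only [hD]
    have i1 := I1 b hb
    have i2 := I2 b hb
    have U0 : ∀ τ, U τ 0 = 0 := by
      intro τ
      have := Uodd τ 0
      rw [neg_zero] at this
      linarith
    have e1 : (∫ x in (0:ℝ)..(-b), ((V t x + U t x) - (V s x + U s x))) =
        -((∫ x in (0:ℝ)..b, (V t x - V s x)) - ∫ x in (0:ℝ)..b, (U t x - U s x)) := by
      rw [integral_neg_zero_aux,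
        ← intervalIntegral.integral_sub (cV.intervalIntegrable _ _)
        (cU.intervalIntegrable _ _)]
      congr 2
      funext x
      rw [Veven, Veven, Uodd, Uodd]
      ring
    have e2 : (∫ τ in s..t, ((V τ (-b) + U τ (-b)) - (V τ 0 + U τ 0))) =
        (∫ τ in s..t, (V τ b - V τ 0)) - ∫ τ in s..t, (U τ b - U τ 0) := by
      rw [← intervalIntegral.integral_sub ((cVt b).intervalIntegrable _ _)
        ((cUt b).intervalIntegrable _ _)]
      congr 1
      funext τ
      rw [Veven, Uodd, U0]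
      ring
    have e3 : (∫ τ in s..t, ∫ x in (0:ℝ)..(-b), G τ x) =
        -∫ τ in s..t, ∫ x in (0:ℝ)..b, G τ x := by
      rw [← intervalIntegral.integral_neg]
      congr 1
      funext τ
      rw [integral_neg_zero_aux]
      congr 2
      funext x
      exact Godd3 τ x
    rw [e1, e2, e3, i1, i2]
    ring
  have Dper : Function.Periodic D 2 := by
    intro b
    have h1 := Dsub b (b + 2)
    have h2 := Dsub (-1) (-1 + 2)
    have pS : Function.Periodic (fun x => (V t x + U t x) - (V s x + U s x)) 2 := by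
      intro x
      simp only [Vper, Uper]
    have pG : ∀ τ, Function.Periodic (G τ) 2 := fun τ x => Gper τ x
    have e1 := pS.intervalIntegral_add_eq b (-1)
    have e2 : (∫ τ in s..t, ((V τ (b + 2) + U τ (b + 2)) - (V τ b + U τ b))) =
        ∫ τ in s..t, ((V τ (-1 + 2) + U τ (-1 + 2)) - (V τ (-1) + U τ (-1))) := by
      congr 1
      funext τ
      rw [Vper, Uper, Vper, Uper]
      ring
    have e3 : (∫ τ in s..t, ∫ x in b..(b + 2), G τ x) =
        ∫ τ in s..t, ∫ x in (-1:ℝ)..(-1 + 2), G τ x := by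
      congr 1
      funext τ
      exact (pG τ).intervalIntegral_add_eq b (-1)
    rw [e1, e2, e3, ← h2] at h1
    have e : (-1:ℝ) + 2 = 1 := by norm_num
    rw [e, Dpos 1 ⟨zero_le_one, le_rfl⟩, Dneg 1 ⟨zero_le_one, le_rfl⟩] at h1
    linarith
  have Dz : ∀ b, D b = 0 := by
    intro b
    obtain ⟨y, hy, hb⟩ := Dper.exists_mem_Ico (by norm_num : (0:ℝ) < 2) b (-1)
    rw [hb]
    rcases le_total 0 y with h | h
    · exact Dpos y ⟨h, by linarith [hy.2]⟩
    · have := Dneg (-y) ⟨by linarith, by linarith [hy.1]⟩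
      rwa [neg_neg] at this
  have h1 := Dsub a b
  rw [Dz a, Dz b] at h1
  linarith

/-- `U` = odd 2-periodic extension of `u`, `f~` = even 2-periodic extension of `f`,
`S = f~ + U`, `Φ t y = S t (y - t)`, use `transport` with `G t x = ∫_0^x U^3`. -/
theorem ext_chr {u f : ℝ → ℝ → ℝ}
    (hu : ContinuousOn (Function.uncurry u) (univ ×ˢ Icc (0:ℝ) 1))
    (hf : ContinuousOn (Function.uncurry f) (univ ×ˢ Icc (0:ℝ) 1))
    (u0 : ∀ t, u t 0 = 0) (u1 : ∀ t, u t 1 = 0)
    (I1 : ∀ s t : ℝ, ∀ a ∈ Icc (0:ℝ) 1, ∀ b ∈ Icc (0:ℝ) 1,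
      ∫ x in a..b, (u t x - u s x) = ∫ τ in s..t, (f τ b - f τ a))
    (I2 : ∀ s t : ℝ, ∀ a ∈ Icc (0:ℝ) 1, ∀ b ∈ Icc (0:ℝ) 1,
      ∫ x in a..b, (f t x - f s x) =
        (∫ τ in s..t, (u τ b - u τ a))
          - ∫ τ in s..t, ∫ x in a..b, (∫ z in (0:ℝ)..x, u τ z ^ 3)) :
    ∃ U Φ : ℝ → ℝ → ℝ, Chr U Φ ∧ ∀ t, ∀ x ∈ Icc (0:ℝ) 1, U t x = u t x := by
  have hU := oext_continuous hu u0 u1
  have hV : Continuous (Function.uncurry (eext f)) := comp_fold_continuous hf
  have hS : Continuous (Function.uncurry fun t x => eext f t x + oext u t x) := hV.add hU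
  have m0 : (0:ℝ) ∈ Icc (0:ℝ) 1 := ⟨le_rfl, zero_le_one⟩
  have sub : ∀ b ∈ Icc (0:ℝ) 1, ∀ x ∈ uIcc (0:ℝ) b, x ∈ Icc (0:ℝ) 1 := by
    intro b hb x hx
    rw [uIcc_of_le hb.1] at hx
    exact ⟨hx.1, hx.2.trans hb.2⟩
  have J1 : ∀ s t : ℝ, ∀ b ∈ Icc (0:ℝ) 1,
      ∫ x in (0:ℝ)..b, (oext u t x - oext u s x) = ∫ τ in s..t, (eext f τ b - eext f τ 0) := by
    intro s t b hb
    have h1 := I1 s t 0 m0 b hb
    have h2 : ∫ x in (0:ℝ)..b, (oext u t x - oext u s x) = ∫ x in (0:ℝ)..b, (u t x - u s x) := by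
      apply intervalIntegral.integral_congr
      intro x hx
      simp only
      rw [oext_of_mem t (sub b hb x hx), oext_of_mem s (sub b hb x hx)]
    rw [h2, h1]
    congr 1
    funext τ
    rw [eext_of_mem τ hb, eext_of_mem τ m0]
  have J2 : ∀ s t : ℝ, ∀ b ∈ Icc (0:ℝ) 1,
      ∫ x in (0:ℝ)..b, (eext f t x - eext f s x) =
        (∫ τ in s..t, (oext u τ b - oext u τ 0))
          - ∫ τ in s..t, ∫ x in (0:ℝ)..b, (∫ z in (0:ℝ)..x, oext u τ z ^ 3) := by
    intro s t b hb
    have h1 := I2 s t 0 m0 b hb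
    have h2 : ∫ x in (0:ℝ)..b, (eext f t x - eext f s x) = ∫ x in (0:ℝ)..b, (f t x - f s x) := by
      apply intervalIntegral.integral_congr
      intro x hx
      simp only
      rw [eext_of_mem t (sub b hb x hx), eext_of_mem s (sub b hb x hx)]
    have h3 : (∫ τ in s..t, (oext u τ b - oext u τ 0)) = ∫ τ in s..t, (u τ b - u τ 0) := by
      congr 1
      funext τ
      rw [oext_of_mem τ hb, oext_of_mem τ m0]
    have h4 : (∫ τ in s..t, ∫ x in (0:ℝ)..b, (∫ z in (0:ℝ)..x, oext u τ z ^ 3)) =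
        ∫ τ in s..t, ∫ x in (0:ℝ)..b, (∫ z in (0:ℝ)..x, u τ z ^ 3) := by
      congr 1
      funext τ
      apply intervalIntegral.integral_congr
      intro x hx
      simp only
      apply intervalIntegral.integral_congr
      intro z hz
      simp only
      rw [oext_of_mem τ (sub x (sub b hb x hx) z hz)]
    rw [h2, h1, h3, h4]
  have hdef := fun s t a b => defect_zero hU hV (oext_neg u0 u1) (oext_add_two u) (eext_neg f)
    (eext_add_two f) s t (J1 s t) (J2 s t) a b
  have hGc : Continuous (Function.uncurry fun (τ x : ℝ) => ∫ z in (0:ℝ)..x, oext u τ z ^ 3) := by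
    have h1 : Continuous (Function.uncurry fun (p : ℝ × ℝ) (z : ℝ) => oext u p.1 z ^ 3) := by
      have : Continuous (fun q : (ℝ × ℝ) × ℝ => Function.uncurry (oext u) (q.1.1, q.2)) :=
        hU.comp (by fun_prop)
      exact this.pow 3
    have := intervalIntegral.continuous_parametric_intervalIntegral_of_continuous (μ := volume)
      (a₀ := (0:ℝ)) h1 (s := fun p : ℝ × ℝ => p.2) continuous_snd
    exact this
  refine ⟨oext u, fun t y => eext f t (y - t) + oext u t (y - t), ?_, fun t x hx => oext_of_mem t hx⟩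
  refine ⟨hU, ?_, oext_neg u0 u1, oext_add_two u, ?_, ?_, ?_⟩
  · have : Continuous (fun p : ℝ × ℝ =>
        Function.uncurry (fun t x => eext f t x + oext u t x) (p.1, p.2 - p.1)) :=
      hS.comp (by fun_prop)
    exact this
  · intro t y
    have : y + 2 - t = (y - t) + 2 := by ring
    simp only [this, eext_add_two, oext_add_two]
  · intro t x
    have e1 : t + x - t = x := by ring
    have e2 : t - x - t = -x := by ring
    simp only [e1, e2, eext_neg, oext_neg u0 u1]
    ring
  · intro s t y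
    exact transport (S := fun t x => eext f t x + oext u t x)
      (G := fun τ x => ∫ z in (0:ℝ)..x, oext u τ z ^ 3) hS hGc hdef s t y

end Pool.MP_1df64d_an
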