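import Pool.Agent.Lib_MP_1df64d_an.Test

/-! MP_1df64d_an, piece Ptw: the two integrated first order equations. -/

open MeasureTheory Filter Topology Set

namespace Pool.MP_1df64d_an

variable {u ux v : ℝ → ℝ → ℝ}

namespace Ptw

/-- integrability on all slabs -/
def Slab (w : ℝ → ℝ → ℝ) : Prop := ∀ a b : ℝ, Integrable (Function.uncurry w)
      ((volume.restrict (Ioc a b)).prod (volume.restrict (Ioc (0:ℝ) 1)))

lemma Slab.on {w : ℝ → ℝ → ℝ} (hw : Slab w) (s t : ℝ) {a b : ℝ} (ha : a ∈ Icc (0:ℝ) 1)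
    (hb : b ∈ Icc (0:ℝ) 1) : IntegrableOn (Function.uncurry w) (uIoc s t ×ˢ uIoc a b) := by
  have h1 := hw (min s t) (max s t)
  rw [Measure.prod_restrict] at h1
  refine IntegrableOn.mono_set h1 (prod_mono le_rfl ?_)
  intro x hx
  exact ⟨(le_min ha.1 hb.1).trans_lt hx.1, hx.2.trans (max_le ha.2 hb.2)⟩

lemma Slab.mul {w : ℝ → ℝ → ℝ} (hw : Slab w) {g : ℝ → ℝ} (hg : Continuous g) {C : ℝ}
    (hC : ∀ x, |g x| ≤ C) : Slab (fun τ x => w τ x * g x) := by
  intro a b
  exact (hw a b).mul_bdd ((hg.comp continuous_snd).aestronglyMeasurable)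
    (ae_of_all _ fun z => hC z.2)

lemma Slab.swap {w : ℝ → ℝ → ℝ} (hw : Slab w) (s t : ℝ) {a b : ℝ} (ha : a ∈ Icc (0:ℝ) 1)
    (hb : b ∈ Icc (0:ℝ) 1) :
    ∫ τ in s..t, ∫ x in a..b, w τ x = ∫ x in a..b, ∫ τ in s..t, w τ x :=
  intervalIntegral_intervalIntegral_swap (hw.on s t ha hb)

lemma Slab.int_right {w : ℝ → ℝ → ℝ} (hw : Slab w) (s t : ℝ) :
    IntervalIntegrable (fun x => ∫ τ in s..t, w τ x) volume 0 1 := by
  rw [intervalIntegrable_iff_integrableOn_Ioc_of_le zero_le_one]
  have h1 := (hw (min s t) (max s t)).integral_prod_right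
  simp_rw [intervalIntegral.intervalIntegral_eq_integral_uIoc]
  exact h1.smul (if s ≤ t then (1:ℝ) else -1)

lemma Slab.int_left {w : ℝ → ℝ → ℝ} (hw : Slab w) (s t : ℝ) :
    IntervalIntegrable (fun τ => ∫ x in (0:ℝ)..1, w τ x) volume s t := by
  rw [intervalIntegrable_iff]
  have h1 := (hw (min s t) (max s t)).integral_prod_left
  simp_rw [intervalIntegral.integral_of_le zero_le_one]
  exact h1

lemma slab_of_cont {w : ℝ → ℝ → ℝ} (hw : Continuous (Function.uncurry w)) : Slab w := by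
  intro a b
  rw [Measure.prod_restrict, ← Measure.volume_eq_prod]
  exact (hw.integrableOn_Icc (a := (a, (0:ℝ))) (b := (b, 1))).mono_set (by
    rw [← Icc_prod_Icc]
    exact prod_mono Ioc_subset_Icc_self Ioc_subset_Icc_self)

lemma eq_zero_of_supp {X : ℝ → ℝ} (hXs : tsupport X ⊆ Ioo (0:ℝ) 1) : X 0 = 0 ∧ X 1 = 0 := by
  constructor
  · by_contra h
    exact lt_irrefl _ (hXs (subset_tsupport X h)).1
  · by_contra h
    exact lt_irrefl _ (hXs (subset_tsupport X h)).2

/-- integration by parts against a test function -/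
lemma byparts {f X : ℝ → ℝ} (hf : IntervalIntegrable f volume 0 1)
    (hX : ContDiff ℝ ((⊤ : ℕ∞) : WithTop ℕ∞) X) (hXs : tsupport X ⊆ Ioo (0:ℝ) 1) :
    ∫ x in (0:ℝ)..1, f x * X x = -∫ x in (0:ℝ)..1, (∫ y in (0:ℝ)..x, f y) * deriv X x := by
  have h0 : (0:ℝ) ∈ uIcc (0:ℝ) 1 := left_mem_uIcc
  have hF := hf.absolutelyContinuousOnInterval_intervalIntegral h0
  have hX1 : ContDiff ℝ 1 X := hX.of_le (by exact_mod_cast le_top)
  have hXA : AbsolutelyContinuousOnInterval X 0 1 :=
    (hX1.contDiffOn).absolutelyContinuousOnInterval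
  have h1 := hF.integral_mul_deriv_eq_deriv_mul hXA
  obtain ⟨e0, e1⟩ := eq_zero_of_supp hXs
  rw [h1, e0, e1]
  simp only [mul_zero, sub_zero, zero_sub, neg_neg]
  apply intervalIntegral.integral_congr_ae
  filter_upwards [hf.ae_hasDerivAt_integral] with x hx hx2
  rw [(hx (uIoc_subset_uIcc hx2) 0 h0).deriv]

lemma slice_cont {w : ℝ → ℝ → ℝ} (hw : ContinuousOn (Function.uncurry w) (univ ×ˢ Icc (0:ℝ) 1))
    (t : ℝ) : ContinuousOn (w t) (Icc 0 1) := by
  have : ContinuousOn (fun x : ℝ => (t, x)) (Icc 0 1) := by fun_prop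
  exact hw.comp this (fun x hx => ⟨mem_univ _, hx⟩)

lemma slice_int {w : ℝ → ℝ → ℝ} (hw : ContinuousOn (Function.uncurry w) (univ ×ˢ Icc (0:ℝ) 1))
    (t : ℝ) {a b : ℝ} (ha : a ∈ Icc (0:ℝ) 1) (hb : b ∈ Icc (0:ℝ) 1) :
    IntervalIntegrable (w t) volume a b :=
  ((slice_cont hw t).mono (uIcc_subset_Icc ha hb)).intervalIntegrable

/-- continuous extension -/
noncomputable def tl (w : ℝ → ℝ → ℝ) (t x : ℝ) : ℝ := w t (projIcc (0:ℝ) 1 zero_le_one x)

lemma tl_cont {w : ℝ → ℝ → ℝ} (hw : ContinuousOn (Function.uncurry w) (univ ×ˢ Icc (0:ℝ) 1)) :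
    Continuous (Function.uncurry (tl w)) := by
  have h1 : Continuous (fun p : ℝ × ℝ => (p.1, ((projIcc (0:ℝ) 1 zero_le_one p.2 : Icc (0:ℝ) 1) : ℝ))) := by
    fun_prop
  exact hw.comp_continuous h1 (fun p => ⟨mem_univ _, (projIcc (0:ℝ) 1 zero_le_one p.2).2⟩)

lemma tl_eq (w : ℝ → ℝ → ℝ) (t : ℝ) {x : ℝ} (hx : x ∈ Icc (0:ℝ) 1) : tl w t x = w t x := by
  unfold tl
  rw [projIcc_of_mem zero_le_one hx]

lemma bound_of_compact {X : ℝ → ℝ} (hX : Continuous X) (hXc : HasCompactSupport X) :
    ∃ C : ℝ, ∀ x, |X x| ≤ C := hXc.exists_bound_of_continuous hX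

end Ptw

open Ptw

/-- from `test_u`, Fubini and `fund_lemma`: `u t x - u s x = ∫_s^t v τ x dτ` for a.e. `x`;
integrate over `[a,b]`. -/
theorem sol_I1 (h : IsSol u ux v) (s t : ℝ) {a b : ℝ} (ha : a ∈ Icc (0:ℝ) 1)
    (hb : b ∈ Icc (0:ℝ) 1) :
    ∫ x in a..b, (u t x - u s x) = ∫ τ in s..t, (FF v τ b - FF v τ a) := by
  have m0 : (0:ℝ) ∈ Icc (0:ℝ) 1 := by simp
  have m1 : (1:ℝ) ∈ Icc (0:ℝ) 1 := by simp
  have hv : Slab v := sol_integrable_v h
  have hcu := sol_cont_u h
  have hW := hv.int_right s t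
  have hut := slice_int hcu t m0 m1
  have hus := slice_int hcu s m0 m1
  have key : ∀ᵐ x ∂(volume.restrict (Ioc (0:ℝ) 1)), u t x - u s x - ∫ τ in s..t, v τ x = 0 := by
    apply fund_lemma
    · exact (intervalIntegrable_iff_integrableOn_Ioc_of_le zero_le_one).mp ((hut.sub hus).sub hW)
    · intro X hX hXc hXs
      obtain ⟨C, hC⟩ := bound_of_compact hX.continuous hXc
      have hXcont : ContinuousOn X (uIcc (0:ℝ) 1) := hX.continuous.continuousOn
      have e1 : ∫ x in (0:ℝ)..1, (u t x - u s x - ∫ τ in s..t, v τ x) * X x =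
          (∫ x in (0:ℝ)..1, u t x * X x) - (∫ x in (0:ℝ)..1, u s x * X x) -
            ∫ x in (0:ℝ)..1, (∫ τ in s..t, v τ x) * X x := by
        rw [← intervalIntegral.integral_sub (hut.mul_continuousOn hXcont)
          (hus.mul_continuousOn hXcont), ← intervalIntegral.integral_sub
          ((hut.mul_continuousOn hXcont).sub (hus.mul_continuousOn hXcont))
          (hW.mul_continuousOn hXcont)]
        congr 1
        ext x
        ring
      have e2 : ∫ x in (0:ℝ)..1, (∫ τ in s..t, v τ x) * X x =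
          ∫ τ in s..t, ∫ x in (0:ℝ)..1, v τ x * X x := by
        rw [(hv.mul hX.continuous hC).swap s t m0 m1]
        congr 1
        ext x
        rw [intervalIntegral.integral_mul_const]
      rw [e1, e2, test_u h hX hXc hXs s t, sub_self]
  have e3 : ∫ x in a..b, (u t x - u s x) = ∫ x in a..b, ∫ τ in s..t, v τ x := by
    apply intervalIntegral.integral_congr_ae
    rw [ae_restrict_iff' measurableSet_Ioc] at key
    filter_upwards [key] with x hx hx2
    have : x ∈ Ioc (0:ℝ) 1 :=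
      ⟨(le_min ha.1 hb.1).trans_lt hx2.1, hx2.2.trans (max_le ha.2 hb.2)⟩
    linarith [hx this]
  rw [e3, ← hv.swap s t ha hb]
  congr 1
  ext τ
  unfold FF
  have hi := sol_int_v h τ
  rw [intervalIntegral.integral_interval_sub_left]
  · exact hi.mono_set (by
      rw [uIcc_of_le zero_le_one]
      exact uIcc_subset_Icc m0 hb)
  · exact hi.mono_set (by
      rw [uIcc_of_le zero_le_one]
      exact uIcc_subset_Icc m0 ha)

/-- from `test_v`, Fubini, integration by parts and `dbr`:
`∫_s^t ux τ x dτ = c(s,t) + ∫_0^x (v t - v s + ∫_s^t u^3 dτ)` for a.e. `x`; integrate over `[a,b]`.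
One can take `c t = - ∫_0^1 FF v t x dx - ∫_0^t ∫_0^1 ∫_0^x u^3`. -/
theorem sol_I2 (h : IsSol u ux v) : ∃ c : ℝ → ℝ, Continuous c ∧
    ∀ s t : ℝ, ∀ a ∈ Icc (0:ℝ) 1, ∀ b ∈ Icc (0:ℝ) 1,
      ∫ x in a..b, ((FF v t x + c t) - (FF v s x + c s)) =
        (∫ τ in s..t, (u τ b - u τ a))
          - ∫ τ in s..t, ∫ x in a..b, (∫ z in (0:ℝ)..x, u τ z ^ 3) := by
  have m0 : (0:ℝ) ∈ Icc (0:ℝ) 1 := by simp
  have m1 : (1:ℝ) ∈ Icc (0:ℝ) 1 := by simp
  have hcu := sol_cont_u h
  have hcF := sol_cont_FF h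
  have hux : Slab ux := sol_integrable_ux h
  have htu : Continuous (Function.uncurry (tl u)) := tl_cont hcu
  have htF : Continuous (Function.uncurry (tl (FF v))) := tl_cont hcF
  set G : ℝ → ℝ → ℝ := fun τ x => ∫ z in (0:ℝ)..x, tl u τ z ^ 3 with hG
  have hGc : Continuous (Function.uncurry G) := by
    have h1 : Continuous (Function.uncurry (fun (p : ℝ × ℝ) (z : ℝ) => tl u p.1 z ^ 3)) := by
      have : Continuous (fun q : (ℝ × ℝ) × ℝ => tl u q.1.1 q.2) :=
        htu.comp ((continuous_fst.comp continuous_fst).prodMk continuous_snd)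
      exact this.pow 3
    exact intervalIntegral.continuous_parametric_intervalIntegral_of_continuous h1 continuous_snd
  have hGs : Slab G := slab_of_cont hGc
  have hGeq : ∀ τ, ∀ x ∈ Icc (0:ℝ) 1, ∫ z in (0:ℝ)..x, u τ z ^ 3 = G τ x := by
    intro τ x hx
    apply intervalIntegral.integral_congr
    intro z hz
    simp only
    rw [tl_eq]
    exact uIcc_subset_Icc m0 hx hz
  set HH : ℝ → ℝ := fun τ => ∫ x in (0:ℝ)..1, G τ x with hHH
  have hHc : Continuous HH :=
    intervalIntegral.continuous_parametric_intervalIntegral_of_continuous' hGc 0 1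
  set c : ℝ → ℝ := fun t => -(∫ x in (0:ℝ)..1, tl (FF v) t x) - ∫ τ in (0:ℝ)..t, HH τ with hc
  have hcc : Continuous c := by
    have h1 : Continuous fun t => ∫ x in (0:ℝ)..1, tl (FF v) t x :=
      intervalIntegral.continuous_parametric_intervalIntegral_of_continuous' htF 0 1
    have h2 : Continuous fun t => ∫ τ in (0:ℝ)..t, HH τ :=
      intervalIntegral.continuous_primitive (fun a b => hHc.intervalIntegrable a b) 0
    exact h1.neg.sub h2
  have hcd : ∀ s t, c t - c s = -((∫ x in (0:ℝ)..1, FF v t x) - (∫ x in (0:ℝ)..1, FF v s x) +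
      ∫ τ in s..t, HH τ) := by
    intro s t
    have h1 : ∀ t, ∫ x in (0:ℝ)..1, tl (FF v) t x = ∫ x in (0:ℝ)..1, FF v t x := by
      intro t
      apply intervalIntegral.integral_congr
      intro x hx
      rw [uIcc_of_le zero_le_one] at hx
      exact tl_eq _ _ hx
    have h2 := intervalIntegral.integral_interval_sub_left (μ := volume)
      (hHc.intervalIntegrable 0 t) (hHc.intervalIntegrable 0 s)
    simp only [hc, h1]
    rw [← h2]
    ring
  refine ⟨c, hcc, fun s t a ha b hb => ?_⟩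
  have hFt := slice_int hcF t m0 m1
  have hFs := slice_int hcF s m0 m1
  have hW := hux.int_right s t
  have hWG := hGs.int_right s t
  have key : ∃ k : ℝ, ∀ᵐ x ∂(volume.restrict (Ioc (0:ℝ) 1)),
      FF v t x - FF v s x - (∫ τ in s..t, ux τ x) + (∫ τ in s..t, G τ x) = k := by
    apply dbr zero_lt_one
    · exact (intervalIntegrable_iff_integrableOn_Ioc_of_le zero_le_one).mp
        (((hFt.sub hFs).sub hW).add hWG)
    · intro X hX hXc hXs
      have hX1 : ContDiff ℝ 1 X := hX.of_le (by exact_mod_cast le_top)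
      have hdX : Continuous (deriv X) := hX1.continuous_deriv le_rfl
      obtain ⟨C, hC⟩ := bound_of_compact hdX hXc.deriv
      have hdc : ContinuousOn (deriv X) (uIcc (0:ℝ) 1) := hdX.continuousOn
      have hXcont : ContinuousOn X (uIcc (0:ℝ) 1) := hX.continuous.continuousOn
      have e1 : ∫ x in (0:ℝ)..1, (FF v t x - FF v s x - (∫ τ in s..t, ux τ x) +
          (∫ τ in s..t, G τ x)) * deriv X x =
          (∫ x in (0:ℝ)..1, FF v t x * deriv X x) - (∫ x in (0:ℝ)..1, FF v s x * deriv X x) -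
            (∫ x in (0:ℝ)..1, (∫ τ in s..t, ux τ x) * deriv X x) +
            ∫ x in (0:ℝ)..1, (∫ τ in s..t, G τ x) * deriv X x := by
        have i1 := hFt.mul_continuousOn hdc
        have i2 := hFs.mul_continuousOn hdc
        have i3 := hW.mul_continuousOn hdc
        have i4 := hWG.mul_continuousOn hdc
        rw [← intervalIntegral.integral_sub i1 i2, ← intervalIntegral.integral_sub (i1.sub i2) i3,
          ← intervalIntegral.integral_add ((i1.sub i2).sub i3) i4]
        congr 1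
        ext x
        ring
      have e2 : ∫ x in (0:ℝ)..1, (∫ τ in s..t, ux τ x) * deriv X x =
          ∫ τ in s..t, ∫ x in (0:ℝ)..1, ux τ x * deriv X x := by
        rw [(hux.mul hdX hC).swap s t m0 m1]
        congr 1
        ext x
        rw [intervalIntegral.integral_mul_const]
      have e3 : ∫ x in (0:ℝ)..1, (∫ τ in s..t, G τ x) * deriv X x =
          ∫ τ in s..t, ∫ x in (0:ℝ)..1, G τ x * deriv X x := by
        rw [(hGs.mul hdX hC).swap s t m0 m1]
        congr 1
        ext x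
        rw [intervalIntegral.integral_mul_const]
      have e4 : ∀ τ, ∫ x in (0:ℝ)..1, G τ x * deriv X x = -∫ x in (0:ℝ)..1, u τ x ^ 3 * X x := by
        intro τ
        have hcub : IntervalIntegrable (fun x => u τ x ^ 3) volume 0 1 := by
          apply ContinuousOn.intervalIntegrable
          rw [uIcc_of_le zero_le_one]
          exact (slice_cont hcu τ).pow 3
        rw [byparts hcub hX hXs, neg_neg]
        apply intervalIntegral.integral_congr
        intro x hx
        rw [uIcc_of_le zero_le_one] at hx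
        simp only
        rw [hGeq τ x hx]
      have e5 : ∀ τ, ∫ x in (0:ℝ)..1, FF v τ x * deriv X x = -∫ x in (0:ℝ)..1, v τ x * X x := by
        intro τ
        rw [byparts (sol_int_v h τ) hX hXs, neg_neg]
        rfl
      have e6 := test_v h hX hXc hXs s t
      have e7 : ∫ τ in s..t, ∫ x in (0:ℝ)..1, (ux τ x * deriv X x + u τ x ^ 3 * X x) =
          (∫ τ in s..t, ∫ x in (0:ℝ)..1, ux τ x * deriv X x) -
            ∫ τ in s..t, ∫ x in (0:ℝ)..1, G τ x * deriv X x := by
        rw [← intervalIntegral.integral_sub ((hux.mul hdX hC).int_left s t)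
          ((hGs.mul hdX hC).int_left s t)]
        congr 1
        ext τ
        rw [e4 τ, sub_neg_eq_add, intervalIntegral.integral_add]
        · exact (sol_int_ux h τ).mul_continuousOn hdc
        · apply ContinuousOn.intervalIntegrable
          rw [uIcc_of_le zero_le_one] at hXcont ⊢
          exact ((slice_cont hcu τ).pow 3).mul hXcont
      rw [e1, e2, e3, e5, e5]
      rw [e7] at e6
      linarith
  obtain ⟨k, hk⟩ := key
  rw [ae_restrict_iff' measurableSet_Ioc] at hk
  have main : ∀ a ∈ Icc (0:ℝ) 1, ∀ b ∈ Icc (0:ℝ) 1,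
      (∫ x in a..b, FF v t x) - (∫ x in a..b, FF v s x) - (∫ τ in s..t, (u τ b - u τ a)) +
        (∫ τ in s..t, ∫ x in a..b, G τ x) = (b - a) * k := by
    intro a ha b hb
    have hsub : uIcc a b ⊆ uIcc (0:ℝ) 1 := by
      rw [uIcc_of_le zero_le_one]
      exact uIcc_subset_Icc ha hb
    have i1 := hFt.mono_set hsub
    have i2 := hFs.mono_set hsub
    have i3 := hW.mono_set hsub
    have i4 := hWG.mono_set hsub
    have e1 : ∫ x in a..b, (FF v t x - FF v s x - (∫ τ in s..t, ux τ x) + (∫ τ in s..t, G τ x)) =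
        ∫ x in a..b, k := by
      apply intervalIntegral.integral_congr_ae
      filter_upwards [hk] with x hx hx2
      exact hx ⟨(le_min ha.1 hb.1).trans_lt hx2.1, hx2.2.trans (max_le ha.2 hb.2)⟩
    rw [intervalIntegral.integral_add ((i1.sub i2).sub i3) i4,
      intervalIntegral.integral_sub (i1.sub i2) i3, intervalIntegral.integral_sub i1 i2,
      intervalIntegral.integral_const, ← hux.swap s t ha hb, ← hGs.swap s t ha hb,
      smul_eq_mul] at e1
    have e2 : ∫ τ in s..t, ∫ x in a..b, ux τ x = ∫ τ in s..t, (u τ b - u τ a) := by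
      congr 1
      ext τ
      have hi := sol_int_ux h τ
      rw [h.prim τ b hb, h.prim τ a ha, intervalIntegral.integral_interval_sub_left]
      · exact hi.mono_set (by
          rw [uIcc_of_le zero_le_one]
          exact uIcc_subset_Icc m0 hb)
      · exact hi.mono_set (by
          rw [uIcc_of_le zero_le_one]
          exact uIcc_subset_Icc m0 ha)
    rw [e2] at e1
    exact e1
  have hk1 := main 0 m0 1 m1
  have hu0 : ∀ τ, u τ 1 - u τ 0 = 0 := by
    intro τ
    rw [h.bd τ, h.prim τ 0 m0]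
    simp
  simp only [hu0] at hk1
  rw [intervalIntegral.integral_zero] at hk1
  have hk2 := main a ha b hb
  have e8 : ∫ x in a..b, ((FF v t x + c t) - (FF v s x + c s)) =
      (∫ x in a..b, FF v t x) - (∫ x in a..b, FF v s x) + (b - a) * (c t - c s) := by
    have hsub : uIcc a b ⊆ uIcc (0:ℝ) 1 := by
      rw [uIcc_of_le zero_le_one]
      exact uIcc_subset_Icc ha hb
    have i1 := hFt.mono_set hsub
    have i2 := hFs.mono_set hsub
    have e9 : ∫ x in a..b, (c t - c s) = (b - a) * (c t - c s) := by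
      rw [intervalIntegral.integral_const, smul_eq_mul]
    rw [← e9, ← intervalIntegral.integral_sub i1 i2,
      ← intervalIntegral.integral_add (i1.sub i2) intervalIntegrable_const]
    congr 1
    ext x
    ring
  have e10 : ∫ τ in s..t, ∫ x in a..b, (∫ z in (0:ℝ)..x, u τ z ^ 3) =
      ∫ τ in s..t, ∫ x in a..b, G τ x := by
    congr 1
    ext τ
    apply intervalIntegral.integral_congr
    intro x hx
    exact hGeq τ x (uIcc_subset_Icc ha hb hx)
  rw [e8, e10, hcd s t]
  have hk3 : (∫ x in (0:ℝ)..1, FF v t x) - (∫ x in (0:ℝ)..1, FF v s x) +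
      (∫ τ in s..t, HH τ) = k := by
    have : ∫ τ in s..t, HH τ = ∫ τ in s..t, ∫ x in (0:ℝ)..1, G τ x := rfl
    rw [this]
    linarith
  rw [hk3]
  linarith

end Pool.MP_1df64d_an
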