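import Pool.Agent.Lib_MP_1df64d_an.Concl
import Pool.Agent.Lib_MP_1df64d_an.Ptw
import Pool.Agent.Lib_MP_1df64d_an.Ext

/-! MP_1df64d_an, piece Final. -/

open MeasureTheory Filter Topology Set

namespace Pool.MP_1df64d_an

variable {u ux v : ℝ → ℝ → ℝ}

theorem chr_of_sol (h : IsSol u ux v) :
    ∃ U Φ : ℝ → ℝ → ℝ, Chr U Φ ∧ ∀ t, ∀ x ∈ Icc (0:ℝ) 1, U t x = u t x := by
  obtain ⟨c, hc, hI2⟩ := sol_I2 h
  refine ext_chr (f := fun t x => FF v t x + c t) (sol_cont_u h) ?_ ?_ h.bd ?_ hI2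
  · have := (sol_cont_FF h).add ((hc.comp continuous_fst).continuousOn
      (s := (univ : Set ℝ) ×ˢ Icc (0:ℝ) 1))
    exact this
  · intro t
    rw [h.prim t 0 (by simp)]
    simp
  · intro s t a ha b hb
    rw [sol_I1 h s t ha hb]
    congr 1
    ext τ
    ring

theorem main_lower : ∃ c : ℝ, 0 < c ∧ ∀ u ux v : ℝ → ℝ → ℝ, IsSol u ux v →
    (∃ t x : ℝ, x ∈ Ioo (0:ℝ) 1 ∧ u t x ≠ 0) →
    ∀ᶠ t in atTop, c / Real.log t ^ 2 ≤ ∫ s in t..(t + 2), ∫ x in (0:ℝ)..1, u s x ^ 4 := by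
  obtain ⟨c, hc, H⟩ := chr_lower
  refine ⟨c, hc, fun u ux v hs hne => ?_⟩
  obtain ⟨U, Φ, hU, hUu⟩ := chr_of_sol hs
  obtain ⟨t₁, x₁, hx₁, hne₁⟩ := hne
  have h1 := H U Φ hU ⟨t₁, x₁, by rw [hUu t₁ x₁ (Ioo_subset_Icc_self hx₁)]; exact hne₁⟩
  filter_upwards [h1] with t ht
  have h2 : N4 U t = ∫ s in t..(t + 2), ∫ x in (0:ℝ)..1, u s x ^ 4 := by
    unfold N4 vv
    apply intervalIntegral.integral_congr
    intro s _
    apply intervalIntegral.integral_congr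
    intro x hx
    rw [uIcc_of_le zero_le_one] at hx
    simp only [hUu s x hx]
  rw [← h2]
  exact ht

end Pool.MP_1df64d_an
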