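import Pool.Agent.Lib_MP_1df64d_an.Leib

/-! MP_1df64d_an, piece Interp: interpolation error by the maximum principle. -/

open MeasureTheory Filter Topology Set

namespace Pool.MP_1df64d_an

namespace Interp

open Polynomial

/-- complex Newton basis polynomials. -/
noncomputable def bP : ℕ → ℂ[X]
  | 0 => 1
  | (m + 1) => bP m * (X - C (m : ℂ)) * C (1 / ((m : ℂ) + 1))

theorem bP_eval_real (m : ℕ) (r : ℝ) : (bP m).eval (r : ℂ) = ((bb m r : ℝ) : ℂ) := by
  induction m with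
  | zero => simp [bP, bb]
  | succ m ih =>
    rw [bP, bb]
    simp only [eval_mul, eval_sub, eval_X, eval_C, ih]
    push_cast
    ring

theorem bP_bound {R : ℝ} {n : ℕ} (hR : 4 * (n : ℝ) ≤ R) {z : ℂ} (hz : ‖z‖ = R) :
    ∀ m ≤ n, ‖(bP m).eval z‖ ≤ (5 / 4 * R) ^ m / m.factorial := by
  have hR0 : 0 ≤ R := by rw [← hz]; exact norm_nonneg z
  intro m
  induction m with
  | zero => intro _; simp [bP]
  | succ m ih =>
    intro hm
    have h1 := ih (by omega)
    rw [bP]
    simp only [eval_mul, eval_sub, eval_X, eval_C, norm_mul]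
    have h2 : ‖z - (m : ℂ)‖ ≤ 5 / 4 * R := by
      have h3 : ‖z - (m : ℂ)‖ ≤ ‖z‖ + ‖(m : ℂ)‖ := norm_sub_le _ _
      rw [hz, Complex.norm_natCast] at h3
      have h4 : (m : ℝ) ≤ n := by exact_mod_cast (by omega : m ≤ n)
      linarith
    have h5 : ‖(1 / ((m : ℂ) + 1))‖ = 1 / ((m : ℝ) + 1) := by
      rw [norm_div, norm_one]
      congr 1
      have : ((m : ℂ) + 1) = ((m + 1 : ℕ) : ℂ) := by push_cast; ring
      rw [this, Complex.norm_natCast]
      push_cast
      ring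
    rw [h5]
    calc ‖(bP m).eval z‖ * ‖z - (m : ℂ)‖ * (1 / ((m : ℝ) + 1))
        ≤ ((5 / 4 * R) ^ m / m.factorial) * (5 / 4 * R) * (1 / ((m : ℝ) + 1)) := by
          gcongr
      _ = (5 / 4 * R) ^ (m + 1) / (m + 1).factorial := by
          rw [Nat.factorial_succ, pow_succ]
          push_cast
          have : (m.factorial : ℝ) ≠ 0 := by positivity
          field_simp

theorem sum_wt_le (N : ℕ) : ∑ m ∈ Finset.range (N + 1), wt m ≤ 2 - 1 / ((N : ℝ) + 1) := by
  induction N with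
  | zero => simp [wt]; norm_num
  | succ N ih =>
    rw [Finset.sum_range_succ]
    have h1 : wt (N + 1) ≤ 1 / ((N : ℝ) + 1) - 1 / (((N + 1 : ℕ) : ℝ) + 1) := by
      rw [wt]
      push_cast
      rw [div_sub_div _ _ (by positivity) (by positivity), div_le_div_iff₀ (by positivity)
        (by positivity)]
      ring_nf
      nlinarith [(Nat.cast_nonneg N : (0:ℝ) ≤ N)]
    linarith

theorem sum_wt_le_two (N : ℕ) : ∑ m ∈ Finset.range (N + 1), wt m ≤ 2 := by
  have h1 := sum_wt_le N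
  have h2 : (0:ℝ) ≤ 1 / ((N : ℝ) + 1) := by positivity
  linarith

theorem wt_nonneg (m : ℕ) : 0 ≤ wt m := by rw [wt]; positivity

/-- bound for a Newton polynomial on the circle. -/
theorem newton_bound {n : ℕ} {lam R K : ℝ} (hl : 0 < lam) (hR : 4 * (n : ℝ) ≤ R)
    (hRl : 5 / 4 * R * lam = 1) (hK : 0 ≤ K) (b : ℕ → ℝ)
    (hb : ∀ m ≤ n, |b m| ≤ m.factorial * wt m * lam ^ m * K) {z : ℂ} (hz : ‖z‖ = R) :
    ‖(∑ m ∈ Finset.range (n + 1), bP m * C (b m : ℂ)).eval z‖ ≤ 2 * K := by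
  rw [eval_finsetSum]
  have hR0 : 0 ≤ R := by rw [← hz]; exact norm_nonneg z
  calc ‖∑ m ∈ Finset.range (n + 1), (bP m * C (b m : ℂ)).eval z‖
      ≤ ∑ m ∈ Finset.range (n + 1), ‖(bP m * C (b m : ℂ)).eval z‖ := norm_sum_le _ _
    _ ≤ ∑ m ∈ Finset.range (n + 1), wt m * K := by
        refine Finset.sum_le_sum fun m hm => ?_
        have hm' : m ≤ n := by
          have := Finset.mem_range.1 hm
          omega
        rw [eval_mul, eval_C, norm_mul, Complex.norm_real, Real.norm_eq_abs]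
        have h1 := bP_bound hR hz m hm'
        have h2 := hb m hm'
        calc ‖(bP m).eval z‖ * |b m|
            ≤ ((5 / 4 * R) ^ m / m.factorial) * (m.factorial * wt m * lam ^ m * K) := by
              gcongr
          _ = (5 / 4 * R * lam) ^ m * (wt m * K) := by
              rw [mul_pow (5 / 4 * R) lam m]
              have : (m.factorial : ℝ) ≠ 0 := by positivity
              generalize (5 / 4 * R) ^ m = A
              field_simp
          _ = wt m * K := by rw [hRl, one_pow, one_mul]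
    _ = (∑ m ∈ Finset.range (n + 1), wt m) * K := by rw [Finset.sum_mul]
    _ ≤ 2 * K := by
        have := sum_wt_le_two n
        gcongr

end Interp

open Interp Polynomial in
/-- Interpolation error. `f(z) = (∑ a_m binom(z,m))^3 - ∑ ρ_m binom(z,m)` is a polynomial which
vanishes at `0, ..., n`; divide by `∏_{j ≤ n} (z - j)`, use the maximum principle on
`|z| = 4/(5 lam) ≥ 4 n`, where `|binom(z,m)| ≤ (5|z|/4)^m / m!`. -/
theorem interp_bound {n : ℕ} (hn : 1 ≤ n) {lam Y : ℝ} (hl : 0 < lam) (hY : 0 ≤ Y)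
    (hnl : 5 * n * lam ≤ 1) (a ρ : ℕ → ℝ)
    (ha : ∀ m ≤ n, |a m| ≤ m.factorial * wt m * lam ^ m * Y)
    (hρ : ∀ m ≤ n, |ρ m| ≤ 49 * (m.factorial * wt m * lam ^ m * Y ^ 3))
    (hint : ∀ k ≤ n, (∑ m ∈ Finset.range (n + 1), bb m (k:ℝ) * a m) ^ 3 =
      ∑ m ∈ Finset.range (n + 1), bb m (k:ℝ) * ρ m) :
    ∀ r ∈ Icc (0:ℝ) 1,
      |(∑ m ∈ Finset.range (n + 1), bb m r * a m) ^ 3
        - ∑ m ∈ Finset.range (n + 1), bb m r * ρ m| ≤ 36 * (1 / 3) ^ n * Y ^ 3 := by
  intro r hr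
  have hn1 : (1 : ℝ) ≤ n := by exact_mod_cast hn
  set R : ℝ := 4 / (5 * lam) with hRdef
  have hRl : 5 / 4 * R * lam = 1 := by rw [hRdef]; field_simp
  have hR : 4 * (n : ℝ) ≤ R := by
    rw [hRdef, le_div_iff₀ (by positivity)]
    linarith
  have hRn : 3 * (n : ℝ) ≤ R - n := by linarith
  set F : ℂ[X] := (∑ m ∈ Finset.range (n + 1), bP m * C (a m : ℂ)) ^ 3
    - ∑ m ∈ Finset.range (n + 1), bP m * C (ρ m : ℂ) with hF
  have hFreal : ∀ x : ℝ, F.eval (x : ℂ) =
      (((∑ m ∈ Finset.range (n + 1), bb m x * a m) ^ 3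
        - ∑ m ∈ Finset.range (n + 1), bb m x * ρ m : ℝ) : ℂ) := by
    intro x
    rw [hF]
    simp only [eval_sub, eval_pow, eval_finsetSum, eval_mul, eval_C, bP_eval_real]
    push_cast
    rfl
  have hdvd : (∏ j ∈ Finset.range (n + 1), (X - C ((j : ℕ) : ℂ))) ∣ F := by
    refine Finset.prod_dvd_of_coprime ?_ ?_
    · intro i _ j _ hij
      exact pairwise_coprime_X_sub_C (K := ℂ) (s := fun k : ℕ => (k : ℂ))
        Nat.cast_injective hij
    · intro k hk
      have hk' : k ≤ n := by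
        have := Finset.mem_range.1 hk
        omega
      rw [dvd_iff_isRoot, IsRoot.def]
      have h1 := hFreal (k : ℝ)
      rw [hint k hk', sub_self] at h1
      simpa using h1
  obtain ⟨q, hq⟩ := hdvd
  -- bound of `F` on the circle
  have hFc : ∀ z : ℂ, ‖z‖ = R → ‖F.eval z‖ ≤ 106 * Y ^ 3 := by
    intro z hz
    have h1 := newton_bound (n := n) hl hR hRl hY a ha hz
    have h2 := newton_bound (n := n) (K := 49 * Y ^ 3) hl hR hRl (by positivity) ρ
      (fun m hm => (hρ m hm).trans_eq (by ring)) hz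
    rw [hF, eval_sub, eval_pow]
    calc ‖(eval z (∑ m ∈ Finset.range (n + 1), bP m * C (a m : ℂ))) ^ 3
          - eval z (∑ m ∈ Finset.range (n + 1), bP m * C (ρ m : ℂ))‖
        ≤ ‖(eval z (∑ m ∈ Finset.range (n + 1), bP m * C (a m : ℂ))) ^ 3‖
          + ‖eval z (∑ m ∈ Finset.range (n + 1), bP m * C (ρ m : ℂ))‖ := norm_sub_le _ _
      _ ≤ (2 * Y) ^ 3 + 2 * (49 * Y ^ 3) := by
          rw [norm_pow]
          gcongr
      _ = 106 * Y ^ 3 := by ring
  -- bound of the quotient on the circle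
  have hqc : ∀ z : ℂ, ‖z‖ = R → ‖q.eval z‖ ≤ 106 * Y ^ 3 / (3 * n) ^ (n + 1) := by
    intro z hz
    have h1 := hFc z hz
    rw [hq, eval_mul, eval_prod, norm_mul, norm_prod] at h1
    have h2 : (3 * (n : ℝ)) ^ (n + 1) ≤
        ∏ j ∈ Finset.range (n + 1), ‖eval z (X - C ((j : ℕ) : ℂ))‖ := by
      have h3 : ∏ _j ∈ Finset.range (n + 1), (3 * (n : ℝ)) = (3 * (n : ℝ)) ^ (n + 1) := by
        rw [Finset.prod_const, Finset.card_range]
      rw [← h3]
      refine Finset.prod_le_prod (fun _ _ => by positivity) fun j hj => ?_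
      rw [eval_sub, eval_X, eval_C]
      have h4 : ‖z‖ - ‖((j : ℕ) : ℂ)‖ ≤ ‖z - ((j : ℕ) : ℂ)‖ := norm_sub_norm_le _ _
      rw [hz, Complex.norm_natCast] at h4
      have h5 : (j : ℝ) ≤ n := by
        have := Finset.mem_range.1 hj
        exact_mod_cast (by omega : j ≤ n)
      linarith
    rw [le_div_iff₀ (by positivity)]
    calc ‖q.eval z‖ * (3 * (n : ℝ)) ^ (n + 1)
        ≤ ‖q.eval z‖ * ∏ j ∈ Finset.range (n + 1), ‖eval z (X - C ((j : ℕ) : ℂ))‖ := by
          gcongr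
      _ = (∏ j ∈ Finset.range (n + 1), ‖eval z (X - C ((j : ℕ) : ℂ))‖) * ‖q.eval z‖ := by ring
      _ ≤ 106 * Y ^ 3 := h1
  have hR0 : 0 < R := by linarith
  -- maximum principle
  have hqr : ‖q.eval (r : ℂ)‖ ≤ 106 * Y ^ 3 / (3 * n) ^ (n + 1) := by
    refine Complex.norm_le_of_forall_mem_frontier_norm_le (U := Metric.ball (0 : ℂ) R)
      Metric.isBounded_ball (f := fun z => q.eval z) ?_ ?_ ?_
    · exact q.differentiable.diffContOnCl
    · intro z hz
      rw [frontier_ball (0 : ℂ) hR0.ne', mem_sphere_zero_iff_norm] at hz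
      exact hqc z hz
    · refine subset_closure ?_
      rw [mem_ball_zero_iff, Complex.norm_real, Real.norm_eq_abs, abs_of_nonneg hr.1]
      linarith [hr.2]
  -- the product on the interval
  have hprod : ∀ N : ℕ, ∏ j ∈ Finset.range (N + 1), |r - (j : ℝ)| ≤ N.factorial := by
    intro N
    induction N with
    | zero =>
      simp
      rw [abs_of_nonneg hr.1]
      exact hr.2
    | succ N ih =>
      rw [Finset.prod_range_succ, Nat.factorial_succ]
      push_cast
      have h1 : |r - ((N : ℝ) + 1)| ≤ (N : ℝ) + 1 := by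
        have hN : (0:ℝ) ≤ N := Nat.cast_nonneg N
        rw [abs_le]
        constructor <;> linarith [hr.1, hr.2]
      calc (∏ j ∈ Finset.range (N + 1), |r - (j : ℝ)|) * |r - ((N : ℝ) + 1)|
          ≤ (N.factorial : ℝ) * ((N : ℝ) + 1) := by gcongr
        _ = ((N : ℝ) + 1) * N.factorial := by ring
  have hkey : |(∑ m ∈ Finset.range (n + 1), bb m r * a m) ^ 3
        - ∑ m ∈ Finset.range (n + 1), bb m r * ρ m| = ‖F.eval (r : ℂ)‖ := by
    rw [hFreal, Complex.norm_real, Real.norm_eq_abs]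
  rw [hkey, hq, eval_mul, eval_prod, norm_mul, norm_prod]
  have h6 : ∏ j ∈ Finset.range (n + 1), ‖eval (r : ℂ) (X - C ((j : ℕ) : ℂ))‖
      = ∏ j ∈ Finset.range (n + 1), |r - (j : ℝ)| := by
    refine Finset.prod_congr rfl fun j _ => ?_
    rw [eval_sub, eval_X, eval_C]
    have : (r : ℂ) - ((j : ℕ) : ℂ) = ((r - (j : ℝ) : ℝ) : ℂ) := by push_cast; ring
    rw [this, Complex.norm_real, Real.norm_eq_abs]
  rw [h6]
  have hfac : (n.factorial : ℝ) ≤ (n : ℝ) ^ n := by exact_mod_cast Nat.factorial_le_pow n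
  calc (∏ j ∈ Finset.range (n + 1), |r - (j : ℝ)|) * ‖q.eval (r : ℂ)‖
      ≤ (n : ℝ) ^ n * (106 * Y ^ 3 / (3 * n) ^ (n + 1)) := by
        have h7 := (hprod n).trans hfac
        have h8 : (0:ℝ) ≤ ∏ j ∈ Finset.range (n + 1), |r - (j : ℝ)| :=
          Finset.prod_nonneg fun _ _ => abs_nonneg _
        gcongr
    _ = 106 / (3 * n) * (1 / 3) ^ n * Y ^ 3 := by
        have h9 : ((n : ℝ) ^ n) ≠ 0 := by positivity
        have h10 : (n : ℝ) ≠ 0 := by positivity
        have h12 : (3 * (n : ℝ)) ^ (n + 1) = 3 ^ n * (n : ℝ) ^ n * (3 * n) := by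
          rw [pow_succ, mul_pow]
        rw [h12, one_div, inv_pow]
        generalize (n : ℝ) ^ n = A at *
        have h11 : ((3 : ℝ) ^ n) ≠ 0 := by positivity
        generalize (3 : ℝ) ^ n = B at *
        field_simp
    _ ≤ 36 * (1 / 3) ^ n * Y ^ 3 := by
        have h11 : 106 / (3 * (n : ℝ)) ≤ 36 := by
          rw [div_le_iff₀ (by positivity)]
          linarith
        gcongr

end Pool.MP_1df64d_an
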