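import Pool.Agent.Lib_MP_1df64d_an.Energy

/-! MP_1df64d_an, piece OmegaB: size of the antisymmetric forms. -/

open MeasureTheory Filter Topology Set

namespace Pool.MP_1df64d_an

variable {U Φ : ℝ → ℝ → ℝ}

theorem fold_int {P r : ℝ → ℝ} (hP : Continuous P) (hr : Continuous r)
    (pP : ∀ y, P (y + 2) = P y) (pr : ∀ z, r (z + 2) = r z) (od : ∀ z, r (-z) = -r z) (s : ℝ) :
    ∫ y in (0:ℝ)..2, P y * r (y - s) = ∫ z in (0:ℝ)..1, (P (s + z) - P (s - z)) * r z := by
  have hc : Continuous (fun z => P (s + z) * r z) := by fun_prop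
  have e1 : (∫ y in (0:ℝ)..2, P y * r (y - s)) = ∫ z in (0 - s)..(2 - s), P (s + z) * r z := by
    rw [← intervalIntegral.integral_comp_sub_right (fun z => P (s + z) * r z) s]
    apply intervalIntegral.integral_congr
    intro y _
    simp only [add_sub_cancel]
  have hp : Function.Periodic (fun z => P (s + z) * r z) 2 := fun z => by
    simp only [pr]
    rw [← add_assoc, pP]
  have e2 : (∫ z in (0 - s)..(2 - s), P (s + z) * r z) = ∫ z in (-1:ℝ)..1, P (s + z) * r z := by
    have := hp.intervalIntegral_add_eq (0 - s) (-1)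
    have e : 0 - s + 2 = 2 - s := by ring
    rw [e] at this
    rw [this]
    norm_num
  have e3 : (∫ z in (-1:ℝ)..1, P (s + z) * r z)
      = (∫ z in (-1:ℝ)..0, P (s + z) * r z) + ∫ z in (0:ℝ)..1, P (s + z) * r z :=
    (intervalIntegral.integral_add_adjacent_intervals (hc.intervalIntegrable _ _)
      (hc.intervalIntegrable _ _)).symm
  have e4 : (∫ z in (-1:ℝ)..0, P (s + z) * r z) = ∫ z in (0:ℝ)..1, -(P (s - z) * r z) := by
    have e5 : (∫ z in (0:ℝ)..1, P (s + -z) * r (-z)) = ∫ z in (-1:ℝ)..0, P (s + z) * r z := by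
      rw [intervalIntegral.integral_comp_neg (fun z => P (s + z) * r z)]
      norm_num
    rw [← e5]
    apply intervalIntegral.integral_congr
    intro z _
    simp only [od]
    rw [← sub_eq_add_neg]
    ring
  rw [e1, e2, e3, e4, ← intervalIntegral.integral_add]
  · apply intervalIntegral.integral_congr
    intro z _
    simp only
    ring
  · apply Continuous.intervalIntegrable
    fun_prop
  · exact hc.intervalIntegrable _ _

theorem swap_int {P : ℝ → ℝ} {r : ℝ → ℝ → ℝ} (hP : Continuous P)
    (hr : Continuous (Function.uncurry r)) (t : ℝ) :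
    ∫ y in (0:ℝ)..2, P y * (-∫ s in t..(t + 2), r s (y - s))
      = -∫ s in t..(t + 2), ∫ y in (0:ℝ)..2, P y * r s (y - s) := by
  have h1 : (∫ y in (0:ℝ)..2, P y * (-∫ s in t..(t + 2), r s (y - s)))
      = -∫ y in (0:ℝ)..2, ∫ s in t..(t + 2), P y * r s (y - s) := by
    rw [← intervalIntegral.integral_neg]
    apply intervalIntegral.integral_congr
    intro y _
    simp only
    rw [intervalIntegral.integral_const_mul]
    ring
  rw [h1]
  congr 1
  have hc : Continuous (Function.uncurry fun y s : ℝ => P y * r s (y - s)) := by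
    have : Continuous (fun p : ℝ × ℝ => Function.uncurry r (p.2, p.1 - p.2)) :=
      hr.comp (by fun_prop)
    exact (hP.comp continuous_fst).mul this
  simp only [intervalIntegral.integral_of_le (zero_le_two : (0:ℝ) ≤ 2),
    intervalIntegral.integral_of_le (by linarith : t ≤ t + 2)]
  apply MeasureTheory.integral_integral_swap
  rw [Measure.prod_restrict]
  have hK : IsCompact ((Icc (0:ℝ) 2) ×ˢ (Icc t (t + 2)) : Set (ℝ × ℝ)) :=
    isCompact_Icc.prod isCompact_Icc
  exact (hc.continuousOn.integrableOn_compact hK).mono_set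
    (Set.prod_mono Ioc_subset_Icc_self Ioc_subset_Icc_self)

theorem Om_eq (h : Chr U Φ) (i m : ℕ) (t : ℝ) :
    Om U Φ i m t = -(1 / 2) * ∫ s in t..(t + 2), ∫ z in (0:ℝ)..1,
      (del Φ i t (s + z) - del Φ i t (s - z)) * rho U m s z := by
  unfold Om QQ
  have hP : Continuous (del Φ i t) :=
    (del_continuous h.contP i).comp (by fun_prop : Continuous fun x : ℝ => (t, x))
  rw [swap_int hP (rho_continuous h m) t]
  have : (∫ s in t..(t + 2), ∫ y in (0:ℝ)..2, del Φ i t y * rho U m s (y - s))
      = ∫ s in t..(t + 2), ∫ z in (0:ℝ)..1,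
          (del Φ i t (s + z) - del Φ i t (s - z)) * rho U m s z := by
    apply intervalIntegral.integral_congr
    intro s _
    exact fold_int hP (rho_cont_slice h m s) (fun y => del_perP h i t y)
      (fun z => rho_per h m s z) (fun z => rho_odd h m s z) s
  rw [this]
  ring

/-- estimate of a double integral -/
theorem dbl_le (h : Chr U Φ) (m : ℕ) (t C : ℝ) {D : ℝ → ℝ → ℝ}
    (hD : Continuous (Function.uncurry D))
    (hb : ∀ s ∈ Icc t (t + 2), ∀ z ∈ Icc (0:ℝ) 1, |D s z| ≤ C) :
    |∫ s in t..(t + 2), ∫ z in (0:ℝ)..1, D s z * rho U m s z| ≤ C * J U m t := by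
  have hc : Continuous (Function.uncurry fun s z : ℝ => D s z * rho U m s z) := by
    exact hD.mul (rho_continuous h m)
  have hci : Continuous (fun s => ∫ z in (0:ℝ)..1, D s z * rho U m s z) := par_cont hc 0 1
  have h1 : |∫ s in t..(t + 2), ∫ z in (0:ℝ)..1, D s z * rho U m s z|
      ≤ ∫ s in t..(t + 2), |∫ z in (0:ℝ)..1, D s z * rho U m s z| :=
    intervalIntegral.abs_integral_le_integral_abs (by linarith)
  have h2 : (∫ s in t..(t + 2), |∫ z in (0:ℝ)..1, D s z * rho U m s z|)
      ≤ ∫ s in t..(t + 2), C * jj U m s := by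
    apply intervalIntegral.integral_mono_on (by linarith)
    · exact hci.abs.intervalIntegrable _ _
    · exact ((jj_continuous h m).const_mul C).intervalIntegrable _ _
    · intro s hs
      have h3 : |∫ z in (0:ℝ)..1, D s z * rho U m s z|
          ≤ ∫ z in (0:ℝ)..1, |D s z * rho U m s z| :=
        intervalIntegral.abs_integral_le_integral_abs zero_le_one
      have hDs : Continuous (D s) := hD.comp (by fun_prop : Continuous fun x : ℝ => (s, x))
      have h4 : (∫ z in (0:ℝ)..1, |D s z * rho U m s z|)
          ≤ ∫ z in (0:ℝ)..1, C * |rho U m s z| := by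
        apply intervalIntegral.integral_mono_on zero_le_one
        · exact (hDs.mul (rho_cont_slice h m s)).abs.intervalIntegrable _ _
        · exact ((rho_cont_slice h m s).abs.const_mul C).intervalIntegrable _ _
        · intro z hz
          rw [abs_mul]
          exact mul_le_mul_of_nonneg_right (hb s hs z hz) (abs_nonneg _)
      rw [intervalIntegral.integral_const_mul] at h4
      exact h3.trans h4
  rw [intervalIntegral.integral_const_mul] at h2
  exact h1.trans h2

theorem Om_abs_le (h : Chr U Φ) (i m : ℕ) (t : ℝ) :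
    |Om U Φ (i + 1) m t| ≤ J U i t * J U m t := by
  rw [Om_eq h]
  have hP : Continuous (del Φ (i + 1) t) :=
    (del_continuous h.contP (i + 1)).comp (by fun_prop : Continuous fun x : ℝ => (t, x))
  have h1 := dbl_le h m t (2 * J U i t)
    (D := fun s z => del Φ (i + 1) t (s + z) - del Φ (i + 1) t (s - z)) (by
      have e1 : Continuous (fun p : ℝ × ℝ => del Φ (i + 1) t (p.1 + p.2)) := hP.comp (by fun_prop)
      have e2 : Continuous (fun p : ℝ × ℝ => del Φ (i + 1) t (p.1 - p.2)) := hP.comp (by fun_prop)
      exact e1.sub e2) (by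
      intro s _ z hz
      apply abs_delP_sub_le h
      have : s + z - (s - z) = 2 * z := by ring
      rw [this, abs_of_nonneg (by linarith [hz.1])]
      linarith [hz.2])
  rw [abs_mul]
  have h2 : |(-(1 / 2) : ℝ)| = 1 / 2 := by norm_num
  rw [h2]
  linarith

theorem Om_zero (h : Chr U Φ) (t : ℝ) : |Om U Φ 0 0 t + N4 U t| ≤ J U 0 t ^ 2 := by
  have hP : Continuous (Φ t) := h.contP.comp (by fun_prop : Continuous fun x : ℝ => (t, x))
  set D : ℝ → ℝ → ℝ := fun s z => (Φ t (s + z) - Φ t (s - z)) - (Φ s (s + z) - Φ s (s - z)) with hDdef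
  have hDc : Continuous (Function.uncurry D) := by
    have e1 : Continuous (fun p : ℝ × ℝ => Φ t (p.1 + p.2)) := hP.comp (by fun_prop)
    have e2 : Continuous (fun p : ℝ × ℝ => Φ t (p.1 - p.2)) := hP.comp (by fun_prop)
    have e3 : Continuous (fun p : ℝ × ℝ => Function.uncurry Φ (p.1, p.1 + p.2)) :=
      h.contP.comp (by fun_prop)
    have e4 : Continuous (fun p : ℝ × ℝ => Function.uncurry Φ (p.1, p.1 - p.2)) :=
      h.contP.comp (by fun_prop)
    exact (e1.sub e2).sub (e3.sub e4)
  have h1 := dbl_le h 0 t (2 * J U 0 t) hDc (by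
      intro s hs z hz
      apply abs_P_sub_le h t s _ _ hs
      have : s + z - (s - z) = 2 * z := by ring
      rw [this, abs_of_nonneg (by linarith [hz.1])]
      linarith [hz.2])
  have h2 : Om U Φ 0 0 t + N4 U t
      = -(1 / 2) * ∫ s in t..(t + 2), ∫ z in (0:ℝ)..1, D s z * rho U 0 s z := by
    rw [Om_eq h]
    have hc1 : Continuous (fun s => ∫ z in (0:ℝ)..1,
        (del Φ 0 t (s + z) - del Φ 0 t (s - z)) * rho U 0 s z) := by
      apply par_cont (F := fun s z => (del Φ 0 t (s + z) - del Φ 0 t (s - z)) * rho U 0 s z)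
      have e1 : Continuous (fun p : ℝ × ℝ => Φ t (p.1 + p.2)) := hP.comp (by fun_prop)
      have e2 : Continuous (fun p : ℝ × ℝ => Φ t (p.1 - p.2)) := hP.comp (by fun_prop)
      exact (e1.sub e2).mul (rho_continuous h 0)
    have e3 : (∫ s in t..(t + 2), ∫ z in (0:ℝ)..1, D s z * rho U 0 s z)
        = (∫ s in t..(t + 2), ∫ z in (0:ℝ)..1,
            (del Φ 0 t (s + z) - del Φ 0 t (s - z)) * rho U 0 s z)
          - 2 * N4 U t := by
      unfold N4
      rw [← intervalIntegral.integral_const_mul, ← intervalIntegral.integral_sub]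
      · apply intervalIntegral.integral_congr
        intro s _
        simp only
        unfold vv
        rw [← intervalIntegral.integral_const_mul, ← intervalIntegral.integral_sub]
        · apply intervalIntegral.integral_congr
          intro z _
          simp only [hDdef, del_zero, rho_zero]
          have := h.rel s z
          have e : Φ s (s + z) - Φ s (s - z) = 2 * U s z := by linarith
          rw [e]
          ring
        · apply Continuous.intervalIntegrable
          have e1 : Continuous (fun z : ℝ => Φ t (s + z)) := hP.comp (by fun_prop)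
          have e2 : Continuous (fun z : ℝ => Φ t (s - z)) := hP.comp (by fun_prop)
          exact (e1.sub e2).mul (rho_cont_slice h 0 s)
        · exact (((U_cont_slice h s).pow 4).const_mul 2).intervalIntegrable _ _
      · exact hc1.intervalIntegrable _ _
      · exact ((vv_continuous h).const_mul 2).intervalIntegrable _ _
    rw [e3]
    ring
  rw [h2, abs_mul]
  have h3 : |(-(1 / 2) : ℝ)| = 1 / 2 := by norm_num
  rw [h3]
  nlinarith

end Pool.MP_1df64d_an
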