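import Pool.Agent.Lib_MP_1df64d_an.Omega
import Pool.Agent.Lib_MP_1df64d_an.OmegaB
import Pool.Agent.Lib_MP_1df64d_an.Bin

/-! MP_1df64d_an, piece Kder: derivative and size of the adiabatic invariant. -/

open MeasureTheory Filter Topology Set

namespace Pool.MP_1df64d_an

variable {U Φ : ℝ → ℝ → ℝ}

namespace KderAux

theorem beta_sum (i m : ℕ) : beta (i + 1) (m + 1) + beta (m + 1) (i + 1) =
    if i = 0 ∧ m = 0 then 1 else 0 := by
  by_cases h : i = 0 ∧ m = 0
  · rw [if_pos h, h.1, h.2, beta_one_one]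
    norm_num
  · rw [if_neg h, beta_antisymm (i + 1) (m + 1) (by omega) (by omega) (by omega)]
    ring

/-- the algebra of the coefficients -/
theorem beta_alg {n : ℕ} (hn : 1 ≤ n) (ρ δ : ℕ → ℝ) :
    ∑ i ∈ Finset.range (n + 1), ∑ m ∈ Finset.range (n + 1), beta i m * (ρ i * δ m) =
      ρ 0 * δ 1 + (1 / 2) * (ρ 1 * δ 1) + (1 / 2) * ∑ i ∈ Finset.range n, ∑ m ∈ Finset.range n,
        beta (i + 1) (m + 1) * (ρ (i + 1) * δ (m + 1) - δ (i + 1) * ρ (m + 1)) := by
  have h1 : ∀ i, ∑ m ∈ Finset.range (n + 1), beta i m * (ρ i * δ m) =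
      ∑ m ∈ Finset.range n, beta i (m + 1) * (ρ i * δ (m + 1)) := by
    intro i
    rw [Finset.sum_range_succ', beta_right_zero, zero_mul, add_zero]
  have h2 : ∑ m ∈ Finset.range n, beta 0 (m + 1) * (ρ 0 * δ (m + 1)) = ρ 0 * δ 1 := by
    rw [Finset.sum_eq_single 0]
    · rw [zero_add, beta_zero_one, one_mul]
    · intro m _ hm
      rw [beta_zero_left (m + 1) (by omega), zero_mul]
    · intro h
      exact absurd (Finset.mem_range.mpr hn) h
  rw [Finset.sum_congr rfl fun i _ => h1 i, Finset.sum_range_succ', h2]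
  set S := ∑ i ∈ Finset.range n, ∑ m ∈ Finset.range n,
    beta (i + 1) (m + 1) * (ρ (i + 1) * δ (m + 1)) with hS
  set T := ∑ i ∈ Finset.range n, ∑ m ∈ Finset.range n,
    beta (i + 1) (m + 1) * (δ (i + 1) * ρ (m + 1)) with hT
  have h3 : ∑ i ∈ Finset.range n, ∑ m ∈ Finset.range n,
      beta (i + 1) (m + 1) * (ρ (i + 1) * δ (m + 1) - δ (i + 1) * ρ (m + 1)) = S - T := by
    rw [hS, hT, ← Finset.sum_sub_distrib]
    refine Finset.sum_congr rfl fun i _ => ?_
    rw [← Finset.sum_sub_distrib]
    exact Finset.sum_congr rfl fun m _ => by ring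
  have h4 : S + T = ρ 1 * δ 1 := by
    have e1 : T = ∑ i ∈ Finset.range n, ∑ m ∈ Finset.range n,
        beta (m + 1) (i + 1) * (δ (m + 1) * ρ (i + 1)) := by
      rw [hT, Finset.sum_comm]
    have e2 : S + T = ∑ i ∈ Finset.range n, ∑ m ∈ Finset.range n,
        (if i = 0 ∧ m = 0 then (1 : ℝ) else 0) * (ρ (i + 1) * δ (m + 1)) := by
      rw [e1, hS, ← Finset.sum_add_distrib]
      refine Finset.sum_congr rfl fun i _ => ?_
      rw [← Finset.sum_add_distrib]
      refine Finset.sum_congr rfl fun m _ => ?_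
      rw [← beta_sum]
      ring
    rw [e2, Finset.sum_eq_single 0, Finset.sum_eq_single 0]
    · simp
    · intro m _ hm
      rw [if_neg (by omega), zero_mul]
    · intro h
      exact absurd (Finset.mem_range.mpr hn) h
    · intro i _ hi
      refine Finset.sum_eq_zero fun m _ => ?_
      rw [if_neg (by omega), zero_mul]
    · intro h
      exact absurd (Finset.mem_range.mpr hn) h
  rw [h3, ← h4]
  ring

theorem inner_eq {n : ℕ} (hn : 1 ≤ n) (t x : ℝ) :
    ∫ r in (0:ℝ)..1, (cc U n t x r ^ 3 - AA U n t x r) * cd U n t x r =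
      -(1 / 4) * (U (t + 2) x ^ 4 - U t x ^ 4)
        - (1 / 2) * (rho U 0 t x * del U (0 + 1) t x - del U 0 t x * rho U (0 + 1) t x)
        - (1 / 2) * ∑ i ∈ Finset.range n, ∑ m ∈ Finset.range n, beta (i + 1) (m + 1) *
          (rho U (i + 1) t x * del U (m + 1) t x - del U (i + 1) t x * rho U (m + 1) t x) := by
  have hccd : ∀ r, HasDerivAt (cc U n t x) (cd U n t x r) r := by
    intro r
    unfold cc cd
    exact HasDerivAt.fun_sum fun m _ => (bb_hasDerivAt m r).mul_const _
  have hccc : Continuous (cc U n t x) := continuous_iff_continuousAt.2 fun r =>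
    (hccd r).continuousAt
  have hcdc : Continuous (cd U n t x) := by
    unfold cd
    exact continuous_finsetSum _ fun m _ => (db_continuous m).mul continuous_const
  have hAAc : Continuous (AA U n t x) := by
    unfold AA
    exact continuous_finsetSum _ fun m _ => (bb_continuous m).mul continuous_const
  have h1 : ∫ r in (0:ℝ)..1, cc U n t x r ^ 3 * cd U n t x r =
      (U (t + 2) x ^ 4 - U t x ^ 4) / 4 := by
    have hd : ∀ r ∈ uIcc (0:ℝ) 1, HasDerivAt (fun r => cc U n t x r ^ 4 / 4)
        (cc U n t x r ^ 3 * cd U n t x r) r := by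
      intro r _
      have h := ((hccd r).pow 4).div_const 4
      have e : ((4 : ℕ) : ℝ) * cc U n t x r ^ (4 - 1) * cd U n t x r / 4 =
          cc U n t x r ^ 3 * cd U n t x r := by
        push_cast
        ring
      rw [e] at h
      exact h
    rw [intervalIntegral.integral_eq_sub_of_hasDerivAt hd
      (((hccc.pow 3).mul hcdc).intervalIntegrable _ _)]
    have e1 := cc_nat U n 1 hn t x
    have e0 := cc_nat U n 0 (Nat.zero_le n) t x
    push_cast at e1 e0
    rw [mul_one] at e1
    rw [mul_zero, add_zero] at e0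
    simp only [e1, e0]
    ring
  have h2 : ∫ r in (0:ℝ)..1, AA U n t x r * cd U n t x r =
      ∑ i ∈ Finset.range (n + 1), ∑ m ∈ Finset.range (n + 1),
        beta i m * (rho U i t x * del U m t x) := by
    have e1 : (fun r => AA U n t x r * cd U n t x r) = fun r =>
        ∑ i ∈ Finset.range (n + 1), ∑ m ∈ Finset.range (n + 1),
          (bb i r * db m r) * (rho U i t x * del U m t x) := by
      funext r
      unfold AA cd
      rw [Finset.sum_mul_sum]
      refine Finset.sum_congr rfl fun i _ => Finset.sum_congr rfl fun m _ => ?_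
      ring
    have hint : ∀ i m, IntervalIntegrable (fun r => (bb i r * db m r) *
        (rho U i t x * del U m t x)) volume 0 1 := fun i m =>
      (((bb_continuous i).mul (db_continuous m)).mul continuous_const).intervalIntegrable _ _
    rw [e1, intervalIntegral.integral_finsetSum]
    · refine Finset.sum_congr rfl fun i _ => ?_
      rw [intervalIntegral.integral_finsetSum fun m _ => hint i m]
      refine Finset.sum_congr rfl fun m _ => ?_
      rw [intervalIntegral.integral_mul_const]
      rfl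
    · intro i _
      exact (continuous_finsetSum _ fun m _ =>
        ((bb_continuous i).mul (db_continuous m)).mul continuous_const).intervalIntegrable _ _
  have h3 : ∫ r in (0:ℝ)..1, (cc U n t x r ^ 3 - AA U n t x r) * cd U n t x r =
      (∫ r in (0:ℝ)..1, cc U n t x r ^ 3 * cd U n t x r) -
        ∫ r in (0:ℝ)..1, AA U n t x r * cd U n t x r := by
    have k1 : Continuous fun r => cc U n t x r ^ 3 * cd U n t x r := (hccc.pow 3).mul hcdc
    have k2 : Continuous fun r => AA U n t x r * cd U n t x r := hAAc.mul hcdc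
    rw [← intervalIntegral.integral_sub (k1.intervalIntegrable _ _)
      (k2.intervalIntegrable _ _)]
    congr 1
    funext r
    ring
  rw [h3, h1, h2, beta_alg hn (fun i => rho U i t x) (fun i => del U i t x)]
  have r1 : rho U 1 t x = U (t + 2) x ^ 3 - U t x ^ 3 := by
    have := rho_succ U 0 t x
    rwa [rho_zero, rho_zero] at this
  have d1 : del U 1 t x = U (t + 2) x - U t x := by
    have := del_succ U 0 t x
    rwa [del_zero, del_zero] at this
  simp only [zero_add, rho_zero, del_zero, r1, d1]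
  ring

end KderAux

open KderAux

theorem KK_hasDerivAt (h : Chr U Φ) {n : ℕ} (hn : 1 ≤ n) (t : ℝ) :
    HasDerivAt (KK U Φ n) (KD U n t) t := by
  have hr : ∀ i, Continuous (rho U i t) := fun i => rho_cont_slice h i t
  have hd : ∀ i, Continuous (del U i t) := fun i =>
    (del_continuous h.contU i).comp (Continuous.prodMk_right t)
  have hD : ∀ i m, Continuous fun x => rho U i t x * del U m t x - del U i t x * rho U m t x :=
    fun i m => ((hr i).mul (hd m)).sub ((hd i).mul (hr m))
  have h1 := ((N4_hasDerivAt h t).const_mul (-(1 / 4 : ℝ))).sub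
    ((Om_hasDerivAt h 0 0 t).const_mul (1 / 2 : ℝ))
  have h2 : HasDerivAt (fun t => ∑ i ∈ Finset.range n, ∑ m ∈ Finset.range n,
      beta (i + 1) (m + 1) * Om U Φ (i + 1) m t)
      (∑ i ∈ Finset.range n, ∑ m ∈ Finset.range n, beta (i + 1) (m + 1) *
        ∫ x in (0:ℝ)..1, (rho U (i + 1) t x * del U (m + 1) t x -
          del U (i + 1) t x * rho U (m + 1) t x)) t :=
    HasDerivAt.fun_sum fun i _ => HasDerivAt.fun_sum fun m _ =>
      (Om_hasDerivAt h (i + 1) m t).const_mul _
  have h3 := h1.sub (h2.const_mul (1 / 2 : ℝ))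
  have e : KD U n t = -(1 / 4) * (vv U (t + 2) - vv U t)
      - (1 / 2) * (∫ x in (0:ℝ)..1, (rho U 0 t x * del U (0 + 1) t x -
          del U 0 t x * rho U (0 + 1) t x))
      - (1 / 2) * ∑ i ∈ Finset.range n, ∑ m ∈ Finset.range n, beta (i + 1) (m + 1) *
        ∫ x in (0:ℝ)..1, (rho U (i + 1) t x * del U (m + 1) t x -
          del U (i + 1) t x * rho U (m + 1) t x) := by
    have e1 : KD U n t = ∫ x in (0:ℝ)..1, (-(1 / 4) * (U (t + 2) x ^ 4 - U t x ^ 4)
        - (1 / 2) * (rho U 0 t x * del U (0 + 1) t x - del U 0 t x * rho U (0 + 1) t x)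
        - (1 / 2) * ∑ i ∈ Finset.range n, ∑ m ∈ Finset.range n, beta (i + 1) (m + 1) *
          (rho U (i + 1) t x * del U (m + 1) t x - del U (i + 1) t x * rho U (m + 1) t x)) := by
      unfold KD
      congr 1
      funext x
      exact inner_eq hn t x
    have c4 : ∀ s, Continuous fun x => U s x ^ 4 := fun s => (U_cont_slice h s).pow 4
    have cA : Continuous fun x => -(1 / 4 : ℝ) * (U (t + 2) x ^ 4 - U t x ^ 4) :=
      ((c4 _).sub (c4 _)).const_mul _
    have cB : Continuous fun x => (1 / 2 : ℝ) * (rho U 0 t x * del U (0 + 1) t x -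
        del U 0 t x * rho U (0 + 1) t x) := (hD 0 (0 + 1)).const_mul _
    have cC : Continuous fun x => (1 / 2 : ℝ) * ∑ i ∈ Finset.range n, ∑ m ∈ Finset.range n,
        beta (i + 1) (m + 1) * (rho U (i + 1) t x * del U (m + 1) t x -
          del U (i + 1) t x * rho U (m + 1) t x) :=
      (continuous_finsetSum _ fun i _ => continuous_finsetSum _ fun m _ =>
        (hD (i + 1) (m + 1)).const_mul _).const_mul _
    have cAB : Continuous fun x => -(1 / 4 : ℝ) * (U (t + 2) x ^ 4 - U t x ^ 4) -
        (1 / 2 : ℝ) * (rho U 0 t x * del U (0 + 1) t x -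
        del U 0 t x * rho U (0 + 1) t x) := cA.sub cB
    rw [e1, intervalIntegral.integral_sub (cAB.intervalIntegrable _ _)
      (cC.intervalIntegrable _ _), intervalIntegral.integral_sub (cA.intervalIntegrable _ _)
      (cB.intervalIntegrable _ _), intervalIntegral.integral_const_mul,
      intervalIntegral.integral_const_mul, intervalIntegral.integral_const_mul,
      intervalIntegral.integral_sub ((c4 _).intervalIntegrable _ _)
      ((c4 _).intervalIntegrable _ _), intervalIntegral.integral_finsetSum]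
    · have e2 : ∀ i, ∫ x in (0:ℝ)..1, ∑ m ∈ Finset.range n, beta (i + 1) (m + 1) *
          (rho U (i + 1) t x * del U (m + 1) t x - del U (i + 1) t x * rho U (m + 1) t x) =
          ∑ m ∈ Finset.range n, beta (i + 1) (m + 1) *
            ∫ x in (0:ℝ)..1, (rho U (i + 1) t x * del U (m + 1) t x -
              del U (i + 1) t x * rho U (m + 1) t x) := by
        intro i
        rw [intervalIntegral.integral_finsetSum fun m _ =>
          ((hD (i + 1) (m + 1)).const_mul _).intervalIntegrable _ _]
        refine Finset.sum_congr rfl fun m _ => ?_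
        rw [intervalIntegral.integral_const_mul]
      rw [Finset.sum_congr rfl fun i _ => e2 i]
      rfl
    · intro i _
      exact (continuous_finsetSum _ fun m _ =>
        (hD (i + 1) (m + 1)).const_mul _).intervalIntegrable _ _
  rw [e]
  exact h3

theorem KK_size (h : Chr U Φ) (n : ℕ) (t : ℝ) :
    |KK U Φ n t - (1 / 4) * N4 U t| ≤
      (1 / 2) * J U 0 t ^ 2 + (1 / 2) * (∑ i ∈ Finset.range n, J U i t) ^ 2 := by
  have e : KK U Φ n t - (1 / 4) * N4 U t = -((1 / 2) * (Om U Φ 0 0 t + N4 U t)) -
      (1 / 2) * ∑ i ∈ Finset.range n, ∑ m ∈ Finset.range n,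
        beta (i + 1) (m + 1) * Om U Φ (i + 1) m t := by
    unfold KK
    ring
  have h1 : |∑ i ∈ Finset.range n, ∑ m ∈ Finset.range n,
        beta (i + 1) (m + 1) * Om U Φ (i + 1) m t| ≤ (∑ i ∈ Finset.range n, J U i t) ^ 2 := by
    rw [sq, Finset.sum_mul_sum]
    refine (Finset.abs_sum_le_sum_abs _ _).trans (Finset.sum_le_sum fun i _ => ?_)
    refine (Finset.abs_sum_le_sum_abs _ _).trans (Finset.sum_le_sum fun m _ => ?_)
    rw [abs_mul]
    calc |beta (i + 1) (m + 1)| * |Om U Φ (i + 1) m t| ≤ 1 * (J U i t * J U m t) :=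
          mul_le_mul (beta_abs_le _ _) (Om_abs_le h i m t) (abs_nonneg _) zero_le_one
      _ = J U i t * J U m t := one_mul _
  have h0 := Om_zero h t
  rw [e]
  refine (abs_sub _ _).trans ?_
  rw [abs_neg, abs_mul, abs_mul, abs_of_pos (by norm_num : (0:ℝ) < 1 / 2)]
  linarith

end Pool.MP_1df64d_an
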