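import Pool.Agent.Lib_MP_1df64d_an.Kder
import Pool.Agent.Lib_MP_1df64d_an.Bound
import Pool.Agent.Lib_MP_1df64d_an.Interp

/-! MP_1df64d_an, piece Local: local estimates for the adiabatic invariant. -/

open MeasureTheory Filter Topology Set

namespace Pool.MP_1df64d_an

variable {U Φ : ℝ → ℝ → ℝ}

theorem fac_lam_le {lam : ℝ} {n : ℕ} (hl : 0 ≤ lam) (hn : 5 * n * lam ≤ 1) :
    ∀ m ≤ n, (m.factorial : ℝ) * lam ^ m ≤ (1 / 5) ^ m := by
  intro m
  induction m with
  | zero => intro _; simp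
  | succ m ih =>
    intro hm
    have h1 := ih (by omega)
    have h2 : ((m + 1 : ℕ) : ℝ) * lam ≤ 1 / 5 := by
      have h3 : ((m + 1 : ℕ) : ℝ) ≤ n := by exact_mod_cast hm
      have h4 : ((m + 1 : ℕ) : ℝ) * lam ≤ n * lam := mul_le_mul_of_nonneg_right h3 hl
      linarith
    have h5 : (((m + 1).factorial : ℕ) : ℝ) * lam ^ (m + 1) =
        (((m + 1 : ℕ) : ℝ) * lam) * ((m.factorial : ℝ) * lam ^ m) := by
      rw [Nat.factorial_succ]; push_cast; ring
    rw [h5, pow_succ, mul_comm ((1 / 5 : ℝ) ^ m)]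
    exact mul_le_mul h2 h1 (by positivity) (by norm_num)

theorem sum_fifth (k : ℕ) : ∑ m ∈ Finset.range k, (1 / 5 : ℝ) ^ m ≤ 5 / 4 := by
  have h : ∑ m ∈ Finset.range k, (1 / 5 : ℝ) ^ m = 5 / 4 * (1 - (1 / 5) ^ k) := by
    induction k with
    | zero => simp
    | succ k ih => rw [Finset.sum_range_succ, ih, pow_succ]; ring
  rw [h]
  have : (0 : ℝ) ≤ (1 / 5) ^ k := by positivity
  linarith

theorem KK_near (h : Chr U Φ) {t M : ℝ} {n : ℕ} (hn1 : 1 ≤ n) (hM : 0 < M)
    (hn : 5 * n * (2560 * M ^ 2) ≤ 1)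
    (hW : ∀ τ ∈ Icc t (t + 2 * n), N4 U τ ≤ M ^ 4) :
    |KK U Φ n t - (1 / 4) * N4 U t| ≤ 1100000 * M ^ 6 := by
  have hl : (0 : ℝ) ≤ 2560 * M ^ 2 := by positivity
  have hnn : (0 : ℝ) ≤ n := Nat.cast_nonneg n
  have hn' : n * (2560 * M ^ 2) ≤ 1 := by
    have : 0 ≤ (n : ℝ) * (2560 * M ^ 2) := by positivity
    linarith
  obtain ⟨-, -, hJ⟩ := window_bound h hM hn' hW
  have hJ0 : J U 0 t ≤ (5 / 4) * M ^ 3 := J0_le h hM (hW t ⟨le_rfl, by linarith⟩)
  have hJ00 : 0 ≤ J U 0 t := J_nonneg U 0 t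
  have hS0 : 0 ≤ ∑ i ∈ Finset.range n, J U i t := Finset.sum_nonneg fun i _ => J_nonneg U i t
  have hS : ∑ i ∈ Finset.range n, J U i t ≤ 797 * M ^ 3 := by
    calc ∑ i ∈ Finset.range n, J U i t
        ≤ ∑ i ∈ Finset.range n, 637 * M ^ 3 * (1 / 5 : ℝ) ^ i := by
          apply Finset.sum_le_sum
          intro i hi
          have hi' := Finset.mem_range.mp hi
          have h1 := hJ i hi'
          have h2 := fac_lam_le hl hn i hi'.le
          have h3 : (i.factorial : ℝ) * wt i * (2560 * M ^ 2) ^ i ≤ (1 / 5 : ℝ) ^ i := by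
            have h4 : (i.factorial : ℝ) * wt i * (2560 * M ^ 2) ^ i =
                ((i.factorial : ℝ) * (2560 * M ^ 2) ^ i) * wt i := by ring
            rw [h4]
            calc ((i.factorial : ℝ) * (2560 * M ^ 2) ^ i) * wt i
                ≤ ((i.factorial : ℝ) * (2560 * M ^ 2) ^ i) * 1 :=
                  mul_le_mul_of_nonneg_left (wt_le_one i) (by positivity)
              _ ≤ (1 / 5 : ℝ) ^ i := by rw [mul_one]; exact h2
          have h5 : (i.factorial : ℝ) * wt i * (2560 * M ^ 2) ^ i * M ^ 3 ≤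
              (1 / 5 : ℝ) ^ i * M ^ 3 := mul_le_mul_of_nonneg_right h3 (by positivity)
          nlinarith [h1, h5]
      _ = 637 * M ^ 3 * ∑ i ∈ Finset.range n, (1 / 5 : ℝ) ^ i := by rw [Finset.mul_sum]
      _ ≤ 637 * M ^ 3 * (5 / 4) := mul_le_mul_of_nonneg_left (sum_fifth n) (by positivity)
      _ ≤ 797 * M ^ 3 := by
          have : 0 < M ^ 3 := by positivity
          nlinarith
  have hK := KK_size h n t
  have e1 : J U 0 t ^ 2 ≤ ((5 / 4) * M ^ 3) ^ 2 := pow_le_pow_left₀ hJ00 hJ0 2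
  have e2 : (∑ i ∈ Finset.range n, J U i t) ^ 2 ≤ (797 * M ^ 3) ^ 2 := pow_le_pow_left₀ hS0 hS 2
  have e3 : ((5 / 4) * M ^ 3) ^ 2 = 25 / 16 * M ^ 6 := by ring
  have e4 : (797 * M ^ 3) ^ 2 = 635209 * M ^ 6 := by ring
  have e5 : 0 < M ^ 6 := by positivity
  rw [e3] at e1
  rw [e4] at e2
  linarith

theorem KD_small (h : Chr U Φ) {t M : ℝ} {n : ℕ} (hn1 : 1 ≤ n) (hM : 0 < M)
    (hn : 5 * n * (2560 * M ^ 2) ≤ 1)
    (hW : ∀ τ ∈ Icc t (t + 2 * n), N4 U τ ≤ M ^ 4) :
    |KD U n t| ≤ 288 * (1 / 3) ^ n * (vv U t + M ^ 4) := by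
  have hl : (0 : ℝ) < 2560 * M ^ 2 := by positivity
  have hn' : n * (2560 * M ^ 2) ≤ 1 := by
    have : 0 ≤ (n : ℝ) * (2560 * M ^ 2) := by positivity
    linarith
  obtain ⟨hU, hR, -⟩ := window_bound h hM hn' hW
  have hfac : ∀ m ≤ n, (m.factorial : ℝ) * wt m * (2560 * M ^ 2) ^ m ≤ (1 / 5 : ℝ) ^ m := by
    intro m hm
    have h4 : (m.factorial : ℝ) * wt m * (2560 * M ^ 2) ^ m =
        ((m.factorial : ℝ) * (2560 * M ^ 2) ^ m) * wt m := by ring
    rw [h4]
    calc ((m.factorial : ℝ) * (2560 * M ^ 2) ^ m) * wt m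
        ≤ ((m.factorial : ℝ) * (2560 * M ^ 2) ^ m) * 1 :=
          mul_le_mul_of_nonneg_left (wt_le_one m) (by positivity)
      _ ≤ (1 / 5 : ℝ) ^ m := by rw [mul_one]; exact fac_lam_le hl.le hn m hm
  -- pointwise bound
  have hpt : ∀ x r : ℝ, r ∈ Icc (0:ℝ) 1 →
      |(cc U n t x r ^ 3 - AA U n t x r) * cd U n t x r| ≤
        288 * (1 / 3) ^ n * (U t x ^ 4 + M ^ 4) := by
    intro x r hr
    set Y : ℝ := |U t x| + M with hY
    have hY0 : 0 ≤ Y := by positivity
    have hMY : M ≤ Y := by rw [hY]; linarith [abs_nonneg (U t x)]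
    have ha : ∀ m ≤ n, |del U m t x| ≤ m.factorial * wt m * (2560 * M ^ 2) ^ m * Y := by
      intro m hm
      rcases Nat.eq_zero_or_pos m with rfl | hm0
      · rw [del_zero, wt_zero]
        simp only [Nat.factorial_zero, Nat.cast_one, pow_zero, mul_one, one_mul]
        rw [hY]; linarith
      · refine (hU m hm0 hm x).trans ?_
        have : 0 ≤ (m.factorial : ℝ) * wt m * (2560 * M ^ 2) ^ m := by
          have := wt_pos m
          positivity
        exact mul_le_mul_of_nonneg_left hMY this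
    have hint : ∀ k ≤ n, (∑ m ∈ Finset.range (n + 1), bb m (k:ℝ) * del U m t x) ^ 3 =
        ∑ m ∈ Finset.range (n + 1), bb m (k:ℝ) * rho U m t x := by
      intro k hk
      have h1 := cc_nat U n k hk t x
      have h2 := AA_nat U n k hk t x
      unfold cc at h1
      unfold AA at h2
      rw [h1, h2]
    have h1 := interp_bound hn1 hl hY0 hn (fun m => del U m t x) (fun m => rho U m t x) ha
      (fun m hm => hR m hm x) hint r hr
    have h2 : |cc U n t x r ^ 3 - AA U n t x r| ≤ 36 * (1 / 3) ^ n * Y ^ 3 := h1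
    have h3 : |cd U n t x r| ≤ M := by
      unfold cd
      refine (Finset.abs_sum_le_sum_abs _ _).trans ?_
      rw [Finset.sum_range_succ']
      have h0 : |db 0 r * del U 0 t x| = 0 := by simp [db]
      rw [h0, add_zero]
      calc ∑ m ∈ Finset.range n, |db (m + 1) r * del U (m + 1) t x|
          ≤ ∑ m ∈ Finset.range n, (1 / 5 : ℝ) * M * (1 / 5 : ℝ) ^ m := by
            apply Finset.sum_le_sum
            intro m hm
            have hm' := Finset.mem_range.mp hm
            rw [abs_mul]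
            have e1 := db_abs_le (m + 1) hr
            have e2 := hU (m + 1) (by omega) (by omega) x
            have e3 := hfac (m + 1) (by omega)
            have e4 : |del U (m + 1) t x| ≤ (1 / 5 : ℝ) ^ (m + 1) * M :=
              e2.trans (mul_le_mul_of_nonneg_right e3 hM.le)
            calc |db (m + 1) r| * |del U (m + 1) t x|
                ≤ 1 * ((1 / 5 : ℝ) ^ (m + 1) * M) :=
                  mul_le_mul e1 e4 (abs_nonneg _) zero_le_one
              _ = (1 / 5 : ℝ) * M * (1 / 5 : ℝ) ^ m := by rw [pow_succ]; ring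
        _ = (1 / 5 : ℝ) * M * ∑ m ∈ Finset.range n, (1 / 5 : ℝ) ^ m := by rw [Finset.mul_sum]
        _ ≤ (1 / 5 : ℝ) * M * (5 / 4) := mul_le_mul_of_nonneg_left (sum_fifth n) (by positivity)
        _ ≤ M := by linarith
    rw [abs_mul]
    have h4 : Y ^ 4 ≤ 8 * (U t x ^ 4 + M ^ 4) := by
      have e1 : |U t x| ^ 4 = U t x ^ 4 := by
        rw [← abs_pow, abs_of_nonneg (by positivity)]
      rw [← e1, hY]
      set a := |U t x| with ha'
      have ha0 : 0 ≤ a := abs_nonneg _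
      nlinarith [sq_nonneg (a - M), sq_nonneg (a ^ 2 - M ^ 2), mul_nonneg ha0 hM.le,
        mul_nonneg (sq_nonneg (a - M)) (mul_nonneg ha0 hM.le),
        mul_nonneg (sq_nonneg (a - M)) (sq_nonneg (a + M)),
        mul_nonneg (sq_nonneg (a - M)) (sq_nonneg a), mul_nonneg (sq_nonneg (a - M)) (sq_nonneg M)]
    calc |cc U n t x r ^ 3 - AA U n t x r| * |cd U n t x r|
        ≤ (36 * (1 / 3) ^ n * Y ^ 3) * Y :=
          mul_le_mul h2 (h3.trans hMY) (abs_nonneg _) (by positivity)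
      _ = 36 * (1 / 3) ^ n * Y ^ 4 := by ring
      _ ≤ 36 * (1 / 3) ^ n * (8 * (U t x ^ 4 + M ^ 4)) :=
          mul_le_mul_of_nonneg_left h4 (by positivity)
      _ = 288 * (1 / 3) ^ n * (U t x ^ 4 + M ^ 4) := by ring
  have hin : ∀ x : ℝ, |∫ r in (0:ℝ)..1, (cc U n t x r ^ 3 - AA U n t x r) * cd U n t x r| ≤
      288 * (1 / 3) ^ n * (U t x ^ 4 + M ^ 4) := by
    intro x
    have h1 := intervalIntegral.norm_integral_le_of_norm_le_const (a := (0:ℝ)) (b := 1)
      (f := fun r => (cc U n t x r ^ 3 - AA U n t x r) * cd U n t x r)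
      (C := 288 * (1 / 3) ^ n * (U t x ^ 4 + M ^ 4)) (by
        intro r hr
        rw [uIoc_of_le zero_le_one] at hr
        exact hpt x r ⟨hr.1.le, hr.2⟩)
    simpa using h1
  have hcont : Continuous (fun x => 288 * (1 / 3) ^ n * (U t x ^ 4 + M ^ 4)) :=
    (((U_cont_slice h t).pow 4).add continuous_const).const_mul _
  unfold KD
  have h5 := intervalIntegral.norm_integral_le_of_norm_le (μ := volume) (a := (0:ℝ)) (b := 1)
    (f := fun x => ∫ r in (0:ℝ)..1, (cc U n t x r ^ 3 - AA U n t x r) * cd U n t x r)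
    (g := fun x => 288 * (1 / 3) ^ n * (U t x ^ 4 + M ^ 4)) zero_le_one
    (Eventually.of_forall fun x _ => hin x) (hcont.intervalIntegrable _ _)
  refine h5.trans (le_of_eq ?_)
  rw [intervalIntegral.integral_const_mul, intervalIntegral.integral_add]
  · simp [vv]
  · exact ((U_cont_slice h t).pow 4).intervalIntegrable _ _
  · exact continuous_const.intervalIntegrable _ _

end Pool.MP_1df64d_an
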