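import Pool.Agent.Lib_MP_1df64d_an.Energy

/-! MP_1df64d_an, piece Omega: derivative of the antisymmetric forms. -/

open MeasureTheory Filter Topology Set

namespace Pool.MP_1df64d_an

variable {U Φ : ℝ → ℝ → ℝ}

namespace OmegaAux

/-- differentiation under the integral sign for continuous functions -/
theorem hasDerivAt_param {F F' : ℝ → ℝ → ℝ} (hF : Continuous (Function.uncurry F))
    (hF' : Continuous (Function.uncurry F')) (hd : ∀ x s, HasDerivAt (fun x => F x s) (F' x s) x)
    (a b x₀ : ℝ) :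
    HasDerivAt (fun x => ∫ s in a..b, F x s) (∫ s in a..b, F' x₀ s) x₀ := by
  have hK : IsCompact ((Icc (x₀ - 1) (x₀ + 1)) ×ˢ (uIcc a b) : Set (ℝ × ℝ)) :=
    isCompact_Icc.prod isCompact_uIcc
  obtain ⟨C, hC⟩ := hK.exists_bound_of_continuousOn hF'.continuousOn
  have hFx : ∀ x, Continuous (F x) := fun x => hF.comp (Continuous.prodMk_right x)
  have hFx' : ∀ x, Continuous (F' x) := fun x => hF'.comp (Continuous.prodMk_right x)
  refine (intervalIntegral.hasDerivAt_integral_of_dominated_loc_of_deriv_le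
    (s := Icc (x₀ - 1) (x₀ + 1)) (bound := fun _ => C)
    (Icc_mem_nhds (by linarith) (by linarith)) ?_ ?_ ?_ ?_ ?_ ?_).2
  · exact Eventually.of_forall fun x => (hFx x).aestronglyMeasurable
  · exact (hFx x₀).intervalIntegrable _ _
  · exact (hFx' x₀).aestronglyMeasurable
  · exact Eventually.of_forall fun s hs x hx => hC (x, s) ⟨hx, uIoc_subset_uIcc hs⟩
  · exact _root_.intervalIntegrable_const
  · exact Eventually.of_forall fun s _ x _ => hd x s

/-- derivative of the integral over a moving window -/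
theorem hasDerivAt_window {g : ℝ → ℝ} (hg : Continuous g) (t : ℝ) :
    HasDerivAt (fun t => ∫ s in t..(t + 2), g s) (g (t + 2) - g t) t := by
  have h0 : ∀ u, HasDerivAt (fun u => ∫ s in (0:ℝ)..u, g s) (g u) u := fun u =>
    (hg.integral_hasStrictDerivAt 0 u).hasDerivAt
  have h1 : HasDerivAt (fun t => ∫ s in (0:ℝ)..(t + 2), g s) (g (t + 2)) t := by
    have := (h0 (t + 2)).comp t ((hasDerivAt_id t).add_const 2)
    simpa [Function.comp_def] using this
  have h2 := h1.sub (h0 t)
  refine h2.congr_of_eventuallyEq (Eventually.of_forall fun u => ?_)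
  show ∫ s in u..(u + 2), g s = (∫ s in (0:ℝ)..(u + 2), g s) - ∫ s in (0:ℝ)..u, g s
  rw [intervalIntegral.integral_interval_sub_left (hg.intervalIntegrable _ _)
    (hg.intervalIntegrable _ _)]

theorem QQ_continuous (h : Chr U Φ) (m : ℕ) : Continuous (Function.uncurry (QQ U m)) := by
  have hr := rho_continuous h m
  have h1 : Function.uncurry (QQ U m) = fun p : ℝ × ℝ =>
      -∫ r in (0:ℝ)..2, rho U m (p.1 + r) (p.2 - (p.1 + r)) := by
    funext p
    show -∫ s in p.1..(p.1 + 2), rho U m s (p.2 - s) = _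
    congr 1
    have := intervalIntegral.integral_comp_add_left (a := (0:ℝ)) (b := 2)
      (fun s => rho U m s (p.2 - s)) p.1
    rw [this, add_zero]
  rw [h1]
  refine Continuous.neg ?_
  refine intervalIntegral.continuous_parametric_intervalIntegral_of_continuous' ?_ 0 2
  show Continuous fun q : (ℝ × ℝ) × ℝ => rho U m (q.1.1 + q.2) (q.1.2 - (q.1.1 + q.2))
  exact hr.comp (f := fun q : (ℝ × ℝ) × ℝ => (q.1.1 + q.2, q.1.2 - (q.1.1 + q.2)))
    (by fun_prop)

theorem A_continuous (h : Chr U Φ) (i : ℕ) :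
    Continuous (fun p : ℝ × ℝ => ∫ z in (0:ℝ)..p.2, rho U i p.1 z) := by
  have hr := rho_continuous h i
  exact intervalIntegral.continuous_parametric_intervalIntegral_of_continuous
    (f := fun (p : ℝ × ℝ) z => rho U i p.1 z)
    (hr.comp (f := fun q : (ℝ × ℝ) × ℝ => (q.1.1, q.2)) (by fun_prop)) continuous_snd

theorem rho_slice (h : Chr U Φ) (i : ℕ) (t : ℝ) : Continuous (rho U i t) :=
  (rho_continuous h i).comp (Continuous.prodMk_right t)

theorem period_zero (h : Chr U Φ) (i : ℕ) (t a : ℝ) : ∫ z in a..(a + 2), rho U i t z = 0 := by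
  have hp : Function.Periodic (rho U i t) 2 := fun x => rho_per h i t x
  rw [hp.intervalIntegral_add_eq a (-1)]
  have h1 : (-1 : ℝ) + 2 = 1 := by norm_num
  rw [h1]
  have hc := rho_slice h i t
  rw [← intervalIntegral.integral_add_adjacent_intervals (hc.intervalIntegrable (-1) 0)
    (hc.intervalIntegrable 0 1)]
  have h2 : ∫ z in (-1:ℝ)..0, rho U i t z = ∫ z in (0:ℝ)..1, rho U i t (-z) := by
    rw [intervalIntegral.integral_comp_neg]
    simp
  have hcn : Continuous (fun z => rho U i t (-z)) := hc.comp continuous_neg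
  rw [h2, ← intervalIntegral.integral_add (hcn.intervalIntegrable _ _)
    (hc.intervalIntegrable _ _)]
  have h3 : (fun z => rho U i t (-z) + rho U i t z) = fun _ => 0 := by
    funext z
    rw [rho_odd h]
    ring
  rw [h3]
  simp

end OmegaAux

open OmegaAux

/-- `∂_t QQ = - rho (m+1)`. -/
theorem QQ_hasDerivAt (h : Chr U Φ) (m : ℕ) (t y : ℝ) :
    HasDerivAt (fun t => QQ U m t y) (-rho U (m + 1) t (y - t)) t := by
  have hg : Continuous (fun s => rho U m s (y - s)) :=
    (rho_continuous h m).comp (f := fun s : ℝ => (s, y - s)) (by fun_prop)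
  have h1 := (hasDerivAt_window hg t).neg
  have h2 : -(rho U m (t + 2) (y - (t + 2)) - rho U m t (y - t)) = -rho U (m + 1) t (y - t) := by
    rw [rho_succ]
    have h3 : rho U m (t + 2) (y - (t + 2)) = rho U m (t + 2) (y - t) := by
      rw [← rho_per h m (t + 2) (y - (t + 2))]
      congr 1
      ring
    rw [h3]
  rw [h2] at h1
  exact h1

/-- `∂_y (del Φ (m+1)) = QQ m`. -/
theorem delP_hasDerivAt_space (h : Chr U Φ) (m : ℕ) (t y : ℝ) :
    HasDerivAt (fun y => del Φ (m + 1) t y) (QQ U m t y) y := by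
  have h1 : (fun y => del Φ (m + 1) t y) =
      fun y => -∫ s in t..(t + 2), ∫ z in (0:ℝ)..(y - s), rho U m s z := by
    funext y
    exact del_succ_eq h m t y
  rw [h1]
  refine HasDerivAt.neg ?_
  refine hasDerivAt_param (F := fun y s => ∫ z in (0:ℝ)..(y - s), rho U m s z)
    (F' := fun y s => rho U m s (y - s)) ?_ ?_ ?_ t (t + 2) y
  · exact (A_continuous h m).comp (f := fun p : ℝ × ℝ => (p.2, p.1 - p.2)) (by fun_prop)
  · exact (rho_continuous h m).comp (f := fun p : ℝ × ℝ => (p.2, p.1 - p.2)) (by fun_prop)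
  · intro y s
    have h2 := ((rho_slice h m s).integral_hasStrictDerivAt 0 (y - s)).hasDerivAt
    have h3 := h2.comp y ((hasDerivAt_id y).sub_const s)
    simpa [Function.comp_def] using h3

theorem Om_hasDerivAt (h : Chr U Φ) (i m : ℕ) (t : ℝ) :
    HasDerivAt (Om U Φ i m)
      (∫ x in (0:ℝ)..1, (rho U i t x * del U (m + 1) t x - del U i t x * rho U (m + 1) t x)) t := by
  have hPc : ∀ k, Continuous (Function.uncurry (del Φ k)) := fun k => del_continuous h.contP k
  have hPs : ∀ k, Continuous (del Φ k t) := fun k => (hPc k).comp (Continuous.prodMk_right t)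
  have hQc := QQ_continuous h m
  have hQs : Continuous (QQ U m t) := hQc.comp (Continuous.prodMk_right t)
  have hrc := fun k => rho_continuous h k
  have hrs := fun k => rho_slice h k t
  -- step 1: differentiate under the integral
  have h1 : HasDerivAt (fun t => ∫ y in (0:ℝ)..2, del Φ i t y * QQ U m t y)
      (∫ y in (0:ℝ)..2, ((-∫ z in (0:ℝ)..(y - t), rho U i t z) * QQ U m t y +
        del Φ i t y * (-rho U (m + 1) t (y - t)))) t := by
    refine hasDerivAt_param (F := fun t y => del Φ i t y * QQ U m t y)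
      (F' := fun t y => (-∫ z in (0:ℝ)..(y - t), rho U i t z) * QQ U m t y +
        del Φ i t y * (-rho U (m + 1) t (y - t))) ?_ ?_ ?_ 0 2 t
    · exact (hPc i).mul hQc
    · have c1 : Continuous (fun p : ℝ × ℝ => ∫ z in (0:ℝ)..(p.2 - p.1), rho U i p.1 z) :=
        (A_continuous h i).comp (f := fun p : ℝ × ℝ => (p.1, p.2 - p.1)) (by fun_prop)
      have c2 : Continuous (fun p : ℝ × ℝ => rho U (m + 1) p.1 (p.2 - p.1)) :=
        (hrc (m + 1)).comp (f := fun p : ℝ × ℝ => (p.1, p.2 - p.1)) (by fun_prop)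
      exact (c1.neg.mul hQc).add ((hPc i).mul c2.neg)
    · intro τ y
      exact (del_hasDerivAt h i τ y).mul (QQ_hasDerivAt h m τ y)
  -- step 2: integration by parts
  have hA : ∀ y, HasDerivAt (fun y => ∫ z in (0:ℝ)..(y - t), rho U i t z)
      (rho U i t (y - t)) y := by
    intro y
    have h2 := ((hrs i).integral_hasStrictDerivAt 0 (y - t)).hasDerivAt
    have h3 := h2.comp y ((hasDerivAt_id y).sub_const t)
    simpa [Function.comp_def] using h3
  have hAc : Continuous (fun y => ∫ z in (0:ℝ)..(y - t), rho U i t z) :=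
    continuous_iff_continuousAt.2 fun y => (hA y).continuousAt
  have hrt : ∀ k, Continuous (fun y => rho U k t (y - t)) := fun k =>
    (hrs k).comp (continuous_id.sub continuous_const)
  have hparts := intervalIntegral.integral_mul_deriv_eq_deriv_mul (a := (0:ℝ)) (b := 2)
    (u := fun y => ∫ z in (0:ℝ)..(y - t), rho U i t z) (v := fun y => del Φ (m + 1) t y)
    (u' := fun y => rho U i t (y - t)) (v' := fun y => QQ U m t y)
    (fun y _ => hA y) (fun y _ => delP_hasDerivAt_space h m t y)
    ((hrt i).intervalIntegrable _ _) (hQs.intervalIntegrable _ _)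
  have hA2 : (∫ z in (0:ℝ)..(2 - t), rho U i t z) = ∫ z in (0:ℝ)..(0 - t), rho U i t z := by
    have e1 := period_zero h i t (0 - t)
    have e2 : (0 - t + 2 : ℝ) = 2 - t := by ring
    rw [e2] at e1
    rw [← intervalIntegral.integral_add_adjacent_intervals
      ((hrs i).intervalIntegrable 0 (0 - t)) ((hrs i).intervalIntegrable (0 - t) (2 - t)), e1,
      add_zero]
  have hP2 : del Φ (m + 1) t 2 = del Φ (m + 1) t 0 := by
    have := del_perP h (m + 1) t 0
    rwa [zero_add] at this
  have hparts2 : ∫ y in (0:ℝ)..2, (∫ z in (0:ℝ)..(y - t), rho U i t z) * QQ U m t y =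
      -∫ y in (0:ℝ)..2, rho U i t (y - t) * del Φ (m + 1) t y := by
    rw [hparts]
    show (∫ z in (0:ℝ)..(2 - t), rho U i t z) * del Φ (m + 1) t 2 -
      (∫ z in (0:ℝ)..(0 - t), rho U i t z) * del Φ (m + 1) t 0 - _ = _
    rw [hA2, hP2]
    ring
  -- the periodic function
  set G : ℝ → ℝ := fun x => rho U i t x * del Φ (m + 1) t (t + x) -
    del Φ i t (t + x) * rho U (m + 1) t x with hG
  have hPt : ∀ k, Continuous (fun x => del Φ k t (t + x)) := fun k =>
    (hPs k).comp (continuous_const.add continuous_id)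
  have hGc : Continuous G := ((hrs i).mul (hPt (m + 1))).sub ((hPt i).mul (hrs (m + 1)))
  have hGp : Function.Periodic G 2 := by
    intro x
    show rho U i t (x + 2) * del Φ (m + 1) t (t + (x + 2)) -
      del Φ i t (t + (x + 2)) * rho U (m + 1) t (x + 2) = _
    rw [rho_per h, rho_per h, ← add_assoc, del_perP h, del_perP h]
  have h4 : ∫ y in (0:ℝ)..2, ((-∫ z in (0:ℝ)..(y - t), rho U i t z) * QQ U m t y +
      del Φ i t y * (-rho U (m + 1) t (y - t))) = ∫ y in (0:ℝ)..2, G (y - t) := by
    have e1 : (fun y => (-∫ z in (0:ℝ)..(y - t), rho U i t z) * QQ U m t y +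
        del Φ i t y * (-rho U (m + 1) t (y - t))) = fun y =>
        -((∫ z in (0:ℝ)..(y - t), rho U i t z) * QQ U m t y) -
        del Φ i t y * rho U (m + 1) t (y - t) := by
      funext y
      ring
    rw [e1, intervalIntegral.integral_sub, intervalIntegral.integral_neg, hparts2, neg_neg,
      ← intervalIntegral.integral_sub]
    · congr 1
      funext y
      show _ = rho U i t (y - t) * del Φ (m + 1) t (t + (y - t)) -
        del Φ i t (t + (y - t)) * rho U (m + 1) t (y - t)
      rw [add_sub_cancel]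
    · exact ((hrt i).mul (hPs (m + 1))).intervalIntegrable _ _
    · exact ((hPs i).mul (hrt (m + 1))).intervalIntegrable _ _
    · exact (hAc.mul hQs).neg.intervalIntegrable _ _
    · exact ((hPs i).mul (hrt (m + 1))).intervalIntegrable _ _
  have h5 : ∫ y in (0:ℝ)..2, G (y - t) = ∫ x in (-1:ℝ)..1, G x := by
    rw [intervalIntegral.integral_comp_sub_right]
    have e1 : (2 - t : ℝ) = (0 - t) + 2 := by ring
    rw [e1, hGp.intervalIntegral_add_eq (0 - t) (-1)]
    norm_num
  have h6 : ∫ x in (-1:ℝ)..1, G x = 2 * ∫ x in (0:ℝ)..1, (rho U i t x * del U (m + 1) t x -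
      del U i t x * rho U (m + 1) t x) := by
    rw [← intervalIntegral.integral_add_adjacent_intervals (hGc.intervalIntegrable (-1) 0)
      (hGc.intervalIntegrable 0 1)]
    have e1 : ∫ x in (-1:ℝ)..0, G x = ∫ x in (0:ℝ)..1, G (-x) := by
      rw [intervalIntegral.integral_comp_neg]
      simp
    have hGn : Continuous (fun x => G (-x)) := hGc.comp continuous_neg
    rw [e1, ← intervalIntegral.integral_add (hGn.intervalIntegrable _ _)
      (hGc.intervalIntegrable _ _), ← intervalIntegral.integral_const_mul]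
    congr 1
    funext x
    show rho U i t (-x) * del Φ (m + 1) t (t + -x) - del Φ i t (t + -x) * rho U (m + 1) t (-x) +
      (rho U i t x * del Φ (m + 1) t (t + x) - del Φ i t (t + x) * rho U (m + 1) t x) = _
    rw [rho_odd h, rho_odd h, del_rel h (m + 1), del_rel h i, ← sub_eq_add_neg]
    ring
  rw [h4, h5, h6] at h1
  have h7 := h1.const_mul (1 / 2 : ℝ)
  have h8 : (1 / 2 : ℝ) * (2 * ∫ x in (0:ℝ)..1, (rho U i t x * del U (m + 1) t x -
      del U i t x * rho U (m + 1) t x)) = ∫ x in (0:ℝ)..1, (rho U i t x * del U (m + 1) t x -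
      del U i t x * rho U (m + 1) t x) := by ring
  rw [h8] at h7
  exact h7

end Pool.MP_1df64d_an
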