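import Pool.Agent.Lib_MP_1df64d_an.Base
import Pool.Agent.Lib_MP_1df64d_an.Dbr

/-! MP_1df64d_an, piece Test: testing with products `T(t) X(x)`. -/

open MeasureTheory Filter Topology Set

namespace Pool.MP_1df64d_an

variable {u ux v : ℝ → ℝ → ℝ}

/-- an integral over `[0,1]` of a function continuous on the strip is continuous in time -/
theorem continuous_strip {w : ℝ → ℝ → ℝ} (hw : ContinuousOn (Function.uncurry w)
    (univ ×ˢ Icc (0:ℝ) 1)) : Continuous (fun t => ∫ x in (0:ℝ)..1, w t x) := by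
  have hc : Continuous (fun p : ℝ × ℝ => w p.1 (max 0 (min 1 p.2))) := by
    have h1 : Continuous (fun p : ℝ × ℝ => ((p.1, max 0 (min 1 p.2)) : ℝ × ℝ)) := by fun_prop
    refine (hw.comp_continuous h1 ?_)
    intro p
    refine ⟨mem_univ _, le_max_left _ _, max_le zero_le_one (min_le_left _ _)⟩
  have h2 : (fun t => ∫ x in (0:ℝ)..1, w t x) =
      fun t => ∫ x in (0:ℝ)..1, w t (max 0 (min 1 x)) := by
    funext t
    refine intervalIntegral.integral_congr fun x hx => ?_
    rw [uIcc_of_le zero_le_one] at hx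
    simp only [min_eq_right hx.2, max_eq_right hx.1]
  rw [h2]
  exact intervalIntegral.continuous_parametric_intervalIntegral_of_continuous' hc 0 1

theorem slice_cont {w : ℝ → ℝ → ℝ} (hw : ContinuousOn (Function.uncurry w)
    (univ ×ˢ Icc (0:ℝ) 1)) (t : ℝ) : ContinuousOn (w t) (Icc (0:ℝ) 1) := by
  have h1 : ContinuousOn (fun x : ℝ => ((t, x) : ℝ × ℝ)) (Icc (0:ℝ) 1) := by fun_prop
  exact hw.comp h1 fun x hx => ⟨mem_univ _, hx⟩

theorem test_phi {T X : ℝ → ℝ} (hT : ContDiff ℝ ((⊤ : ℕ∞) : WithTop ℕ∞) T)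
    (hTc : HasCompactSupport T) (hX : ContDiff ℝ ((⊤ : ℕ∞) : WithTop ℕ∞) X)
    (hXc : HasCompactSupport X) (hXs : tsupport X ⊆ Ioo (0:ℝ) 1) :
    ContDiff ℝ ((⊤ : ℕ∞) : WithTop ℕ∞) (fun p : ℝ × ℝ => T p.1 * X p.2) ∧
    HasCompactSupport (fun p : ℝ × ℝ => T p.1 * X p.2) ∧
    tsupport (fun p : ℝ × ℝ => T p.1 * X p.2) ⊆ (univ : Set ℝ) ×ˢ Ioo (0:ℝ) 1 := by
  have hsub : Function.support (fun p : ℝ × ℝ => T p.1 * X p.2) ⊆ tsupport T ×ˢ tsupport X := by
    intro p hp
    have hp' : T p.1 * X p.2 ≠ 0 := hp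
    exact ⟨subset_tsupport T (left_ne_zero_of_mul hp'), subset_tsupport X (right_ne_zero_of_mul hp')⟩
  have hcl : IsClosed (tsupport T ×ˢ tsupport X) :=
    (isClosed_tsupport T).prod (isClosed_tsupport X)
  have hts : tsupport (fun p : ℝ × ℝ => T p.1 * X p.2) ⊆ tsupport T ×ˢ tsupport X :=
    closure_minimal hsub hcl
  refine ⟨(hT.comp contDiff_fst).mul (hX.comp contDiff_snd), ?_, ?_⟩
  · exact IsCompact.of_isClosed_subset (hTc.isCompact.prod hXc.isCompact)
      (isClosed_tsupport _) hts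
  · intro p hp
    exact ⟨mem_univ _, hXs (hts hp).2⟩

theorem fderiv_phi {T X : ℝ → ℝ} (hT : ContDiff ℝ ((⊤ : ℕ∞) : WithTop ℕ∞) T)
    (hX : ContDiff ℝ ((⊤ : ℕ∞) : WithTop ℕ∞) X) (t x a b : ℝ) :
    fderiv ℝ (fun p : ℝ × ℝ => T p.1 * X p.2) (t, x) (a, b) =
      a * (deriv T t * X x) + b * (T t * deriv X x) := by
  have h1 : HasFDerivAt (fun p : ℝ × ℝ => T p.1)
      ((deriv T t) • ContinuousLinearMap.fst ℝ ℝ ℝ) (t, x) := by
    have hd : HasDerivAt T (deriv T t) t :=
      ((hT.differentiable (by simp)) t).hasDerivAt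
    exact hd.comp_hasFDerivAt (t, x) (hasFDerivAt_fst (𝕜 := ℝ) (p := ((t, x) : ℝ × ℝ)))
  have h2 : HasFDerivAt (fun p : ℝ × ℝ => X p.2)
      ((deriv X x) • ContinuousLinearMap.snd ℝ ℝ ℝ) (t, x) := by
    have hd : HasDerivAt X (deriv X x) x :=
      ((hX.differentiable (by simp)) x).hasDerivAt
    exact hd.comp_hasFDerivAt (t, x) (hasFDerivAt_snd (𝕜 := ℝ) (p := ((t, x) : ℝ × ℝ)))
  have h3 : HasFDerivAt (fun p : ℝ × ℝ => T p.1 * X p.2) _ (t, x) := h1.mul h2
  rw [h3.fderiv]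
  simp
  ring

theorem test_u (h : IsSol u ux v) {X : ℝ → ℝ} (hX : ContDiff ℝ ((⊤ : ℕ∞) : WithTop ℕ∞) X)
    (hXc : HasCompactSupport X) (hXs : tsupport X ⊆ Ioo (0:ℝ) 1) (s t : ℝ) :
    (∫ x in (0:ℝ)..1, u t x * X x) - (∫ x in (0:ℝ)..1, u s x * X x) =
      ∫ τ in s..t, ∫ x in (0:ℝ)..1, v τ x * X x := by
  have hu := sol_cont_u h
  have hXm : Measurable X := hX.continuous.measurable
  obtain ⟨C, hC⟩ := hXc.exists_bound_of_continuous hX.continuous
  have hC' : ∀ x, |X x| ≤ C := fun x => by simpa using hC x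
  have hstrip : ContinuousOn (Function.uncurry fun t x => u t x * X x)
      (univ ×ˢ Icc (0:ℝ) 1) :=
    hu.mul (hX.continuous.comp continuous_snd).continuousOn
  have hf : Continuous (fun t => ∫ x in (0:ℝ)..1, u t x * X x) := continuous_strip hstrip
  have hg : Continuous (fun t => ∫ x in (0:ℝ)..1, v t x * X x) := sol_cont_v h hXm hC'
  refine dbr_time (f := fun t => ∫ x in (0:ℝ)..1, u t x * X x)
    (g := fun t => ∫ x in (0:ℝ)..1, v t x * X x) hf hg ?_ s t
  intro T hT hTc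
  obtain ⟨p1, p2, p3⟩ := test_phi hT hTc hX hXc hXs
  have hw := (h.weak _ p1 p2 p3).1
  refine Eq.trans ?_ hw
  refine integral_congr_ae (Eventually.of_forall fun t => ?_)
  simp only [fderiv_phi hT hX]
  have hi1 : IntervalIntegrable (fun x => u t x * X x) volume 0 1 := by
    apply ContinuousOn.intervalIntegrable
    rw [uIcc_of_le zero_le_one]
    exact slice_cont hstrip t
  have hi2 : IntervalIntegrable (fun x => v t x * X x) volume 0 1 :=
    (sol_int_v h t).mul_continuousOn hX.continuous.continuousOn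
  rw [← intervalIntegral.integral_mul_const, ← intervalIntegral.integral_mul_const,
    ← intervalIntegral.integral_add (hi1.mul_const _) (hi2.mul_const _)]
  refine intervalIntegral.integral_congr fun x _ => ?_
  ring

theorem test_v (h : IsSol u ux v) {X : ℝ → ℝ} (hX : ContDiff ℝ ((⊤ : ℕ∞) : WithTop ℕ∞) X)
    (hXc : HasCompactSupport X) (hXs : tsupport X ⊆ Ioo (0:ℝ) 1) (s t : ℝ) :
    (∫ x in (0:ℝ)..1, v t x * X x) - (∫ x in (0:ℝ)..1, v s x * X x) =
      -∫ τ in s..t, ∫ x in (0:ℝ)..1, (ux τ x * deriv X x + u τ x ^ 3 * X x) := by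
  have hu := sol_cont_u h
  have hXm : Measurable X := hX.continuous.measurable
  obtain ⟨C, hC⟩ := hXc.exists_bound_of_continuous hX.continuous
  have hC' : ∀ x, |X x| ≤ C := fun x => by simpa using hC x
  have hX' : Continuous (deriv X) := hX.continuous_deriv (by simp)
  obtain ⟨C1, hC1⟩ := hXc.deriv.exists_bound_of_continuous hX'
  have hC1' : ∀ x, |deriv X x| ≤ C1 := fun x => by simpa using hC1 x
  have hstrip : ContinuousOn (Function.uncurry fun t x => u t x ^ 3 * X x)
      (univ ×ˢ Icc (0:ℝ) 1) :=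
    (hu.pow 3).mul (hX.continuous.comp continuous_snd).continuousOn
  have hg1 : Continuous (fun t => ∫ x in (0:ℝ)..1, u t x ^ 3 * X x) := continuous_strip hstrip
  have hg2 : Continuous (fun t => ∫ x in (0:ℝ)..1, ux t x * deriv X x) :=
    sol_cont_ux h hX'.measurable hC1'
  have hf : Continuous (fun t => ∫ x in (0:ℝ)..1, v t x * X x) := sol_cont_v h hXm hC'
  have hi1 : ∀ t, IntervalIntegrable (fun x => u t x ^ 3 * X x) volume 0 1 := by
    intro t
    apply ContinuousOn.intervalIntegrable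
    rw [uIcc_of_le zero_le_one]
    exact slice_cont hstrip t
  have hi2 : ∀ t, IntervalIntegrable (fun x => ux t x * deriv X x) volume 0 1 := fun t =>
    (sol_int_ux h t).mul_continuousOn hX'.continuousOn
  have hi3 : ∀ t, IntervalIntegrable (fun x => v t x * X x) volume 0 1 := fun t =>
    (sol_int_v h t).mul_continuousOn hX.continuous.continuousOn
  have hsplit : ∀ t, (∫ x in (0:ℝ)..1, (ux t x * deriv X x + u t x ^ 3 * X x)) =
      (∫ x in (0:ℝ)..1, ux t x * deriv X x) + ∫ x in (0:ℝ)..1, u t x ^ 3 * X x := fun t =>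
    intervalIntegral.integral_add (hi2 t) (hi1 t)
  have hg : Continuous (fun t => -∫ x in (0:ℝ)..1, (ux t x * deriv X x + u t x ^ 3 * X x)) := by
    simp only [hsplit]
    exact (hg2.add hg1).neg
  rw [← intervalIntegral.integral_neg]
  refine dbr_time (f := fun t => ∫ x in (0:ℝ)..1, v t x * X x)
    (g := fun t => -∫ x in (0:ℝ)..1, (ux t x * deriv X x + u t x ^ 3 * X x)) hf hg ?_ s t
  intro T hT hTc
  obtain ⟨p1, p2, p3⟩ := test_phi hT hTc hX hXc hXs
  have hw := (h.weak _ p1 p2 p3).2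
  refine neg_eq_zero.mp (Eq.trans ?_ hw)
  rw [← integral_neg]
  refine integral_congr_ae (Eventually.of_forall fun t => ?_)
  simp only [fderiv_phi hT hX, hsplit]
  have e1 : ∀ x, -(v t x * (1 * (deriv T t * X x) + 0 * (T t * deriv X x))) +
      ux t x * (0 * (deriv T t * X x) + 1 * (T t * deriv X x)) + u t x ^ 3 * (T t * X x) =
      (v t x * X x) * (-deriv T t) + ((ux t x * deriv X x) * T t + (u t x ^ 3 * X x) * T t) := by
    intro x; ring
  simp only [e1]
  rw [intervalIntegral.integral_add ((hi3 t).mul_const _)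
      (((hi2 t).mul_const _).add ((hi1 t).mul_const _)),
    intervalIntegral.integral_add ((hi2 t).mul_const _) ((hi1 t).mul_const _),
    intervalIntegral.integral_mul_const, intervalIntegral.integral_mul_const,
    intervalIntegral.integral_mul_const]
  ring

end Pool.MP_1df64d_an
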