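import Pool.Agent.Lib_MP_1df64d_an.Defs

/-! MP_1df64d_an, piece Transp: the transport equation in integrated form. -/

open MeasureTheory Filter Topology Set

namespace Pool.MP_1df64d_an

/-- `L t b = ∫_0^b S t x dx` is `C^1`; differentiate `L t (y - t)` in `t`, then in `y`. -/
theorem transport {S G : ℝ → ℝ → ℝ} (hS : Continuous (Function.uncurry S))
    (hG : Continuous (Function.uncurry G))
    (h : ∀ s t a b : ℝ, ∫ x in a..b, (S t x - S s x) =
      (∫ τ in s..t, (S τ b - S τ a)) - ∫ τ in s..t, ∫ x in a..b, G τ x) (s t y : ℝ) :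
    S t (y - t) - S s (y - s) = -∫ τ in s..t, G τ (y - τ) := by
  have hSt : ∀ t, Continuous (S t) := fun t => hS.comp (by fun_prop : Continuous fun x => (t, x))
  have hSc : Continuous fun p : ℝ × ℝ => S p.1 p.2 := hS
  have hGc : Continuous fun p : ℝ × ℝ => G p.1 p.2 := hG
  set L : ℝ → ℝ → ℝ := fun t b => ∫ x in (0:ℝ)..b, S t x with hL
  set K : ℝ → ℝ → ℝ := fun t b => ∫ x in (0:ℝ)..b, G t x with hK
  have hKc : Continuous fun p : ℝ × ℝ => K p.1 p.2 :=
    intervalIntegral.continuous_parametric_primitive_of_continuous (f := G) hG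
  set P : ℝ → ℝ → ℝ := fun t b => S t b - S t 0 - K t b with hP
  have hPc : Continuous fun p : ℝ × ℝ => P p.1 p.2 := by
    have h0 : Continuous fun p : ℝ × ℝ => S p.1 0 :=
      hSc.comp (by fun_prop : Continuous fun p : ℝ × ℝ => (p.1, (0:ℝ)))
    exact (hSc.sub h0).sub hKc
  have hPb : ∀ b, Continuous fun t => P t b := fun b =>
    hPc.comp (by fun_prop : Continuous fun t : ℝ => (t, b))
  have hKb : ∀ b, Continuous fun t => K t b := fun b =>
    hKc.comp (by fun_prop : Continuous fun t : ℝ => (t, b))
  have hSb : ∀ b, Continuous fun t => S t b := fun b =>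
    hSc.comp (by fun_prop : Continuous fun t : ℝ => (t, b))
  -- increments in time
  have hLt : ∀ s t b, L t b - L s b = ∫ τ in s..t, P τ b := by
    intro s t b
    have h1 := h s t 0 b
    rw [intervalIntegral.integral_sub ((hSt t).intervalIntegrable _ _)
      ((hSt s).intervalIntegrable _ _)] at h1
    rw [hL, hP]
    simp only
    have i1 : IntervalIntegrable (fun τ => S τ b - S τ 0) volume s t :=
      ((hSb b).sub (hSb 0)).intervalIntegrable _ _
    rw [h1, intervalIntegral.integral_sub i1 ((hKb b).intervalIntegrable _ _)]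
  have hd1 : ∀ t b, HasDerivAt (fun t => L t b) (P t b) t := by
    intro t b
    have h1 : (fun t => L t b) = fun t => L 0 b + ∫ τ in (0:ℝ)..t, P τ b := by
      funext t'
      have := hLt 0 t' b
      linarith
    rw [h1]
    exact (intervalIntegral.integral_hasDerivAt_right ((hPb b).intervalIntegrable _ _)
      ((hPb b).stronglyMeasurableAtFilter _ _) (hPb b).continuousAt).const_add _
  have hd2 : ∀ t b, HasDerivAt (fun b => L t b) (S t b) b := by
    intro t b
    exact intervalIntegral.integral_hasDerivAt_right ((hSt t).intervalIntegrable _ _)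
      ((hSt t).stronglyMeasurableAtFilter _ _) (hSt t).continuousAt
  have hLd : ∀ u : ℝ × ℝ, HasStrictFDerivAt (fun p : ℝ × ℝ => L p.1 p.2)
      ((ContinuousLinearMap.toSpanSingleton ℝ (P u.1 u.2)).coprod
        (ContinuousLinearMap.toSpanSingleton ℝ (S u.1 u.2))) u := by
    intro u
    have h1 := hasStrictFDerivAt_uncurry_coprod (𝕜 := ℝ) (u := u) (f := L)
      (f₁ := fun a b => ContinuousLinearMap.toSpanSingleton ℝ (P a b))
      (f₂ := fun a b => ContinuousLinearMap.toSpanSingleton ℝ (S a b))
      (Eventually.of_forall fun v => (hd1 v.1 v.2).hasFDerivAt)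
      (Eventually.of_forall fun v => (hd2 v.1 v.2).hasFDerivAt)
      (by
        have : Continuous fun p : ℝ × ℝ => ContinuousLinearMap.toSpanSingleton ℝ (P p.1 p.2) :=
          (ContinuousLinearMap.toSpanSingletonCLE (𝕜 := ℝ) (E := ℝ)).continuous.comp hPc
        exact this.continuousAt)
      (by
        have : Continuous fun p : ℝ × ℝ => ContinuousLinearMap.toSpanSingleton ℝ (S p.1 p.2) :=
          (ContinuousLinearMap.toSpanSingletonCLE (𝕜 := ℝ) (E := ℝ)).continuous.comp hSc
        exact this.continuousAt)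
    exact h1
  -- along the characteristic
  have hchar : ∀ y t, HasDerivAt (fun t => L t (y - t)) (-S t 0 - K t (y - t)) t := by
    intro y t
    have h1 : HasDerivAt (fun t : ℝ => ((t, y - t) : ℝ × ℝ)) ((1, -1) : ℝ × ℝ) t := by
      have h2 : HasDerivAt (fun t : ℝ => y - t) (-1) t := by
        simpa using (hasDerivAt_id t).const_sub y
      exact (hasDerivAt_id t).prodMk h2
    have h3 := (hLd (t, y - t)).hasFDerivAt.comp_hasDerivAt t h1
    have h4 : ((ContinuousLinearMap.toSpanSingleton ℝ (P (t, y - t).1 (t, y - t).2)).coprod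
        (ContinuousLinearMap.toSpanSingleton ℝ (S (t, y - t).1 (t, y - t).2))) ((1, -1) : ℝ × ℝ)
        = -S t 0 - K t (y - t) := by
      simp [hP]
      ring
    rw [h4] at h3
    exact h3
  have hcc : ∀ y, Continuous fun t => -S t 0 - K t (y - t) := by
    intro y
    have h1 : Continuous fun t : ℝ => K t (y - t) :=
      hKc.comp (by fun_prop : Continuous fun t : ℝ => (t, y - t))
    exact (hSb 0).neg.sub h1
  have hint : ∀ y, L t (y - t) - L s (y - s)
      = ∫ τ in s..t, (-S τ 0 - K τ (y - τ)) := by
    intro y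
    rw [intervalIntegral.integral_eq_sub_of_hasDerivAt (f := fun t => L t (y - t))
      (fun x _ => hchar y x) ((hcc y).intervalIntegrable _ _)]
  -- Fubini: the dependence on y
  have hGt : ∀ τ, Continuous (G τ) := fun τ => hGc.comp (by fun_prop : Continuous fun x => (τ, x))
  have hG2 : Continuous fun p : ℝ × ℝ => G p.1 (p.2 - p.1) :=
    hGc.comp (by fun_prop : Continuous fun p : ℝ × ℝ => (p.1, p.2 - p.1))
  have hfub : ∀ y, (∫ τ in s..t, K τ (y - τ)) = (∫ τ in s..t, K τ (0 - τ)) +
      ∫ z in (0:ℝ)..y, ∫ τ in s..t, G τ (z - τ) := by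
    intro y
    have h1 : ∀ τ, K τ (y - τ) = K τ (0 - τ) + ∫ z in (0:ℝ)..y, G τ (z - τ) := by
      intro τ
      rw [intervalIntegral.integral_comp_sub_right (fun x => G τ x) τ, hK]
      simp only
      rw [intervalIntegral.integral_add_adjacent_intervals ((hGt τ).intervalIntegrable _ _)
        ((hGt τ).intervalIntegrable _ _)]
    have h2 : Continuous fun τ : ℝ => K τ (0 - τ) :=
      hKc.comp (by fun_prop : Continuous fun t : ℝ => (t, 0 - t))
    have h3 : Continuous fun τ : ℝ => ∫ z in (0:ℝ)..y, G τ (z - τ) :=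
      intervalIntegral.continuous_parametric_intervalIntegral_of_continuous'
        (f := fun τ z => G τ (z - τ)) hG2 0 y
    have h4 : (∫ τ in s..t, ∫ z in (0:ℝ)..y, G τ (z - τ))
        = ∫ z in (0:ℝ)..y, ∫ τ in s..t, G τ (z - τ) := by
      apply intervalIntegral_intervalIntegral_swap (F := fun τ z => G τ (z - τ))
      have h5 : IntegrableOn (fun p : ℝ × ℝ => G p.1 (p.2 - p.1)) (uIcc s t ×ˢ uIcc 0 y) volume :=
        hG2.continuousOn.integrableOn_compact (isCompact_uIcc.prod isCompact_uIcc)
      exact h5.mono_set (prod_mono uIoc_subset_uIcc uIoc_subset_uIcc)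
    rw [← h4, ← intervalIntegral.integral_add (h2.intervalIntegrable _ _)
      (h3.intervalIntegrable _ _)]
    exact intervalIntegral.integral_congr fun τ _ => h1 τ
  -- differentiate in y
  have hleft : HasDerivAt (fun y => L t (y - t) - L s (y - s)) (S t (y - t) - S s (y - s)) y := by
    have h1 := (hd2 t (y - t)).comp_sub_const y t
    have h2 := (hd2 s (y - s)).comp_sub_const y s
    exact h1.sub h2
  have hQc : Continuous fun z : ℝ => ∫ τ in s..t, G τ (z - τ) := by
    apply intervalIntegral.continuous_parametric_intervalIntegral_of_continuous'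
      (f := fun z τ => G τ (z - τ))
    exact hGc.comp (by fun_prop : Continuous fun p : ℝ × ℝ => (p.2, p.1 - p.2))
  have hright : HasDerivAt (fun y => L t (y - t) - L s (y - s))
      (-∫ τ in s..t, G τ (y - τ)) y := by
    have h1 : (fun y => L t (y - t) - L s (y - s)) = fun y =>
        ((∫ τ in s..t, -S τ 0) - ∫ τ in s..t, K τ (0 - τ))
          - ∫ z in (0:ℝ)..y, ∫ τ in s..t, G τ (z - τ) := by
      funext y
      have h2 : Continuous fun τ : ℝ => K τ (y - τ) :=
        hKc.comp (by fun_prop : Continuous fun t : ℝ => (t, y - t))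
      have i1 : IntervalIntegrable (fun τ => -S τ 0) volume s t :=
        (hSb 0).neg.intervalIntegrable _ _
      rw [hint y, intervalIntegral.integral_sub i1 (h2.intervalIntegrable _ _), hfub y]
      ring
    rw [h1]
    have h3 := intervalIntegral.integral_hasDerivAt_right (hQc.intervalIntegrable 0 y)
      (hQc.stronglyMeasurableAtFilter _ _) hQc.continuousAt
    exact h3.const_sub _
  exact hleft.unique hright

end Pool.MP_1df64d_an
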